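import Pool.Agent.Helper75_PP.Res

/-!
# Squad PP: block idempotents and their characters
-/

open scoped BigOperators

set_option linter.unusedSectionVars false

noncomputable section

namespace Pool.Agent.PP.H75

open Pool.Agent.Helper51_AWC Pool.Agent.Helper79_WRA Pool.Agent.PP

section loc

variable {F H : Type} [Field F] [Group H] [Finite H]

instance : Module.Finite F (MonoidAlgebra F H) :=
  Module.Finite.equiv (maL (F := F) (H := H))

/-- a power of a central element generates an idempotent -/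
theorem exists_idem (a : H → F) (ha : IsCl a) : ∃ (n : ℕ) (c : H → F), IsCl c ∧
    ma a ^ (n + 1) * ma c * (ma a ^ (n + 1) * ma c) = ma a ^ (n + 1) * ma c ∧
    ma a ^ (n + 1) * (ma a ^ (n + 1) * ma c) = ma a ^ (n + 1) := by
  set Z := Subalgebra.center F (MonoidAlgebra F H)
  have hfin : Module.Finite F Z := inferInstance
  have hart : IsArtinianRing Z := IsArtinianRing.of_finite F Z
  obtain ⟨n, y, hy⟩ := IsArtinian.exists_pow_succ_smul_dvd
    (⟨ma a, (isCl_iff a).1 ha⟩ : Z) (1 : Z)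
  rw [smul_eq_mul, smul_eq_mul, mul_one] at hy
  set r : Z := ⟨ma a, (isCl_iff a).1 ha⟩ with hr
  -- `r ^ (n+1+k) * y ^ k = r ^ (n+1)`
  have h1 : ∀ k : ℕ, r ^ (n + 1 + k) * y ^ k = r ^ (n + 1) := by
    intro k
    induction k with
    | zero => rw [add_zero, pow_zero, mul_one]
    | succ k ih =>
      calc r ^ (n + 1 + (k + 1)) * y ^ (k + 1)
          = r ^ (k + 1) * (r ^ n.succ * y) * y ^ k := by
            rw [show n + 1 + (k + 1) = (k + 1) + n.succ by omega, pow_add, pow_succ y]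
            ring
        _ = r ^ (k + 1) * r ^ n * y ^ k := by rw [hy]
        _ = r ^ (n + 1 + k) * y ^ k := by rw [← pow_add]; congr 2; omega
        _ = r ^ (n + 1) := ih
  have h2 := h1 (n + 1)
  have h3 : r ^ (n + 1) * (r ^ (n + 1) * y ^ (n + 1)) = r ^ (n + 1) := by
    rw [← mul_assoc, ← pow_add, h2]
  obtain ⟨c, hc⟩ := ma_surjective (((y ^ (n + 1) : Z) : MonoidAlgebra F H))
  refine ⟨n, c, ?_, ?_, ?_⟩
  · rw [isCl_iff, hc]
    exact (y ^ (n + 1) : Z).2
  · rw [hc]
    have h4 : r ^ (n + 1) * y ^ (n + 1) * (r ^ (n + 1) * y ^ (n + 1)) =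
        r ^ (n + 1) * y ^ (n + 1) := by
      calc r ^ (n + 1) * y ^ (n + 1) * (r ^ (n + 1) * y ^ (n + 1))
          = (r ^ (n + 1) * (r ^ (n + 1) * y ^ (n + 1))) * y ^ (n + 1) := by ring
        _ = _ := by rw [h3]
    have := congrArg (fun z : Z => (z : MonoidAlgebra F H)) h4
    exact this
  · rw [hc]
    have := congrArg (fun z : Z => (z : MonoidAlgebra F H)) h3
    exact this

theorem ma_pow_cl {a : H → F} (ha : IsCl a) (n : ℕ) : ∃ c : H → F, IsCl c ∧ ma c = ma a ^ n := by
  obtain ⟨c, hc⟩ := ma_surjective (ma a ^ n)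
  refine ⟨c, ?_, hc⟩
  rw [isCl_iff, hc]
  exact Subalgebra.pow_mem _ ((isCl_iff a).1 ha) n

theorem isCl_mulF {a b : H → F} (ha : IsCl a) (hb : IsCl b) : IsCl (mulF a b) := by
  rw [isCl_iff, ma_mul]
  exact Subalgebra.mul_mem _ ((isCl_iff a).1 ha) ((isCl_iff b).1 hb)

end loc

section blk

variable {M : Ideal (integralClosure ℤ ℂ)} {H : Type} [Group H] [Finite H]

/-- T2: a class function with residue zero is nilpotent on the block -/
theorem nilp [M.IsMaximal] : letI := Ideal.Quotient.field M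
    ∀ {χ : H → ℂ}, χ ∈ Irr H → ∀ {e a : H → FF M}, IsBlk e → res M e χ = 1 → IsCl a →
      res M a χ = 0 → ∃ n : ℕ, (mulF a)^[n] e = 0 := by
  let _ := Ideal.Quotient.field M
  intro χ hχ e a he he1 ha ha0
  have hea : IsCl (mulF e a) := isCl_mulF he.1.1 ha
  obtain ⟨n, c, hc, h1, h2⟩ := exists_idem (mulF e a) hea
  have hee : ma e * ma e = ma e := by rw [← ma_mul, he.1.2]
  have hcomm : Commute (ma e) (ma a) := by
    change ma e * ma a = ma a * ma e
    rw [← ma_mul, ← ma_mul, mulF_comm_cl he.1.1]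
  have hpow : ma (mulF e a) ^ (n + 1) = ma e * ma a ^ (n + 1) := by
    rw [ma_mul, hcomm.mul_pow]
    congr 1
    induction n with
    | zero => rw [zero_add, pow_one]
    | succ n _ =>
      have : ∀ m : ℕ, ma e ^ (m + 1) = ma e := by
        intro m
        induction m with
        | zero => rw [zero_add, pow_one]
        | succ m ih => rw [pow_succ, ih, hee]
      exact this _
  obtain ⟨a', ha', ha'eq⟩ := ma_pow_cl ha n
  -- the idempotent as a function
  obtain ⟨g, hg⟩ := ma_surjective (ma (mulF e a) ^ (n + 1) * ma c)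
  have hgcl : IsCl g := by
    rw [isCl_iff, hg]
    exact Subalgebra.mul_mem _ (Subalgebra.pow_mem _ ((isCl_iff _).1 hea) _) ((isCl_iff c).1 hc)
  have hgid : IsIdem g := by
    refine ⟨hgcl, ?_⟩
    apply ma_injective
    rw [ma_mul, hg, h1]
  have heg : mulF e g = g := by
    apply ma_injective
    rw [ma_mul, hg, hpow, ← mul_assoc, ← mul_assoc, hee]
  rcases he.2.2 g hgid with h3 | h3
  · exfalso
    have h4 : g = mulF e (mulF a (mulF a' c)) := by
      apply ma_injective
      rw [ma_mul, ma_mul, ma_mul, hg, hpow, ha'eq, pow_succ', ← mul_assoc, ← mul_assoc,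
        ← mul_assoc]
    have h5 : e = g := by rw [← h3, heg]
    have h6 : res M e χ = 0 := by
      rw [h5, h4, res_mulF hχ he.1.1 (isCl_mulF ha (isCl_mulF ha' hc)),
        res_mulF hχ ha (isCl_mulF ha' hc), ha0, zero_mul, mul_zero]
    rw [he1] at h6
    exact one_ne_zero h6
  · refine ⟨n + 1, ?_⟩
    apply ma_injective
    rw [ma_iterate, ma_zero]
    have h4 : ma g = 0 := by
      rw [← heg, h3, ma_zero]
    rw [← hg, h4, mul_zero] at h2
    rw [hpow] at h2
    rw [← (hcomm.pow_right (n + 1)).eq, ← h2]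

/-- T3: every block idempotent belongs to a character -/
theorem blk_char (chp : ChpStmt) (bid : BidStmt) {ℓ : ℕ} (hℓ : ℓ.Prime) [M.IsMaximal]
    (hM : (ℓ : integralClosure ℤ ℂ) ∈ M) : letI := Ideal.Quotient.field M
    ∀ {e : H → FF M}, IsBlk e → ∃ χ ∈ Irr H, res M e χ = 1 ∧
      ∀ ψ ∈ Irr H, labF M ψ ≠ labF M χ → res M e ψ = 0 := by
  let _ := Ideal.Quotient.field M
  intro e he
  have h1 := chp ℓ hℓ M hM H e he.1
  -- the rank is positive
  have h2 : rk e (cfs (FF M) H) ≠ 0 := by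
    intro h0
    set f : H → FF M := fun x => e x⁻¹ with hf
    have hfcl : f ∈ cfs (FF M) H := by
      intro x y
      change e (y * x * y⁻¹)⁻¹ = e x⁻¹
      have e1 : (y * x * y⁻¹)⁻¹ = y * x⁻¹ * y⁻¹ := by group
      rw [e1, he.1.1]
    have h3 : (cfs (FF M) H).map (actL e) = ⊥ := by
      rw [rk] at h0
      exact Submodule.finrank_eq_zero.1 h0
    have h4 : actF e f = 0 := by
      have : actL e f ∈ (cfs (FF M) H).map (actL e) := ⟨f, hfcl, rfl⟩
      rw [h3, Submodule.mem_bot] at this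
      exact this
    apply he.2.1
    funext x
    have h5 := congrFun h4 x⁻¹
    have h6 : actF e f x⁻¹ = mulF e e x := by
      unfold actF mulF
      apply finsum_congr
      intro t
      congr 1
      change e (t * x⁻¹)⁻¹ = e (t⁻¹ * x)
      have e1 : (t * x⁻¹)⁻¹ = t * (t⁻¹ * x) * t⁻¹ := by group
      rw [e1, he.1.1]
    rw [h6, he.1.2] at h5
    exact h5
  rw [h1] at h2
  obtain ⟨χ, hχ, hχ1⟩ := Set.nonempty_of_ncard_ne_zero h2
  refine ⟨χ, hχ, hχ1, ?_⟩
  obtain ⟨e', he', h3, h4⟩ := bid ℓ hℓ M hM H χ hχ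
  have h5 : mulF e e' ≠ 0 := by
    intro h0
    have h6 := res_mulF hχ he.1.1 he'.1.1
    rw [h0, res_zero, hχ1, h3, mul_one] at h6
    exact zero_ne_one h6
  have h6 : e = e' := by
    have h7 := (he.2.2 e' he'.1).resolve_right h5
    have h8 : mulF e' e ≠ 0 := by
      rw [mulF_comm_cl he'.1.1]
      exact h5
    have h9 := (he'.2.2 e he.1).resolve_right h8
    rw [← h7, mulF_comm_cl he.1.1, h9]
  rw [h6]
  exact h4

end blk

end Pool.Agent.PP.H75
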