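import Pool.Agent.Helper75_PP.Corner

/-!
# Squad PP: quotients by normal `ℓ`-subgroups
-/

open scoped BigOperators

set_option linter.unusedSectionVars false

noncomputable section

namespace Pool.Agent.PP.H75

open Pool.Agent.Helper51_AWC Pool.Agent.Helper79_WRA Pool.Agent.PP

section push

variable {F A B : Type} [Field F] [Group A] [Group B] [Finite A] [Finite B]

/-- the image of an element of the group ring -/
def push (p : A →* B) (a : A → F) : B → F := fun y => ∑ᶠ (x : A) (_ : p x = y), a x

open Classical in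
theorem push_eq [Fintype A] (p : A →* B) (a : A → F) (y : B) :
    push p a y = ∑ x : A, if p x = y then a x else 0 := by
  rw [push, finsum_eq_sum_of_fintype]
  apply Finset.sum_congr rfl
  intro x _
  rw [finsum_eq_if]

theorem sum_push [Fintype A] [Fintype B] (p : A →* B) (a : A → F) (g : B → F) :
    ∑ y, push p a y * g y = ∑ x, a x * g (p x) := by
  classical
  have h : ∀ y, push p a y * g y = ∑ x : A, if p x = y then a x * g (p x) else 0 := by
    intro y
    rw [push_eq, Finset.sum_mul]
    apply Finset.sum_congr rfl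
    intro x _
    split_ifs with h
    · rw [h]
    · rw [zero_mul]
  rw [Finset.sum_congr rfl (fun y _ => h y), Finset.sum_comm]
  apply Finset.sum_congr rfl
  intro x _
  rw [Finset.sum_ite_eq Finset.univ (p x), if_pos (Finset.mem_univ _)]

theorem actF_push (p : A →* B) (a : A → F) (f : B → F) (x : A) :
    actF (push p a) f (p x) = actF a (fun t => f (p t)) x := by
  have := Fintype.ofFinite A
  have := Fintype.ofFinite B
  unfold actF
  rw [finsum_eq_sum_of_fintype, finsum_eq_sum_of_fintype, sum_push p a (fun s => f (s * p x))]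
  apply Finset.sum_congr rfl
  intro t _
  rw [← map_mul]

theorem push_mulF (p : A →* B) (a b : A → F) :
    push p (mulF a b) = mulF (push p a) (push p b) := by
  classical
  have := Fintype.ofFinite A
  have := Fintype.ofFinite B
  funext y
  unfold mulF
  rw [finsum_eq_sum_of_fintype, sum_push p a (fun s => push p b (s⁻¹ * y)), push_eq]
  have h1 : ∀ x : A, (if p x = y then ∑ᶠ t, a t * b (t⁻¹ * x) else 0) =
      ∑ t, if p x = y then a t * b (t⁻¹ * x) else 0 := by
    intro x
    split_ifs
    · rw [finsum_eq_sum_of_fintype]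
    · rw [Finset.sum_const_zero]
  rw [Finset.sum_congr rfl (fun x _ => h1 x), Finset.sum_comm]
  apply Finset.sum_congr rfl
  intro t _
  rw [push_eq, Finset.mul_sum, ← Equiv.sum_comp (Equiv.mulLeft t)]
  apply Finset.sum_congr rfl
  intro x _
  change (if p (t * x) = y then a t * b (t⁻¹ * (t * x)) else 0) = _
  rw [inv_mul_cancel_left, map_mul]
  by_cases h : p x = (p t)⁻¹ * y
  · rw [if_pos h, if_pos]
    rw [h, mul_inv_cancel_left]
  · rw [if_neg h, if_neg, mul_zero]
    intro h'
    apply h
    rw [← h', inv_mul_cancel_left]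

theorem push_zero (p : A →* B) : push p (0 : A → F) = 0 := by
  funext y
  have := Fintype.ofFinite A
  classical
  rw [push_eq]
  apply Finset.sum_eq_zero
  intro x _
  split_ifs <;> rfl

theorem push_iterate (p : A →* B) (a b : A → F) (n : ℕ) :
    push p ((mulF a)^[n] b) = (mulF (push p a))^[n] (push p b) := by
  induction n with
  | zero => rfl
  | succ n ih => rw [Function.iterate_succ_apply', Function.iterate_succ_apply', push_mulF, ih]

theorem push_isCl {p : A →* B} (hp : Function.Surjective p) {a : A → F} (ha : IsCl a) :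
    IsCl (push p a) := by
  classical
  have := Fintype.ofFinite A
  intro x y
  obtain ⟨g, rfl⟩ := hp y
  rw [push_eq, push_eq, ← Equiv.sum_comp (MulAut.conj g).toEquiv]
  apply Finset.sum_congr rfl
  intro t _
  change (if p (g * t * g⁻¹) = p g * x * (p g)⁻¹ then a (g * t * g⁻¹) else 0) = _
  rw [ha]
  have e1 : p (g * t * g⁻¹) = p g * p t * (p g)⁻¹ := by rw [map_mul, map_mul, map_inv]
  by_cases h : p t = x
  · rw [if_pos h, if_pos]
    rw [e1, h]
  · rw [if_neg h, if_neg]
    intro h'
    apply h
    rw [e1] at h'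
    exact mul_left_cancel (mul_right_cancel h')

theorem push_isIdem {p : A →* B} (hp : Function.Surjective p) {e : A → F} (he : IsIdem e) :
    IsIdem (push p e) := ⟨push_isCl hp he.1, by rw [← push_mulF, he.2]⟩

/-- a normal `ℓ`-subgroup acts trivially, so `ℓ`-numbers may be computed in the quotient -/
theorem cnt_push (nls : NlsStmt) {ℓ : ℕ} (hF : GoodF ℓ F) {p : A →* B}
    (hp : Function.Surjective p) (hk : IsPGroup ℓ p.ker) (a : A → F) :
    cnt a = cnt (push p a) := by
  symm
  unfold cnt
  apply Set.ncard_congr (fun f _ => fun x => f (p x))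
  · rintro f ⟨⟨n, ρ, hρ, rfl⟩, h2⟩
    refine ⟨⟨n, ρ.comp p, ⟨hρ.1, ?_⟩, rfl⟩, ?_⟩
    · rw [← hρ.2]
      congr 1
      ext M
      constructor
      · rintro ⟨x, rfl⟩
        exact ⟨p x, rfl⟩
      · rintro ⟨y, rfl⟩
        obtain ⟨x, rfl⟩ := hp y
        exact ⟨x, rfl⟩
    · funext x
      rw [← actF_push, h2]
  · intro f g _ _ h
    funext y
    obtain ⟨x, rfl⟩ := hp y
    exact congrFun h x
  · rintro f ⟨⟨n, ρ, hρ, rfl⟩, h2⟩
    have htriv := (nls ℓ F hF A p.ker inferInstance hk n ρ hρ).1
    have hkey : ∀ x x', p x = p x' → ρ x = ρ x' := by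
      intro x x' h
      have h1 : x'⁻¹ * x ∈ p.ker := by
        rw [MonoidHom.mem_ker, map_mul, map_inv, h, inv_mul_cancel]
      have h2 := htriv _ h1
      calc ρ x = ρ (x' * (x'⁻¹ * x)) := by rw [mul_inv_cancel_left]
        _ = ρ x' := by rw [map_mul, h2, mul_one]
    let s : B → A := Function.surjInv hp
    have hs : ∀ y, p (s y) = y := Function.surjInv_eq hp
    let σ : B →* Matrix (Fin n) (Fin n) F :=
      { toFun := fun y => ρ (s y)
        map_one' := by
          change ρ (s 1) = 1
          rw [← map_one ρ]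
          apply hkey
          rw [hs, map_one]
        map_mul' := fun y z => by
          change ρ (s (y * z)) = ρ (s y) * ρ (s z)
          rw [← map_mul]
          apply hkey
          rw [hs, map_mul, hs, hs] }
    have hσ : ∀ x, σ (p x) = ρ x := fun x => hkey _ _ (hs _)
    have htr : (fun x => tr σ (p x)) = tr ρ := by
      funext x
      change (σ (p x)).trace = (ρ x).trace
      rw [hσ]
    refine ⟨tr σ, ⟨⟨n, σ, ⟨hρ.1, ?_⟩, rfl⟩, ?_⟩, htr⟩
    · rw [← hρ.2]
      congr 1
      ext M
      constructor
      · rintro ⟨y, rfl⟩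
        exact ⟨s y, rfl⟩
      · rintro ⟨x, rfl⟩
        exact ⟨p x, hσ x⟩
    · funext y
      obtain ⟨x, rfl⟩ := hp y
      rw [actF_push, htr, h2]
      exact (congrFun htr x).symm

end push

section quo

variable {F A B : Type} [Field F] [Group A] [Group B] [Finite A] [Finite B]

/-- `ℓ`-numbers of preimages -/
theorem lnum_comap (nls : NlsStmt) {ℓ : ℕ} (hF : GoodF ℓ F) {p : A →* B}
    (hp : Function.Surjective p) (hk : IsPGroup ℓ p.ker) (X : Subgroup B) (a : A → F) :
    lnum (X.comap p) a = lnum X (push p a) := by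
  classical
  have := Fintype.ofFinite A
  let q : X.comap p →* X := (p.comp (X.comap p).subtype).codRestrict X (fun x => x.2)
  have hq : ∀ x : X.comap p, ((q x : X) : B) = p x := fun x => rfl
  have hqs : Function.Surjective q := by
    intro y
    obtain ⟨x, hx⟩ := hp y
    refine ⟨⟨x, ?_⟩, Subtype.ext hx⟩
    rw [Subgroup.mem_comap, hx]
    exact y.2
  have hqk : IsPGroup ℓ q.ker := by
    let i : q.ker →* p.ker :=
      { toFun := fun x => ⟨((x : X.comap p) : A), by
          have h := x.2
          rw [MonoidHom.mem_ker] at h ⊢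
          exact congrArg Subtype.val h⟩
        map_one' := rfl
        map_mul' := fun _ _ => rfl }
    apply hk.of_injective i
    intro x y h
    apply Subtype.ext
    apply Subtype.ext
    exact congrArg (fun z : p.ker => (z : A)) h
  rw [lnum_eq, lnum_eq, cnt_push nls hF hqs hqk]
  congr 1
  funext y
  have := Fintype.ofFinite (X.comap p)
  rw [push_eq, push_eq, ← finsum_eq_sum_of_fintype, ← finsum_eq_sum_of_fintype]
  symm
  rw [sum_sub (X.comap p)]
  · apply finsum_congr
    intro x
    have e1 : (q x = y) ↔ p (x : A) = (y : B) := by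
      rw [← hq]
      exact ⟨fun h => congrArg Subtype.val h, fun h => Subtype.ext h⟩
    by_cases h : p (x : A) = (y : B)
    · rw [if_pos h, if_pos (e1.2 h)]
    · rw [if_neg h, if_neg (fun h' => h (e1.1 h'))]
  · intro x hx
    rw [if_neg]
    intro h
    apply hx
    rw [Subgroup.mem_comap, h]
    exact y.2

theorem card_comap {p : A →* B} (hp : Function.Surjective p) (X : Subgroup B) :
    Nat.card (X.comap p) = Nat.card p.ker * Nat.card X := by
  have h1 := Subgroup.card_mul_index (X.comap p)
  have h2 := Subgroup.card_mul_index X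
  have h3 := Subgroup.card_mul_index p.ker
  rw [Subgroup.index_comap_of_surjective X hp] at h1
  rw [Subgroup.index_ker, MonoidHom.range_eq_top.2 hp, Subgroup.card_top, ← h2, ← h1,
    ← mul_assoc] at h3
  exact (Nat.eq_of_mul_eq_mul_right (Nat.pos_of_ne_zero Subgroup.index_ne_zero_of_finite) h3).symm

/-- preimage of a chain -/
def comapC (p : A →* B) (hp : Function.Surjective p) (d : Finset (Subgroup B)) :
    Finset (Subgroup A) :=
  d.map ⟨Subgroup.comap p, Subgroup.comap_injective hp⟩

theorem mem_comapC {p : A →* B} {hp : Function.Surjective p} {d : Finset (Subgroup B)}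
    {D : Subgroup A} : D ∈ comapC p hp d ↔ ∃ E ∈ d, E.comap p = D := by
  simp [comapC]

theorem card_comapC (p : A →* B) (hp : Function.Surjective p) (d : Finset (Subgroup B)) :
    (comapC p hp d).card = d.card := Finset.card_map _

theorem conjS_comap {p : A →* B} (x : A) (D : Subgroup B) :
    conjS x (D.comap p) = (conjS (p x) D).comap p := by
  ext y
  rw [mem_conjS, Subgroup.mem_comap, Subgroup.mem_comap, mem_conjS, map_mul, map_mul, map_inv]

theorem stab_comapC (p : A →* B) (hp : Function.Surjective p) (d : Finset (Subgroup B)) :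
    stab (comapC p hp d) = (stab d).comap p := by
  ext x
  rw [Subgroup.mem_comap, mem_stab, mem_stab]
  constructor
  · intro h D hD
    have := h (D.comap p) (mem_comapC.2 ⟨D, hD, rfl⟩)
    rw [conjS_comap] at this
    exact Subgroup.comap_injective hp this
  · intro h D hD
    obtain ⟨E, hE, rfl⟩ := mem_comapC.1 hD
    rw [conjS_comap, h E hE]

theorem comap_mono_iff {p : A →* B} (hp : Function.Surjective p) {D E : Subgroup B} :
    D.comap p ≤ E.comap p ↔ D ≤ E := Subgroup.comap_le_comap_of_surjective hp

theorem isPGroup_comap_iff {ℓ : ℕ} {p : A →* B} (hp : Function.Surjective p)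
    (hk : IsPGroup ℓ p.ker) (D : Subgroup B) : IsPGroup ℓ (D.comap p) ↔ IsPGroup ℓ D := by
  constructor
  · intro h
    have := h.map p
    rwa [Subgroup.map_comap_eq_self_of_surjective hp] at this
  · intro h
    exact h.comap_of_ker_isPGroup p hk

/-- the chains that start with the normal `ℓ`-subgroup `U` -/
theorem sum_comapC {ℓ : ℕ} (p : A →* B) (hp : Function.Surjective p) (hk : p.ker = opCore ℓ A)
    (hk2 : IsPGroup ℓ p.ker) (f : Finset (Subgroup A) → ℤ) :
    ∑ d ∈ chainsOn (psub ℓ A) (opCore ℓ A), f d =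
      ∑ d ∈ chainsOn (psubIn ℓ (⊤ : Subgroup B)) ⊥, f (comapC p hp d) := by
  classical
  symm
  apply Finset.sum_bij (fun d _ => comapC p hp d)
  · intro d hd
    obtain ⟨h1, h2, h3⟩ := mem_chainsOn.1 hd
    rw [mem_chainsOn]
    refine ⟨?_, ?_, ?_⟩
    · intro D hD
      obtain ⟨E, hE, rfl⟩ := mem_comapC.1 hD
      have := mem_psubIn'.1 (h1 hE)
      rw [mem_psub, ← hk]
      refine ⟨?_, (isPGroup_comap_iff hp hk2 E).2 this.2⟩
      rw [← MonoidHom.comap_bot]
      exact Subgroup.comap_mono bot_le
    · exact mem_comapC.2 ⟨⊥, h2, by rw [MonoidHom.comap_bot, hk]⟩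
    · intro D hD E hE _
      obtain ⟨D', hD', rfl⟩ := mem_comapC.1 (Finset.mem_coe.1 hD)
      obtain ⟨E', hE', rfl⟩ := mem_comapC.1 (Finset.mem_coe.1 hE)
      rcases chain_total h3 hD' hE' with h | h
      · exact Or.inl (Subgroup.comap_mono h)
      · exact Or.inr (Subgroup.comap_mono h)
  · intro d _ e _ h
    exact Finset.map_injective _ h
  · intro d hd
    obtain ⟨h1, h2, h3⟩ := mem_chainsOn.1 hd
    have hmc : ∀ D ∈ d, (D.map p).comap p = D := by
      intro D hD
      apply Subgroup.comap_map_eq_self
      rw [hk]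
      exact (mem_psub.1 (h1 hD)).1
    refine ⟨d.image (Subgroup.map p), ?_, ?_⟩
    · rw [mem_chainsOn]
      refine ⟨?_, ?_, ?_⟩
      · intro D hD
        obtain ⟨E, hE, rfl⟩ := Finset.mem_image.1 hD
        exact mem_psubIn'.2 ⟨le_top, ((mem_psub.1 (h1 hE)).2).map p⟩
      · rw [Finset.mem_image]
        refine ⟨opCore ℓ A, h2, ?_⟩
        rw [← hk, eq_bot_iff]
        rintro _ ⟨x, hx, rfl⟩
        exact hx
      · intro D hD E hE _
        obtain ⟨D', hD', rfl⟩ := Finset.mem_image.1 (Finset.mem_coe.1 hD)
        obtain ⟨E', hE', rfl⟩ := Finset.mem_image.1 (Finset.mem_coe.1 hE)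
        rcases chain_total h3 hD' hE' with h | h
        · exact Or.inl (Subgroup.map_mono h)
        · exact Or.inr (Subgroup.map_mono h)
    · ext D
      rw [mem_comapC]
      constructor
      · rintro ⟨E, hE, rfl⟩
        obtain ⟨E', hE', rfl⟩ := Finset.mem_image.1 hE
        rw [hmc E' hE']
        exact hE'
      · intro hD
        exact ⟨D.map p, Finset.mem_image_of_mem _ hD, hmc D hD⟩
  · intro d _
    rfl

end quo

end Pool.Agent.PP.H75
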