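import Pool.Agent.Helper75_PP.Transport

/-!
# Squad PP: corner idempotents (Morita equivalence for induced blocks)

`ε` is an idempotent of `F X` with support in a subgroup `K`, central in `F K`, and `ε x ε = 0` for
`x ∉ K`.  Then the irreducible modular characters of `X` on which `ε` does not vanish correspond to
the irreducible modular characters of `K` on which `ε` acts as the identity.
-/

open scoped BigOperators

set_option linter.unusedSectionVars false

noncomputable section

namespace Pool.Agent.PP.H75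

open Pool.Agent.Helper51_AWC Pool.Agent.Helper79_WRA Pool.Agent.PP

section basics

variable {F X : Type} [Field F] [Group X] [Finite X]

/-- a sum of a function which vanishes outside a subgroup -/
theorem sum_sub {V : Type*} [AddCommMonoid V] (K : Subgroup X) (g : X → V)
    (hg : ∀ x, x ∉ K → g x = 0) : ∑ᶠ x, g x = ∑ᶠ x : K, g x := by
  classical
  have h1 : ∑ᶠ x : K, g x = ∑ᶠ (x) (_ : x ∈ (K : Set X)), g x :=
    finsum_set_coe_eq_finsum_mem (K : Set X)
  rw [h1]
  apply finsum_congr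
  intro x
  by_cases hx : x ∈ K
  · rw [finsum_eq_if, if_pos (show x ∈ (K : Set X) from hx)]
  · rw [finsum_eq_if, if_neg (show x ∉ (K : Set X) from hx), hg x hx]

theorem mulF_res (K : Subgroup X) {a : X → F} (c : X → F) (ha : ∀ x, x ∉ K → a x = 0) :
    (fun t : K => mulF a c t) = mulF (fun t : K => a t) (fun t : K => c t) := by
  funext t
  unfold mulF
  rw [sum_sub K _ (fun x hx => by rw [ha x hx, zero_mul])]
  rfl

theorem actF_res (K : Subgroup X) {a : X → F} (f : X → F) (ha : ∀ x, x ∉ K → a x = 0) :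
    (fun t : K => actF a f t) = actF (fun t : K => a t) (fun t : K => f t) := by
  funext t
  unfold actF
  rw [sum_sub K _ (fun x hx => by rw [ha x hx, zero_mul])]
  rfl

theorem mulF_supp (K : Subgroup X) {a c : X → F} (ha : ∀ x, x ∉ K → a x = 0)
    (hc : ∀ x, x ∉ K → c x = 0) : ∀ x, x ∉ K → mulF a c x = 0 := by
  intro x hx
  unfold mulF
  rw [finsum_eq_zero_of_forall_eq_zero]
  intro t
  by_cases ht : t ∈ K
  · rw [hc (t⁻¹ * x), mul_zero]
    intro h
    apply hx
    have := K.mul_mem ht h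
    rwa [mul_inv_cancel_left] at this
  · rw [ha t ht, zero_mul]

theorem mulF_dl_left (z : X) (a : X → F) (x : X) : mulF (dl F z) a x = a (z⁻¹ * x) := by
  unfold mulF
  rw [finsum_eq_single _ z]
  · rw [dl, if_pos rfl, one_mul]
  · intro t ht
    rw [dl, if_neg ht, zero_mul]

theorem mulF_dl_right (z : X) (a : X → F) (x : X) : mulF a (dl F z) x = a (x * z⁻¹) := by
  unfold mulF
  rw [finsum_eq_single _ (x * z⁻¹)]
  · rw [dl, if_pos (by group), mul_one]
  · intro t ht
    rw [dl, if_neg, mul_zero]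
    intro h
    apply ht
    rw [← h]
    group

open Classical in
/-- extension by zero -/
def ext0 (K : Subgroup X) (a : K → F) : X → F := fun x => if h : x ∈ K then a ⟨x, h⟩ else 0

theorem ext0_supp (K : Subgroup X) (a : K → F) : ∀ x, x ∉ K → ext0 K a x = 0 := by
  intro x hx
  rw [ext0, dif_neg hx]

theorem ext0_apply (K : Subgroup X) (a : K → F) (t : K) : ext0 K a t = a t := by
  rw [ext0, dif_pos t.2]

theorem ext0_res (K : Subgroup X) {a : X → F} (ha : ∀ x, x ∉ K → a x = 0) :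
    ext0 K (fun t : K => a t) = a := by
  funext x
  by_cases hx : x ∈ K
  · rw [ext0, dif_pos hx]
  · rw [ext0, dif_neg hx, ha x hx]

theorem ext0_mulF (K : Subgroup X) (a b : K → F) :
    ext0 K (mulF a b) = mulF (ext0 K a) (ext0 K b) := by
  have h := mulF_res K (ext0 K b) (ext0_supp K a)
  have e1 : (fun t : K => ext0 K a t) = a := funext (ext0_apply K a)
  have e2 : (fun t : K => ext0 K b t) = b := funext (ext0_apply K b)
  rw [e1, e2] at h
  rw [← h, ext0_res K (mulF_supp K (ext0_supp K a) (ext0_supp K b))]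

/-- nondegeneracy of the trace form -/
theorem ev_zero_iff {n : ℕ} {ρ : X →* Matrix (Fin n) (Fin n) F} (hρ : IsIrr ρ) (a : X → F) :
    ev ρ a = 0 ↔ actF a (tr ρ) = 0 := by
  constructor
  · intro h
    funext x
    rw [actF_tr, h, zero_mul, Matrix.trace_zero]
    rfl
  · intro h
    rw [Matrix.ext_iff_trace_mul_right]
    intro B
    have hB : B ∈ Submodule.span F (Set.range ρ) := by
      rw [hρ.2]; trivial
    rw [zero_mul, Matrix.trace_zero]
    induction hB using Submodule.span_induction with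
    | mem x hx =>
      obtain ⟨y, rfl⟩ := hx
      rw [← actF_tr, h]
      rfl
    | zero => rw [mul_zero, Matrix.trace_zero]
    | add x y _ _ hx hy => rw [mul_add, Matrix.trace_add, hx, hy, add_zero]
    | smul c x _ hx => rw [mul_smul_comm, Matrix.trace_smul, hx, smul_zero]

theorem tr_ne_zero {n : ℕ} {ρ : X →* Matrix (Fin n) (Fin n) F} (hρ : IsIrr ρ) : tr ρ ≠ 0 := by
  intro h
  have h1 : ev ρ (dl F (1 : X)) = 0 := by
    rw [ev_zero_iff hρ]
    funext x
    rw [h]
    change ∑ᶠ t, _ = (0 : F)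
    rw [finsum_eq_zero_of_forall_eq_zero]
    intro t
    change _ * (0 : F) = 0
    rw [mul_zero]
  rw [ev_dl, map_one] at h1
  have h2 := congrFun (congrFun h1 ⟨0, hρ.1⟩) ⟨0, hρ.1⟩
  rw [Matrix.one_apply_eq] at h2
  exact one_ne_zero h2

theorem actF_eq_of_ev {n : ℕ} {ρ : X →* Matrix (Fin n) (Fin n) F} {a b : X → F}
    (h : ev ρ a = ev ρ b) : actF a (tr ρ) = actF b (tr ρ) := by
  funext x
  rw [actF_tr, actF_tr, h]

theorem actF_one {n : ℕ} {ρ : X →* Matrix (Fin n) (Fin n) F} {a : X → F}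
    (h : ev ρ a = 1) : actF a (tr ρ) = tr ρ := by
  funext x
  rw [actF_tr, h, one_mul]
  rfl

theorem actF_zero_right (a : X → F) : actF a (0 : X → F) = 0 := by
  funext x
  unfold actF
  rw [finsum_eq_zero_of_forall_eq_zero]
  · rfl
  · intro t
    change _ * (0 : F) = 0
    rw [mul_zero]

/-- rank factorisation of an idempotent matrix -/
theorem idem_factor {n : ℕ} (E : Matrix (Fin n) (Fin n) F) (hE : E * E = E) (h0 : E ≠ 0) :
    ∃ (r : ℕ) (U : Matrix (Fin n) (Fin r) F) (V : Matrix (Fin r) (Fin n) F),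
      0 < r ∧ V * U = 1 ∧ U * V = E := by
  classical
  set f : (Fin n → F) →ₗ[F] (Fin n → F) := Matrix.toLin' E with hf
  set b := Module.finBasis F (LinearMap.range f) with hb
  set c := Pi.basisFun F (Fin n) with hc
  refine ⟨_, LinearMap.toMatrix b c (LinearMap.range f).subtype,
    LinearMap.toMatrix c b f.rangeRestrict, ?_, ?_, ?_⟩
  · rw [Module.finrank_pos_iff, Submodule.nontrivial_iff_ne_bot]
    intro h
    rw [LinearMap.range_eq_bot] at h
    apply h0
    apply Matrix.toLin'.injective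
    rw [map_zero]
    exact h
  · rw [← LinearMap.toMatrix_comp b c b]
    have e : f.rangeRestrict.comp (LinearMap.range f).subtype = LinearMap.id := by
      apply LinearMap.ext
      rintro ⟨w, v, rfl⟩
      apply Subtype.ext
      change f (f v) = f v
      have h1 : f.comp f = f := by
        rw [hf, ← Matrix.toLin'_mul, hE]
      exact LinearMap.congr_fun h1 v
    rw [e, LinearMap.toMatrix_id]
  · rw [← LinearMap.toMatrix_comp c b c]
    have e : (LinearMap.range f).subtype.comp f.rangeRestrict = f := by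
      apply LinearMap.ext
      intro v
      rfl
    rw [e, hf, hc, LinearMap.toMatrix_eq_toMatrix', LinearMap.toMatrix'_toLin']

end basics

section corner

variable {F X : Type} [Field F] [Group X] [Finite X]

/-- corner idempotents -/
structure Cor (K : Subgroup X) (ε : X → F) : Prop where
  supp : ∀ x, x ∉ K → ε x = 0
  inv : ∀ k ∈ K, ∀ x, ε (k * x * k⁻¹) = ε x
  idem : mulF ε ε = ε
  off : ∀ x, x ∉ K → mulF ε (mulF (dl F x) ε) = 0

theorem Cor.comm {K : Subgroup X} {ε : X → F} (h : Cor K ε) {z : X} (hz : z ∈ K) :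
    mulF (dl F z) ε = mulF ε (dl F z) := by
  funext x
  rw [mulF_dl_left, mulF_dl_right]
  have := h.inv z hz (z⁻¹ * x)
  rw [← this]
  congr 1
  group

theorem Cor.ev_comm {K : Subgroup X} {ε : X → F} (h : Cor K ε) {n : ℕ}
    (ρ : X →* Matrix (Fin n) (Fin n) F) {z : X} (hz : z ∈ K) : ρ z * ev ρ ε = ev ρ ε * ρ z := by
  rw [← ev_dl ρ z, ← ev_mulF, ← ev_mulF, h.comm hz]

theorem Cor.ev_off {K : Subgroup X} {ε : X → F} (h : Cor K ε) {n : ℕ}
    (ρ : X →* Matrix (Fin n) (Fin n) F) {x : X} (hx : x ∉ K) : ev ρ ε * (ρ x * ev ρ ε) = 0 := by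
  rw [← ev_dl ρ x, ← ev_mulF, ← ev_mulF, h.off x hx, ev_eq, ma_zero, map_zero]

theorem Cor.ev_idem {K : Subgroup X} {ε : X → F} (h : Cor K ε) {n : ℕ}
    (ρ : X →* Matrix (Fin n) (Fin n) F) : ev ρ ε * ev ρ ε = ev ρ ε := by
  rw [← ev_mulF, h.idem]

theorem Cor.isCl {K : Subgroup X} {ε : X → F} (h : Cor K ε) : IsCl (fun t : K => ε t) :=
  fun x y => h.inv y y.2 x

theorem Cor.isIdem {K : Subgroup X} {ε : X → F} (h : Cor K ε) : IsIdem (fun t : K => ε t) := by
  refine ⟨h.isCl, ?_⟩
  rw [← mulF_res K ε h.supp, h.idem]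

/-- the corner representation -/
theorem Cor.exists_rep {K : Subgroup X} {ε : X → F} (h : Cor K ε) {n : ℕ}
    {ρ : X →* Matrix (Fin n) (Fin n) F} (hρ : IsIrr ρ) (h0 : actF ε (tr ρ) ≠ 0) :
    ∃ (r : ℕ) (U : Matrix (Fin n) (Fin r) F) (V : Matrix (Fin r) (Fin n) F)
      (σ : K →* Matrix (Fin r) (Fin r) F), IsIrr σ ∧ V * U = 1 ∧ U * V = ev ρ ε ∧
        (∀ y : K, σ y = V * ρ y * U) ∧ (∀ a : K → F, ev σ a = V * ev ρ (ext0 K a) * U) ∧
        tr σ = fun t : K => actF ε (tr ρ) t := by
  have hne : ev ρ ε ≠ 0 := fun h' => h0 ((ev_zero_iff hρ ε).1 h')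
  obtain ⟨r, U, V, hr, hVU, hUV⟩ := idem_factor (ev ρ ε) (h.ev_idem ρ) hne
  have hmul : ∀ y z : K, V * ρ (y * z : X) * U = V * ρ y * U * (V * ρ z * U) := by
    intro y z
    have e1 : V * ρ y * U * (V * ρ z * U) = V * ρ y * (U * V) * ρ z * U := by
      simp only [Matrix.mul_assoc]
    have e2 : V * ρ y * (ev ρ ε) * ρ z * U = V * ρ y * (ρ z * ev ρ ε) * U := by
      rw [h.ev_comm ρ z.2]
      simp only [Matrix.mul_assoc]
    have e3 : V * ρ y * (ρ z * (U * V)) * U = V * (ρ y * ρ z) * U * (V * U) := by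
      simp only [Matrix.mul_assoc]
    rw [e1, hUV, e2, ← hUV, e3, hVU, Matrix.mul_one, map_mul]
  let σ : K →* Matrix (Fin r) (Fin r) F :=
    { toFun := fun y => V * ρ y * U
      map_one' := by
        change V * ρ ((1 : K) : X) * U = 1
        rw [Subgroup.coe_one, map_one, Matrix.mul_one, hVU]
      map_mul' := fun y z => hmul y z }
  have hσ : ∀ y : K, σ y = V * ρ y * U := fun y => rfl
  have hsmul : ∀ (c : F) (M : Matrix (Fin n) (Fin n) F), V * (c • M) * U = c • (V * M * U) := by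
    intro c M
    rw [Matrix.mul_smul, Matrix.smul_mul]
  have hadd : ∀ (M N : Matrix (Fin n) (Fin n) F), V * (M + N) * U = V * M * U + V * N * U := by
    intro M N
    rw [Matrix.mul_add, Matrix.add_mul]
  refine ⟨r, U, V, σ, ⟨hr, ?_⟩, hVU, hUV, hσ, ?_, ?_⟩
  · rw [eq_top_iff]
    intro B _
    have key : ∀ M ∈ Submodule.span F (Set.range ρ),
        V * M * U ∈ Submodule.span F (Set.range σ) := by
      intro M hM
      induction hM using Submodule.span_induction with
      | mem x hx =>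
        obtain ⟨y, rfl⟩ := hx
        by_cases hy : y ∈ K
        · exact Submodule.subset_span ⟨⟨y, hy⟩, rfl⟩
        · have e : V * ρ y * U = (V * U) * V * ρ y * U * (V * U) := by
            rw [hVU, Matrix.one_mul, Matrix.mul_one]
          have e2 : (V * U) * V * ρ y * U * (V * U) = V * ((U * V) * (ρ y * (U * V))) * U := by
            simp only [Matrix.mul_assoc]
          rw [e, e2, hUV, h.ev_off ρ hy, Matrix.mul_zero, Matrix.zero_mul]
          exact Submodule.zero_mem _
      | zero => rw [Matrix.mul_zero, Matrix.zero_mul]; exact Submodule.zero_mem _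
      | add x y _ _ hx hy => rw [hadd]; exact Submodule.add_mem _ hx hy
      | smul c x _ hx => rw [hsmul]; exact Submodule.smul_mem _ _ hx
    have e : V * (U * B * V) * U = B := by
      have e2 : V * (U * B * V) * U = (V * U) * B * (V * U) := by
        simp only [Matrix.mul_assoc]
      rw [e2, hVU, Matrix.one_mul, Matrix.mul_one]
    rw [← e]
    apply key
    rw [hρ.2]
    trivial
  · intro a
    have e1 : ev ρ (ext0 K a) = ∑ᶠ t : K, a t • ρ t := by
      unfold ev
      rw [sum_sub K]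
      · apply finsum_congr
        intro t
        rw [ext0_apply]
      · intro x hx
        rw [ext0_supp K a x hx, zero_smul]
    rw [e1]
    have := Fintype.ofFinite K
    unfold ev
    rw [finsum_eq_sum_of_fintype, finsum_eq_sum_of_fintype, Matrix.mul_sum, Matrix.sum_mul]
    apply Finset.sum_congr rfl
    intro t _
    rw [hsmul, hσ]
  · funext t
    rw [actF_tr, ← hUV]
    change (V * ρ t * U).trace = _
    rw [Matrix.trace_mul_comm, Matrix.mul_assoc]

/-- separation of two irreducible characters -/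
theorem sep (ibj : IbjStmt) {ℓ : ℕ} (hF : GoodF ℓ F) {n m : ℕ}
    {ρ : X →* Matrix (Fin n) (Fin n) F} {ρ' : X →* Matrix (Fin m) (Fin m) F} (hρ : IsIrr ρ)
    (hρ' : IsIrr ρ') (hne : tr ρ ≠ tr ρ') : ∃ a : X → F, ev ρ a = 1 ∧ ev ρ' a = 0 := by
  let N : Option Unit → ℕ := fun b => b.elim n (fun _ => m)
  let τ : ∀ b, X →* Matrix (Fin (N b)) (Fin (N b)) F := fun b =>
    match b with
    | none => ρ
    | some _ => ρ'
  obtain ⟨a, ha⟩ := ibj ℓ F hF X (Option Unit) N τ (by
    intro b
    match b with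
    | none => exact hρ
    | some _ => exact hρ') (by
    intro b c hbc
    match b, c with
    | none, none => rfl
    | some _, some _ => rfl
    | none, some _ => exact absurd hbc hne
    | some _, none => exact absurd hbc.symm hne) (fun b =>
    match b with
    | none => 1
    | some _ => 0)
  exact ⟨a, ha none, ha (some ())⟩

theorem Cor.inj (ibj : IbjStmt) {ℓ : ℕ} (hF : GoodF ℓ F) {K : Subgroup X} {ε : X → F}
    (h : Cor K ε) {f g : X → F} (hf : f ∈ IBr F X) (hg : g ∈ IBr F X) (hf0 : actF ε f ≠ 0)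
    (hfg : (fun t : K => actF ε f t) = fun t : K => actF ε g t) : f = g := by
  by_contra hne
  obtain ⟨n, ρ, hρ, rfl⟩ := hf
  obtain ⟨m, ρ', hρ', rfl⟩ := hg
  have hoff : ∀ {n : ℕ} (ρ : X →* Matrix (Fin n) (Fin n) F) (x : X), x ∉ K →
      actF ε (tr ρ) x = 0 := by
    intro n ρ x hx
    rw [actF_tr, ← h.ev_idem ρ, Matrix.mul_assoc, Matrix.trace_mul_comm, Matrix.mul_assoc,
      h.ev_off ρ hx, Matrix.trace_zero]
  have h1 : actF ε (tr ρ) = actF ε (tr ρ') := by
    funext x
    by_cases hx : x ∈ K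
    · exact congrFun hfg ⟨x, hx⟩
    · rw [hoff ρ x hx, hoff ρ' x hx]
  obtain ⟨a, ha, ha'⟩ := sep ibj hF hρ hρ' hne
  apply hf0
  have h2 : actF (mulF ε a) (tr ρ) = actF (mulF ε a) (tr ρ') := by
    rw [actF_mulF, actF_mulF, h1]
  have h3 : actF (mulF ε a) (tr ρ) = actF ε (tr ρ) := by
    apply actF_eq_of_ev
    rw [ev_mulF, ha, mul_one]
  have h4 : actF (mulF ε a) (tr ρ') = 0 := by
    rw [← ev_zero_iff hρ', ev_mulF, ha', mul_zero]
  rw [← h3, h2, h4]

theorem Cor.surj (ibf : IbfStmt) (ibj : IbjStmt) (ibn : IbnStmt) (eig : EigStmt) {ℓ : ℕ}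
    (hF : GoodF ℓ F) {K : Subgroup X} {ε : X → F} (h : Cor K ε) {g : K → F} (hg : g ∈ IBr F K)
    (hg1 : actF (fun t : K => ε t) g = g) : ∃ f ∈ IBr F X, actF ε f ≠ 0 ∧
      (fun t : K => actF ε f t) = g := by
  by_contra hcon
  push Not at hcon
  obtain ⟨m, σ1, hσ1, rfl⟩ := hg
  -- the matrix of `ε`
  have hone : ev σ1 (fun t : K => ε t) = 1 := by
    obtain ⟨w, hw1, hw2, hw3⟩ := eig F K m σ1 hσ1 (fun t : K => ε t) h.isCl
    rcases hw3 h.isIdem with hw | hw
    · exfalso
      rw [hw2, hw, zero_smul] at hg1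
      exact tr_ne_zero hσ1 hg1.symm
    · rw [hw1, hw, map_one]
  let S := {f : X → F // f ∈ IBr F X ∧ actF ε f ≠ 0}
  have hSfin : Finite S := by
    have h1 : ({f : X → F | f ∈ IBr F X ∧ actF ε f ≠ 0}).Finite :=
      (ibf ℓ F hF X).1.subset (fun f hf => hf.1)
    exact h1.to_subtype
  have hex : ∀ s : S, ∃ (n : ℕ) (ρ : X →* Matrix (Fin n) (Fin n) F) (r : ℕ)
      (U : Matrix (Fin n) (Fin r) F) (V : Matrix (Fin r) (Fin n) F)
      (σ : K →* Matrix (Fin r) (Fin r) F), IsIrr ρ ∧ tr ρ = s.1 ∧ IsIrr σ ∧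
        U * V = ev ρ ε ∧ (∀ a : K → F, ev σ a = V * ev ρ (ext0 K a) * U) ∧
        tr σ = fun t : K => actF ε s.1 t := by
    rintro ⟨f, ⟨n, ρ, hρ, rfl⟩, hf0⟩
    obtain ⟨r, U, V, σ, k1, _, k3, _, k5, k6⟩ := h.exists_rep hρ hf0
    exact ⟨n, ρ, r, U, V, σ, hρ, rfl, k1, k3, k5, k6⟩
  choose n ρ r U V σ hρ hρtr hσ hUV hev htr using hex
  let N : Option S → ℕ := fun b => b.elim m (fun s => r s)
  let τ : ∀ b, K →* Matrix (Fin (N b)) (Fin (N b)) F := fun b =>
    match b with
    | none => σ1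
    | some s => σ s
  obtain ⟨a, ha⟩ := ibj ℓ F hF K (Option S) N τ (by
    intro b
    match b with
    | none => exact hσ1
    | some s => exact hσ s) (by
    intro b c hbc
    match b, c with
    | none, none => rfl
    | some s, some s' =>
      have e1 : tr (σ s) = tr (σ s') := hbc
      rw [htr s, htr s'] at e1
      have := h.inj ibj hF s.2.1 s'.2.1 s.2.2 e1
      rw [Subtype.ext this]
    | none, some s =>
      exfalso
      have e1 : tr σ1 = tr (σ s) := hbc
      rw [htr s] at e1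
      exact hcon s.1 s.2.1 s.2.2 e1.symm
    | some s, none =>
      exfalso
      have e1 : tr (σ s) = tr σ1 := hbc
      rw [htr s] at e1
      exact hcon s.1 s.2.1 s.2.2 e1) (fun b =>
    match b with
    | none => 1
    | some _ => 0)
  have ha1 : ev σ1 a = 1 := ha none
  have ha2 : ∀ s : S, ev (σ s) a = 0 := fun s => ha (some s)
  -- the element `ε a`
  have hcomm : ∀ {k : ℕ} (π : X →* Matrix (Fin k) (Fin k) F),
      ev π ε * ev π (ext0 K a) = ev π (ext0 K a) * ev π ε := by
    intro k π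
    have e1 : ev π (ext0 K a) = ∑ᶠ t : K, a t • π t := by
      unfold ev
      rw [sum_sub K]
      · apply finsum_congr
        intro t
        rw [ext0_apply]
      · intro x hx
        rw [ext0_supp K a x hx, zero_smul]
    have := Fintype.ofFinite K
    rw [e1, finsum_eq_sum_of_fintype, Matrix.mul_sum, Matrix.sum_mul]
    apply Finset.sum_congr rfl
    intro t _
    rw [Matrix.mul_smul, Matrix.smul_mul, h.ev_comm π t.2]
  have hzero : ∀ (k : ℕ) (π : X →* Matrix (Fin k) (Fin k) F), IsIrr π →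
      ev π (mulF ε (ext0 K a)) = 0 := by
    intro k π hπ
    by_cases h0 : actF ε (tr π) = 0
    · rw [← ev_zero_iff hπ] at h0
      rw [ev_mulF, h0, zero_mul]
    · let s : S := ⟨tr π, ⟨k, π, hπ, rfl⟩, h0⟩
      rw [ev_zero_iff hπ]
      have e1 : tr (ρ s) = tr π := hρtr s
      rw [← e1, ← ev_zero_iff (hρ s), ev_mulF, ← h.ev_idem (ρ s), Matrix.mul_assoc, hcomm,
        ← hUV s]
      have e2 : U s * V s * (ev (ρ s) (ext0 K a) * (U s * V s)) =
          U s * (V s * ev (ρ s) (ext0 K a) * U s) * V s := by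
        simp only [Matrix.mul_assoc]
      rw [e2, ← hev s, ha2 s, Matrix.mul_zero, Matrix.zero_mul]
  obtain ⟨k, hk⟩ := ibn ℓ F hF X _ hzero
  -- restrict to `K`
  obtain ⟨a', ha'⟩ : ∃ a' : K → F, a' = mulF (fun t : K => ε t) a := ⟨_, rfl⟩
  have e3 : mulF ε (ext0 K a) = ext0 K a' := by
    rw [ha', ext0_mulF, ext0_res K h.supp]
  have e4 : ∀ j : ℕ, (mulF (ext0 K a'))^[j] (ext0 K a') = ext0 K ((mulF a')^[j] a') := by
    intro j
    induction j with
    | zero => rfl
    | succ j ih =>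
      rw [Function.iterate_succ_apply', Function.iterate_succ_apply', ih, ext0_mulF]
  rw [e3, e4] at hk
  have e5 : (mulF a')^[k] a' = 0 := by
    funext t
    have := congrFun hk t
    rw [ext0_apply] at this
    exact this
  have e6 : ev σ1 ((mulF a')^[k] a') = 1 := by
    have e7 : ev σ1 a' = 1 := by rw [ha', ev_mulF, hone, ha1, mul_one]
    rw [ev_iterate, e7, one_pow, one_mul]
  rw [e5, ev_eq, ma_zero, map_zero] at e6
  have e8 := congrFun (congrFun e6 ⟨0, hσ1.1⟩) ⟨0, hσ1.1⟩
  rw [Matrix.one_apply_eq] at e8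
  exact zero_ne_one e8

/-- CORNER: the irreducible modular characters of `X` on which `ε` does not vanish correspond to
the irreducible modular characters of `K` on which `ε` acts as the identity. -/
theorem Cor.card (ibf : IbfStmt) (ibj : IbjStmt) (ibn : IbnStmt) (eig : EigStmt) {ℓ : ℕ}
    (hF : GoodF ℓ F) {K : Subgroup X} {ε : X → F} (h : Cor K ε) :
    {f : X → F | f ∈ IBr F X ∧ actF ε f ≠ 0}.ncard = lnum K ε := by
  unfold lnum
  apply Set.ncard_congr (fun f _ => fun t : K => actF ε f t)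
  · rintro f ⟨⟨n, ρ, hρ, rfl⟩, hf0⟩
    obtain ⟨r, U, V, σ, k1, k2, k3, k4, k5, k6⟩ := h.exists_rep hρ hf0
    refine ⟨⟨r, σ, k1, k6.symm⟩, ?_⟩
    rw [← k6]
    apply actF_one
    rw [k5, ext0_res K h.supp, ← k3]
    have e : V * (U * V) * U = (V * U) * (V * U) := by simp only [Matrix.mul_assoc]
    rw [e, k2, Matrix.mul_one]
  · rintro f g ⟨hf, hf0⟩ ⟨hg, _⟩ hfg
    exact h.inj ibj hF hf hg hf0 hfg
  · rintro g ⟨hg, hg1⟩
    obtain ⟨f, hf, hf0, hfg⟩ := h.surj ibf ibj ibn eig hF hg hg1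
    exact ⟨f, ⟨hf, hf0⟩, hfg⟩

end corner

end Pool.Agent.PP.H75
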