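import Pool.Agent.Helper94_PP.Bridge
import Pool.Agent.Helper94_PP.StmtsKR

/-!
# Squad PP: transport of `ℓ`-numbers and of the alternating sums along injective homomorphisms
-/

open scoped BigOperators

set_option linter.unusedSectionVars false

noncomputable section

namespace Pool.Agent.PP.H75

open Pool.Agent.Helper51_AWC Pool.Agent.Helper79_WRA Pool.Agent.PP

/-- The number of irreducible modular characters of `H` on which `a` acts as the identity. -/
def cnt {F H : Type} [Field F] [Group H] (a : H → F) : ℕ :=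
  {f : H → F | f ∈ IBr F H ∧ actF a f = f}.ncard

section iso

variable {F A B : Type} [Field F] [Group A] [Group B]

theorem isIrr_comp (φ : A ≃* B) {n : ℕ} {ρ : B →* Matrix (Fin n) (Fin n) F} (h : IsIrr ρ) :
    IsIrr (ρ.comp φ.toMonoidHom) := by
  refine ⟨h.1, ?_⟩
  rw [← h.2]
  congr 1
  ext M
  constructor
  · rintro ⟨x, rfl⟩
    exact ⟨φ x, rfl⟩
  · rintro ⟨y, rfl⟩
    refine ⟨φ.symm y, ?_⟩
    change ρ (φ (φ.symm y)) = ρ y
    rw [φ.apply_symm_apply]

theorem IBr_comp (φ : A ≃* B) {f : B → F} (hf : f ∈ IBr F B) :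
    (fun x => f (φ x)) ∈ IBr F A := by
  obtain ⟨n, ρ, hρ, rfl⟩ := hf
  exact ⟨n, ρ.comp φ.toMonoidHom, isIrr_comp φ hρ, rfl⟩

theorem actF_comp (φ : A ≃* B) (a f : B → F) :
    actF (fun x => a (φ x)) (fun x => f (φ x)) = fun x => actF a f (φ x) := by
  funext x
  unfold actF
  rw [← finsum_comp_equiv φ.toEquiv]
  apply finsum_congr
  intro t
  change _ = a (φ t) * f (φ t * φ x)
  rw [← map_mul]

theorem cnt_equiv (φ : A ≃* B) (a : B → F) : cnt (fun x => a (φ x)) = cnt a := by
  symm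
  unfold cnt
  apply Set.ncard_congr (fun f _ => fun x => f (φ x))
  · rintro f ⟨hf, hf2⟩
    refine ⟨IBr_comp φ hf, ?_⟩
    rw [actF_comp, hf2]
  · intro f g _ _ h
    funext y
    have := congrFun h (φ.symm y)
    simpa using this
  · rintro f ⟨hf, hf2⟩
    refine ⟨fun y => f (φ.symm y), ⟨IBr_comp φ.symm hf, ?_⟩, ?_⟩
    · have h1 := actF_comp φ.symm (fun x => a (φ x)) f
      simp only [φ.apply_symm_apply] at h1
      change actF a (fun x => f (φ.symm x)) = _
      rw [h1, hf2]
    · funext x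
      exact congrArg f (φ.symm_apply_apply x)

end iso

section transport

variable {F A G : Type} [Field F] [Group A] [Group G]

theorem lnum_eq (X : Subgroup G) (a : G → F) : lnum X a = cnt (fun t : X => a t) := rfl

/-- `ℓ`-numbers of images -/
theorem lnum_map (φ : A →* G) (hφ : Function.Injective φ) (X : Subgroup A) (a : G → F) :
    lnum (X.map φ) a = lnum X (fun x => a (φ x)) := by
  rw [lnum_eq, lnum_eq, ← cnt_equiv (X.equivMapOfInjective φ hφ)]
  rfl

theorem mem_psubIn' {ℓ : ℕ} [Finite G] {W D : Subgroup G} :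
    D ∈ psubIn ℓ W ↔ D ≤ W ∧ IsPGroup ℓ D := by
  simp [psubIn]

theorem conjS_map (φ : A →* G) (x : A) (D : Subgroup A) :
    conjS (φ x) (D.map φ) = (conjS x D).map φ := by
  rw [conjS, conjS, Subgroup.map_map, Subgroup.map_map]
  congr 1
  ext y
  simp

theorem isPGroup_map_iff {ℓ : ℕ} (φ : A →* G) (hφ : Function.Injective φ) (D : Subgroup A) :
    IsPGroup ℓ (D.map φ) ↔ IsPGroup ℓ D := by
  constructor
  · intro h
    exact h.of_equiv (D.equivMapOfInjective φ hφ).symm
  · intro h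
    exact h.map φ

/-- image of a chain -/
def mapC (φ : A →* G) (hφ : Function.Injective φ) (d : Finset (Subgroup A)) :
    Finset (Subgroup G) :=
  d.map ⟨Subgroup.map φ, Subgroup.map_injective hφ⟩

theorem mem_mapC {φ : A →* G} {hφ : Function.Injective φ} {d : Finset (Subgroup A)}
    {D : Subgroup G} : D ∈ mapC φ hφ d ↔ ∃ E ∈ d, E.map φ = D := by
  simp [mapC]

theorem stab_mapC (φ : A →* G) (hφ : Function.Injective φ) (d : Finset (Subgroup A)) :
    stab (mapC φ hφ d) ⊓ φ.range = (stab d).map φ := by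
  ext y
  rw [Subgroup.mem_inf, Subgroup.mem_map]
  constructor
  · rintro ⟨h1, x, rfl⟩
    refine ⟨x, ?_, rfl⟩
    rw [mem_stab] at h1 ⊢
    intro D hD
    have := h1 (D.map φ) (mem_mapC.2 ⟨D, hD, rfl⟩)
    rw [conjS_map] at this
    exact Subgroup.map_injective hφ this
  · rintro ⟨x, hx, rfl⟩
    refine ⟨?_, ⟨x, rfl⟩⟩
    rw [mem_stab] at hx ⊢
    intro D hD
    obtain ⟨E, hE, rfl⟩ := mem_mapC.1 hD
    rw [conjS_map, hx E hE]

/-- Chains in the image of `Q`. -/
theorem sum_mapC [Finite A] [Finite G] (ℓ : ℕ) (φ : A →* G) (hφ : Function.Injective φ)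
    (Q : Subgroup A) (f : Finset (Subgroup G) → ℤ) :
    ∑ d ∈ chainsOn (psubIn ℓ (Q.map φ)) ⊥, f d =
      ∑ d ∈ chainsOn (psubIn ℓ Q) ⊥, f (mapC φ hφ d) := by
  symm
  apply Finset.sum_bij (fun d _ => mapC φ hφ d)
  · intro d hd
    obtain ⟨h1, h2, h3⟩ := mem_chainsOn.1 hd
    rw [mem_chainsOn]
    refine ⟨?_, ?_, ?_⟩
    · intro D hD
      obtain ⟨E, hE, rfl⟩ := mem_mapC.1 hD
      have := mem_psubIn'.1 (h1 hE)
      exact mem_psubIn'.2 ⟨Subgroup.map_mono this.1, (isPGroup_map_iff φ hφ E).2 this.2⟩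
    · exact mem_mapC.2 ⟨⊥, h2, Subgroup.map_bot φ⟩
    · intro D hD E hE _
      obtain ⟨D', hD', rfl⟩ := mem_mapC.1 (Finset.mem_coe.1 hD)
      obtain ⟨E', hE', rfl⟩ := mem_mapC.1 (Finset.mem_coe.1 hE)
      rcases chain_total h3 hD' hE' with h | h
      · exact Or.inl (Subgroup.map_mono h)
      · exact Or.inr (Subgroup.map_mono h)
  · intro d _ e _ h
    exact Finset.map_injective _ h
  · intro d hd
    obtain ⟨h1, h2, h3⟩ := mem_chainsOn.1 hd
    have hle : ∀ D ∈ d, D ≤ φ.range := by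
      intro D hD
      refine (mem_psubIn'.1 (h1 hD)).1.trans ?_
      rintro _ ⟨x, _, rfl⟩
      exact ⟨x, rfl⟩
    have hmc : ∀ D ∈ d, (D.comap φ).map φ = D := by
      intro D hD
      rw [Subgroup.map_comap_eq, inf_eq_right]
      exact hle D hD
    classical
    refine ⟨d.image (Subgroup.comap φ), ?_, ?_⟩
    · rw [mem_chainsOn]
      refine ⟨?_, ?_, ?_⟩
      · intro D hD
        obtain ⟨E, hE, rfl⟩ := Finset.mem_image.1 hD
        have hE2 := mem_psubIn'.1 (h1 hE)
        rw [mem_psubIn']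
        constructor
        · rw [← Subgroup.map_le_map_iff_of_injective hφ, hmc E hE]
          exact hE2.1
        · rw [← isPGroup_map_iff φ hφ, hmc E hE]
          exact hE2.2
      · rw [Finset.mem_image]
        refine ⟨⊥, h2, ?_⟩
        rw [eq_bot_iff]
        intro x hx
        rw [Subgroup.mem_comap, Subgroup.mem_bot] at hx
        rw [Subgroup.mem_bot]
        exact hφ (hx.trans (map_one φ).symm)
      · intro D hD E hE _
        obtain ⟨D', hD', rfl⟩ := Finset.mem_image.1 (Finset.mem_coe.1 hD)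
        obtain ⟨E', hE', rfl⟩ := Finset.mem_image.1 (Finset.mem_coe.1 hE)
        rcases chain_total h3 hD' hE' with h | h
        · exact Or.inl (Subgroup.comap_mono h)
        · exact Or.inr (Subgroup.comap_mono h)
    · ext D
      rw [mem_mapC]
      constructor
      · rintro ⟨E, hE, rfl⟩
        obtain ⟨E', hE', rfl⟩ := Finset.mem_image.1 hE
        rw [hmc E' hE']
        exact hE'
      · intro hD
        exact ⟨D.comap φ, Finset.mem_image_of_mem _ hD, hmc D hD⟩
  · intro d _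
    rfl

theorem card_mapC (φ : A →* G) (hφ : Function.Injective φ) (d : Finset (Subgroup A)) :
    (mapC φ hφ d).card = d.card := Finset.card_map _

/-- TRANSPORT: the alternating sum of the group `A`, embedded in `G`. -/
theorem YY_transport [Finite A] [Finite G] (ℓ : ℕ) (φ : A →* G) (hφ : Function.Injective φ)
    (Q : Subgroup A) (a : G → F) :
    YY ℓ Q (fun x => a (φ x)) = ∑ d ∈ chainsOn (psubIn ℓ (Q.map φ)) ⊥, (-1) ^ (d.card + 1) *
      ((Nat.card (stab d ⊓ φ.range : Subgroup G) : ℤ) * (lnum (stab d ⊓ φ.range) a : ℤ)) := by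
  rw [sum_mapC ℓ φ hφ Q, YY]
  apply Finset.sum_congr rfl
  intro d _
  rw [card_mapC, stab_mapC, lnum_map φ hφ, Subgroup.card_map_of_injective hφ]

/-- TRANSPORT for a subgroup. -/
theorem YY_subgroup [Finite G] (ℓ : ℕ) (K Q : Subgroup G) (hQ : Q ≤ K) (a : G → F) :
    YY ℓ (Q.subgroupOf K) (fun x : K => a x) =
      ∑ d ∈ chainsOn (psubIn ℓ Q) ⊥, (-1) ^ (d.card + 1) *
        ((Nat.card (stab d ⊓ K : Subgroup G) : ℤ) * (lnum (stab d ⊓ K) a : ℤ)) := by
  have h := YY_transport ℓ K.subtype K.subtype_injective (Q.subgroupOf K) a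
  rw [Subgroup.map_subgroupOf_eq_of_le hQ, Subgroup.range_subtype] at h
  exact h

/-- TRANSPORT along an isomorphism. -/
theorem YY_equiv [Finite A] [Finite G] (ℓ : ℕ) (φ : A ≃* G) (Q : Subgroup A) (a : G → F) :
    YY ℓ Q (fun x => a (φ x)) = YY ℓ (Q.map φ.toMonoidHom) a := by
  have h := YY_transport ℓ φ.toMonoidHom φ.injective Q a
  have e : φ.toMonoidHom.range = ⊤ := MonoidHom.range_eq_top.2 φ.surjective
  rw [e] at h
  simp only [inf_top_eq] at h
  exact h

end transport

end Pool.Agent.PP.H75
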