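import Pool.Agent.Helper75_PP.Cliff

/-!
# Squad PP, Fong-Reynolds: the conjugates of a block idempotent of a normal subgroup
-/

open scoped BigOperators

set_option linter.unusedSectionVars false

noncomputable section

namespace Pool.Agent.PP.H75

open Pool.Agent.Helper51_AWC Pool.Agent.Helper79_WRA Pool.Agent.PP

section conj

variable {F G : Type} [Field F] [Group G] [Finite G]

/-- conjugation of functions: the coefficients of `g a g⁻¹` -/
def cj (g : G) (a : G → F) : G → F := fun x => a (g⁻¹ * x * g)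

theorem cj_one (a : G → F) : cj 1 a = a := by
  funext x
  rw [cj, inv_one, one_mul, mul_one]

theorem cj_cj (g h : G) (a : G → F) : cj g (cj h a) = cj (g * h) a := by
  funext x
  unfold cj
  congr 1
  group

theorem cj_inv_cj (g : G) (a : G → F) : cj g⁻¹ (cj g a) = a := by
  rw [cj_cj, inv_mul_cancel, cj_one]

theorem cj_cj_inv (g : G) (a : G → F) : cj g (cj g⁻¹ a) = a := by
  rw [cj_cj, mul_inv_cancel, cj_one]

theorem cj_mulF (g : G) (a b : G → F) : cj g (mulF a b) = mulF (cj g a) (cj g b) := by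
  funext x
  unfold cj mulF
  rw [← finsum_comp_equiv (MulAut.conj g).symm.toEquiv]
  apply finsum_congr
  intro t
  change a (g⁻¹ * t * g) * b ((g⁻¹ * t * g)⁻¹ * (g⁻¹ * x * g)) = _
  congr 2
  group

theorem cj_zero (g : G) : cj g (0 : G → F) = 0 := rfl

theorem cj_isCl (g : G) {a : G → F} (ha : IsCl a) : cj g a = a := by
  funext x
  have := ha x g⁻¹
  rw [inv_inv] at this
  exact this

theorem cj_eq_iff (g : G) (a : G → F) : cj g a = a ↔ ∀ x, a (g * x * g⁻¹) = a x := by
  constructor
  · intro h x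
    have := congrFun h (g * x * g⁻¹)
    rw [cj] at this
    rw [← this]
    congr 1
    group
  · intro h
    funext x
    have := h (g⁻¹ * x * g)
    rw [cj, ← this]
    congr 1
    group

/-- the stabiliser of a function -/
def st (a : G → F) : Subgroup G where
  carrier := {g | cj g a = a}
  one_mem' := cj_one a
  mul_mem' := by
    intro g h hg hh
    change cj (g * h) a = a
    rw [← cj_cj, show cj h a = a from hh, show cj g a = a from hg]
  inv_mem' := by
    intro g hg
    change cj g⁻¹ a = a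
    conv_lhs => rw [← show cj g a = a from hg]
    exact cj_inv_cj g a

theorem mem_st {a : G → F} {g : G} : g ∈ st a ↔ cj g a = a := Iff.rfl

theorem dl_move (t : G) (c : G → F) : mulF (dl F t) c = mulF (cj t c) (dl F t) := by
  funext x
  rw [mulF_dl_left, mulF_dl_right, cj]
  congr 1
  group

theorem ma_sum_dl [Fintype G] (a : G → F) : ma a = ∑ t, a t • ma (dl F t) := by
  rw [ma_eq_sum, finsum_eq_sum_of_fintype]
  apply Finset.sum_congr rfl
  intro t _
  rw [ma_dl, MonoidAlgebra.smul_single, smul_eq_mul, mul_one]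

theorem mulF_comm_of {K : Subgroup G} {a c : G → F} (ha : ∀ x, x ∉ K → a x = 0)
    (hc : ∀ k ∈ K, cj k c = c) : mulF a c = mulF c a := by
  have := Fintype.ofFinite G
  apply ma_injective
  rw [ma_mul, ma_mul, ma_sum_dl a, Finset.sum_mul, Finset.mul_sum]
  apply Finset.sum_congr rfl
  intro t _
  rw [smul_mul_assoc, mul_smul_comm]
  by_cases ht : t ∈ K
  · rw [← ma_mul, ← ma_mul, dl_move, hc t ht]
  · rw [ha t ht, zero_smul, zero_smul]

theorem mulF_comm_cl {e : G → F} (he : IsCl e) (c : G → F) : mulF e c = mulF c e := by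
  symm
  exact mulF_comm_of (K := ⊤) (fun x hx => absurd (Subgroup.mem_top x) hx)
    (fun k _ => cj_isCl k he)

theorem mulF_zero_right (a : G → F) : mulF a 0 = 0 := by
  apply ma_injective
  rw [ma_mul, ma_zero, mul_zero]

theorem mulF_zero_left (a : G → F) : mulF 0 a = 0 := by
  apply ma_injective
  rw [ma_mul, ma_zero, zero_mul]

/-- A block idempotent of the normal subgroup `N`, as a function on `G`. -/
structure Bd (N : Subgroup G) (b : G → F) : Prop where
  normal : N.Normal
  supp : ∀ x, x ∉ N → b x = 0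
  blk : IsBlk (fun t : N => b t)

theorem eq_of_res {N : Subgroup G} {a c : G → F} (ha : ∀ x, x ∉ N → a x = 0)
    (hc : ∀ x, x ∉ N → c x = 0) (h : (fun t : N => a t) = fun t : N => c t) : a = c := by
  funext x
  by_cases hx : x ∈ N
  · exact congrFun h ⟨x, hx⟩
  · rw [ha x hx, hc x hx]

variable {N : Subgroup G} {b : G → F}

theorem Bd.cj_supp (h : Bd N b) (g : G) : ∀ x, x ∉ N → cj g b x = 0 := by
  intro x hx
  apply h.supp
  intro h'
  apply hx
  have := h.normal.conj_mem _ h' g
  have e : g * (g⁻¹ * x * g) * g⁻¹ = x := by group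
  rwa [e] at this

theorem Bd.inv (h : Bd N b) {n : G} (hn : n ∈ N) : cj n b = b := by
  apply eq_of_res (h.cj_supp n) h.supp
  funext t
  have := h.blk.1.1 t ⟨n⁻¹, N.inv_mem hn⟩
  change b (n⁻¹ * t * n⁻¹⁻¹) = b t at this
  rw [inv_inv] at this
  exact this

theorem Bd.idem (h : Bd N b) : mulF b b = b := by
  apply eq_of_res (mulF_supp N h.supp h.supp) h.supp
  rw [mulF_res N b h.supp]
  exact h.blk.1.2

theorem Bd.ne (h : Bd N b) : b ≠ 0 := by
  intro h0
  apply h.blk.2.1
  rw [h0]
  rfl

theorem Bd.le (h : Bd N b) : N ≤ st b := fun _ hn => h.inv hn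

theorem Bd.cj_inv (h : Bd N b) (g : G) {n : G} (hn : n ∈ N) : cj n (cj g b) = cj g b := by
  have h1 : g⁻¹ * n * g ∈ N := by
    have := h.normal.conj_mem n hn g⁻¹
    rwa [inv_inv] at this
  have h2 := h.inv h1
  rw [cj_cj]
  conv_rhs => rw [← h2, cj_cj]
  congr 1
  group

theorem Bd.comm (h : Bd N b) (g g' : G) : mulF (cj g b) (cj g' b) = mulF (cj g' b) (cj g b) :=
  mulF_comm_of (h.cj_supp g) (fun _ hk => h.cj_inv g' hk)

theorem Bd.dich (h : Bd N b) (g : G) : mulF b (cj g b) = b ∨ mulF b (cj g b) = 0 := by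
  have h1 : IsIdem (fun t : N => cj g b t) := by
    constructor
    · intro x y
      have := congrFun (h.cj_inv g (N.inv_mem y.2)) x
      change cj g b (((y : G)⁻¹)⁻¹ * x * (y : G)⁻¹) = cj g b x at this
      rw [inv_inv] at this
      exact this
    · rw [← mulF_res N (cj g b) (h.cj_supp g), ← cj_mulF, h.idem]
  rcases h.blk.2.2 _ h1 with h2 | h2
  · left
    apply eq_of_res (mulF_supp N h.supp (h.cj_supp g)) h.supp
    rw [mulF_res N _ h.supp]
    exact h2
  · right
    apply eq_of_res (mulF_supp N h.supp (h.cj_supp g)) (fun _ _ => rfl)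
    rw [mulF_res N _ h.supp]
    exact h2

theorem Bd.orth (h : Bd N b) {g : G} (hg : cj g b ≠ b) : mulF b (cj g b) = 0 := by
  rcases h.dich g with h1 | h1
  · exfalso
    have hc := h.comm 1 g
    rw [cj_one] at hc
    rcases h.dich g⁻¹ with h2 | h2
    · have h3 := congrArg (cj g) h2
      rw [cj_mulF, cj_cj_inv] at h3
      apply hg
      rw [← h3, ← hc, h1]
    · have h3 := congrArg (cj g) h2
      rw [cj_mulF, cj_cj_inv, cj_zero] at h3
      apply h.ne
      rw [← h1, hc, h3]
  · exact h1

/-- the set of the conjugates of `b` -/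
def Om (b : G → F) : Type := {f : G → F // ∃ g, f = cj g b}

/-- the conjugate `g b g⁻¹` -/
def omk (b : G → F) (g : G) : Om b := ⟨cj g b, g, rfl⟩

theorem omk_surj (f : Om b) : ∃ g, f = omk b g := by
  obtain ⟨f, g, rfl⟩ := f
  exact ⟨g, rfl⟩

theorem omk_one : (omk b 1).1 = b := cj_one b

instance : Finite (Om b) := by
  apply Finite.of_surjective (omk b)
  intro f
  obtain ⟨g, rfl⟩ := omk_surj f
  exact ⟨g, rfl⟩

instance : MulAction G (Om b) where
  smul x f := ⟨cj x f.1, by
    obtain ⟨f, g, rfl⟩ := f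
    exact ⟨x * g, cj_cj x g b⟩⟩
  one_smul f := Subtype.ext (cj_one f.1)
  mul_smul x y f := Subtype.ext (cj_cj x y f.1).symm

theorem om_smul (x : G) (f : Om b) : (x • f).1 = cj x f.1 := rfl

theorem om_stab (f : Om b) : MulAction.stabilizer G f = st f.1 := by
  ext x
  rw [MulAction.mem_stabilizer_iff, mem_st, ← om_smul]
  exact ⟨fun h => congrArg Subtype.val h, fun h => Subtype.ext h⟩

theorem Bd.orth2 (h : Bd N b) {f f' : Om b} (hne : f ≠ f') : mulF f.1 f'.1 = 0 := by
  obtain ⟨f, g, rfl⟩ := f
  obtain ⟨f', g', rfl⟩ := f'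
  change mulF (cj g b) (cj g' b) = 0
  have e : cj g' b = cj g (cj (g⁻¹ * g') b) := by
    rw [cj_cj]
    congr 1
    group
  rw [e, ← cj_mulF, h.orth, cj_zero]
  intro h'
  apply hne
  apply Subtype.ext
  change cj g b = cj g' b
  rw [e, h']

theorem Bd.idem2 (h : Bd N b) (f : Om b) : mulF f.1 f.1 = f.1 := by
  obtain ⟨f, g, rfl⟩ := f
  change mulF (cj g b) (cj g b) = cj g b
  rw [← cj_mulF, h.idem]

theorem Bd.supp2 (h : Bd N b) (f : Om b) : ∀ x, x ∉ N → f.1 x = 0 := by
  obtain ⟨f, g, rfl⟩ := f
  exact h.cj_supp g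

theorem Bd.le2 (h : Bd N b) (f : Om b) : N ≤ st f.1 := by
  obtain ⟨f, g, rfl⟩ := f
  exact fun n hn => h.cj_inv g hn

/-- the conjugates of `b` form a permuted family -/
theorem Bd.fam [Fintype (Om b)] (h : Bd N b) : Fam (fun f : Om b => f.1) := by
  refine ⟨?_, h.idem2, fun f f' hne => h.orth2 hne, ?_⟩
  · intro x f y
    rw [om_smul, cj]
    group
  · intro f x hx
    apply h.supp2 f
    intro h'
    apply hx
    rw [om_stab]
    exact h.le2 f h'

variable {e : G → F}

theorem smul_mul_idem {e : G → F} (he : IsIdem e) (f f' : G → F) :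
    mulF (mulF e f) (mulF e f') = mulF e (mulF f f') := by
  rw [mulF_comm_cl he.1 f, mulF_assoc, ← mulF_assoc e e, he.2, mulF_comm_cl he.1 f',
    ← mulF_assoc, mulF_comm_cl he.1]

/-- the idempotents `e f` form a permuted family -/
theorem Bd.fam2 [Fintype (Om b)] (h : Bd N b) (he : IsIdem e) :
    Fam (fun f : Om b => mulF e f.1) := by
  have hcj : ∀ (g : G) (f : G → F), cj g (mulF e f) = mulF e (cj g f) := by
    intro g f
    rw [cj_mulF, cj_isCl g he.1]
  refine ⟨?_, ?_, ?_, ?_⟩
  · intro x f y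
    change mulF e (cj x f.1) _ = _
    rw [← hcj, cj]
    congr 1
    group
  · intro f
    rw [smul_mul_idem he, h.idem2]
  · intro f f' hne
    rw [smul_mul_idem he, h.orth2 hne, mulF_zero_right]
  · have key : ∀ x, x ∉ st b → mulF e b x = 0 := by
      intro x hx
      have := Fintype.ofFinite G
      classical
      have e1 : mulF e b = ∑ y : G, e y • (if y ∈ st b then mulF b (dl F y) else 0) := by
        apply ma_injective
        have e2 : ma (mulF e b) = ma b * ma e * ma b := by
          rw [← ma_mul, ← ma_mul, ← mulF_comm_cl he.1, mulF_assoc, h.idem]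
        rw [e2, ma_sum_dl e, Finset.mul_sum, Finset.sum_mul, ma_sum]
        apply Finset.sum_congr rfl
        intro y _
        rw [mul_smul_comm, smul_mul_assoc, ma_smul, ← ma_mul, ← ma_mul, mulF_assoc, dl_move,
          ← mulF_assoc]
        congr 2
        by_cases hy : y ∈ st b
        · rw [if_pos hy, mem_st.1 hy, h.idem]
        · rw [if_neg hy, h.orth hy, mulF_zero_left]
      rw [e1, Finset.sum_apply]
      apply Finset.sum_eq_zero
      intro y _
      by_cases hy : y ∈ st b
      · rw [if_pos hy, Pi.smul_apply, mulF_dl_right, h.supp, smul_zero]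
        intro h'
        apply hx
        have := (st b).mul_mem (h.le h') hy
        rwa [inv_mul_cancel_right] at this
      · rw [if_neg hy, Pi.smul_apply]
        exact smul_zero _
    intro f x hx
    obtain ⟨g, rfl⟩ := omk_surj f
    change mulF e (cj g b) x = 0
    rw [← hcj]
    apply key
    intro h'
    apply hx
    rw [om_stab]
    change cj x (cj g b) = cj g b
    have h2 : cj (g⁻¹ * x * g) b = b := h'
    rw [cj_cj]
    conv_rhs => rw [← h2, cj_cj]
    congr 1
    group

theorem Bd.sum_eq [Fintype (Om b)] (h : Bd N b) (he : IsBlk e) (hne : mulF e b ≠ 0) :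
    (fun x => ∑ f : Om b, mulF e f.1 x) = e := by
  have h1 : (fun x => ∑ f : Om b, mulF e f.1 x) = mulF e (fun x => ∑ f : Om b, f.1 x) := by
    apply ma_injective
    rw [ma_mul, ma_finsum, ma_finsum, Finset.mul_sum]
    apply Finset.sum_congr rfl
    intro f _
    rw [ma_mul]
  rw [h1]
  rcases he.2.2 _ h.fam.isIdem with h2 | h2
  · exact h2
  · exfalso
    apply hne
    have h3 : mulF (fun x => ∑ f : Om b, f.1 x) b = b := by
      have := h.fam.mul_sum Finset.univ (Finset.mem_univ (omk b 1))
      rw [omk_one] at this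
      exact this
    rw [← h3, ← mulF_assoc, h2, mulF_zero_left]

theorem index_st [Fintype (Om b)] : (st b).index = Fintype.card (Om b) := by
  have h1 : st b = MulAction.stabilizer G (omk b 1) := by
    rw [om_stab, omk_one]
  rw [h1, MulAction.index_stabilizer, ← Nat.card_eq_fintype_card, ← Set.ncard_univ]
  congr 1
  ext f
  constructor
  · intro _
    trivial
  · intro _
    obtain ⟨g, rfl⟩ := omk_surj f
    refine ⟨g, ?_⟩
    apply Subtype.ext
    change cj g (cj 1 b) = cj g b
    rw [cj_one]

end conj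

end Pool.Agent.PP.H75
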