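import Pool.Agent.Helper18_PP.StmtsC
import Pool.Agent.Helper26_PP.Lz

/-!
# Module CON: the inner sum of the pair sum is invariant under conjugation
-/

open scoped BigOperators

set_option linter.unusedSectionVars false

noncomputable section

namespace Pool.Agent.PP.H75

open Pool.Agent.PP Pool.Agent.PP.H74 Pool.Agent.Helper51_AWC Pool.Agent.Helper79_WRA
  Pool.Agent.Helper26_PP

section con

variable {ℓ : ℕ} {F Y : Type} [Field F] [Group Y] [Finite Y]

theorem con_ker (h : Y) : Nat.card ((MulAut.conj h).toMonoidHom : Y →* Y).ker = 1 := by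
  have : ((MulAut.conj h).toMonoidHom : Y →* Y).ker = ⊥ :=
    (MonoidHom.ker_eq_bot_iff _).2 (MulAut.conj h).injective
  rw [this, Subgroup.card_bot]

theorem con_map_inv (h : Y) (D : Subgroup Y) :
    (D.map (MulAut.conj h⁻¹).toMonoidHom).map (MulAut.conj h).toMonoidHom = D := by
  rw [Subgroup.map_map]
  have h1 : ((MulAut.conj h).toMonoidHom).comp (MulAut.conj h⁻¹).toMonoidHom = MonoidHom.id Y := by
    ext y
    simp [mul_assoc]
  rw [h1, Subgroup.map_id]

theorem con_map_inv' (h : Y) (D : Subgroup Y) :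
    (D.map (MulAut.conj h).toMonoidHom).map (MulAut.conj h⁻¹).toMonoidHom = D := by
  have h1 := con_map_inv h⁻¹ D
  rwa [inv_inv] at h1

theorem con_cov (h : Y) : IsCov ℓ F ((MulAut.conj h).toMonoidHom : Y →* Y) :=
  { surj := (MulAut.conj h).surjective
    ne := by rw [con_ker]; simp
    le := by
      intro D D' _ _ h1 x hx
      obtain ⟨y, hy, hxy⟩ := h1 ⟨x, hx, rfl⟩
      have : y = x := (MulAut.conj h).injective hxy
      rw [← this]; exact hy
    lift := by
      intro R hR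
      exact ⟨R.map (MulAut.conj h⁻¹).toMonoidHom, hR.map _, con_map_inv h R⟩ }

theorem con_infl (h : Y) (f : Y → F) :
    infl ((MulAut.conj h).toMonoidHom : Y →* Y) f = fun y => f (h * y * h⁻¹) := by
  funext y
  unfold infl
  rw [con_ker, Nat.cast_one, inv_one, one_mul]
  rfl

theorem con_lf (α : MulAut Y) (h n : Y) :
    Lf ((MulAut.conj h).toMonoidHom : Y →* Y) (tw α n) (tw α (α⁻¹ h * n * h⁻¹)) := by
  intro y
  unfold tw
  change h * (α * MulAut.conj n) y * h⁻¹ = (α * MulAut.conj (α⁻¹ h * n * h⁻¹)) (h * y * h⁻¹)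
  rw [MulAut.mul_apply, MulAut.mul_apply, MulAut.conj_apply, MulAut.conj_apply]
  have h1 : α⁻¹ h * n * h⁻¹ * (h * y * h⁻¹) * (α⁻¹ h * n * h⁻¹)⁻¹ =
      α⁻¹ h * (n * y * n⁻¹) * (α⁻¹ h)⁻¹ := by group
  have h2 : α (α⁻¹ h) = h := MulAut.apply_inv_self _ α h
  rw [h1, map_mul α _ (α⁻¹ h)⁻¹, map_mul α (α⁻¹ h), map_inv, h2]

theorem con_cc (α β : MulAut Y) (h n m : Y) :
    cc α β (α⁻¹ h * n * h⁻¹) (β⁻¹ h * m * h⁻¹) = (kap α β)⁻¹ h * cc α β n m * h⁻¹ := by
  unfold cc
  have hk : ∀ y : Y, (kap α β)⁻¹ (α (β (α⁻¹ y))) = β y := by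
    intro y
    have h1 : kap α β (β y) = α (β (α⁻¹ y)) := by
      unfold kap
      rw [MulAut.mul_apply, MulAut.mul_apply, MulAut.mul_apply, MulAut.inv_apply_self]
    rw [← h1, MulAut.inv_apply_self]
  have h1 : α⁻¹ h * n * h⁻¹ * β (β⁻¹ h * m * h⁻¹) * (β (α⁻¹ h * n * h⁻¹))⁻¹ =
      α⁻¹ h * (n * β m * (β n)⁻¹) * (β (α⁻¹ h))⁻¹ := by
    simp only [map_mul, map_inv, MulAut.apply_inv_self]
    group
  have h2 : α (α⁻¹ h * (n * β m * (β n)⁻¹) * (β (α⁻¹ h))⁻¹) =
      h * α (n * β m * (β n)⁻¹) * (α (β (α⁻¹ h)))⁻¹ := by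
    rw [map_mul, map_mul, map_inv, MulAut.apply_inv_self]
  have h3 : β (β⁻¹ h * m * h⁻¹) = h * β m * (β h)⁻¹ := by
    rw [map_mul, map_mul, map_inv, MulAut.apply_inv_self]
  rw [h1, h2, h3, map_mul, map_mul, map_inv, hk]
  group

open Classical in
theorem con_mem (c : Subgroup Y → Subgroup Y) (hc : ∀ (n : Y) (D : Subgroup Y),
    c (D.map (MulAut.conj n).toMonoidHom) = (c D).map (MulAut.conj n).toMonoidHom)
    (α β : MulAut Y) (h n m : Y) (d : Finset (Subgroup Y))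
    (hd : d ∈ (chainsOn (psubIn ℓ (⊤ : Subgroup Y)) ⊥).filter
      (fun d => NormalChain d ∧ (FixC (tw α n) d ∧ FixC (tw β m) d) ∧ ∀ D ∈ d, c D = D)) :
    d.image (Subgroup.map (MulAut.conj h).toMonoidHom) ∈
      (chainsOn (psubIn ℓ (⊤ : Subgroup Y)) ⊥).filter
      (fun d => NormalChain d ∧ (FixC (tw α (α⁻¹ h * n * h⁻¹)) d ∧
        FixC (tw β (β⁻¹ h * m * h⁻¹)) d) ∧ ∀ D ∈ d, c D = D) := by
  rw [Finset.mem_filter] at hd ⊢
  obtain ⟨hd, h1, ⟨h2, h3⟩, h4⟩ := hd
  have hp : ∀ D ∈ d, IsPGroup ℓ D := by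
    intro D hD
    exact (mem_psubIn.1 ((mem_chainsOn.1 hd).1 hD)).2
  have hcov : IsCov ℓ ℚ ((MulAut.conj h).toMonoidHom : Y →* Y) := con_cov h
  refine ⟨?_, (cov_normal hcov hp).1 h1, ⟨(cov_fix hcov hp (con_lf α h n)).1 h2,
    (cov_fix hcov hp (con_lf β h m)).1 h3⟩, ?_⟩
  · rw [mem_chainsOn]
    refine ⟨?_, ?_, ?_⟩
    · intro D' hD'
      obtain ⟨D, hD, rfl⟩ := Finset.mem_image.1 hD'
      exact mem_psubIn.2 ⟨le_top, (hp D hD).map _⟩
    · rw [Finset.mem_image]
      exact ⟨⊥, (mem_chainsOn.1 hd).2.1, Subgroup.map_bot _⟩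
    · intro D1 hD1 D2 hD2 _
      obtain ⟨A, hA, rfl⟩ := Finset.mem_image.1 hD1
      obtain ⟨B, hB, rfl⟩ := Finset.mem_image.1 hD2
      rcases chain_total (mem_chainsOn.1 hd).2.2 hA hB with h | h
      · left; exact Subgroup.map_mono h
      · right; exact Subgroup.map_mono h
  · intro D' hD'
    obtain ⟨D, hD, rfl⟩ := Finset.mem_image.1 hD'
    rw [hc, h4 D hD]

theorem con_image (h : Y) [DecidableEq (Subgroup Y)] (d : Finset (Subgroup Y)) :
    (d.image (Subgroup.map (MulAut.conj h).toMonoidHom)).image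
      (Subgroup.map (MulAut.conj h⁻¹).toMonoidHom) = d := by
  rw [Finset.image_image]
  have : (Subgroup.map (MulAut.conj h⁻¹).toMonoidHom) ∘ (Subgroup.map (MulAut.conj h).toMonoidHom) =
      (id : Subgroup Y → Subgroup Y) := by
    funext D
    exact con_map_inv' h D
  rw [this, Finset.image_id]

end con

theorem con : ConStmt := by
  intro ℓ F _ hF Y _ _ c hc f α β w wi hT τ h n m
  classical
  symm
  unfold GG
  have hback : ∀ (δ : MulAut Y) (k : Y), δ⁻¹ h⁻¹ * (δ⁻¹ h * k * h⁻¹) * h⁻¹⁻¹ = k := by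
    intro δ k
    rw [map_inv]
    group
  refine Finset.sum_bij' (fun d _ => d.image (Subgroup.map (MulAut.conj h).toMonoidHom))
    (fun d _ => d.image (Subgroup.map (MulAut.conj h⁻¹).toMonoidHom)) ?_ ?_ ?_ ?_ ?_
  · intro d hd
    exact con_mem c hc α β h n m d hd
  · intro d hd
    have h1 := con_mem c hc α β h⁻¹ _ _ d hd
    rw [hback, hback] at h1
    exact h1
  · intro d _
    exact con_image h d
  · intro d _
    have h1 := con_image h⁻¹ d
    rwa [inv_inv] at h1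
  · intro d hd
    rw [Finset.mem_filter] at hd
    have hp : ∀ D ∈ d, IsPGroup ℓ D := by
      intro D hD
      exact (mem_psubIn.1 ((mem_chainsOn.1 hd.1).1 hD)).2
    have hcov : IsCov ℓ F ((MulAut.conj h).toMonoidHom : Y →* Y) := con_cov h
    have hcard : (d.image (Subgroup.map (MulAut.conj h).toMonoidHom)).card = d.card := by
      apply Finset.card_image_of_injOn
      intro A hA B hB hAB
      exact cov_inj hcov (hp A hA) (hp B hB) hAB
    have hf : infl ((MulAut.conj h).toMonoidHom : Y →* Y) f = f := by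
      rw [con_infl]
      funext y
      exact hT.blk.1.1 y h
    have hw : infl ((MulAut.conj h).toMonoidHom : Y →* Y)
        (fun y => w (cc α β (α⁻¹ h * n * h⁻¹) (β⁻¹ h * m * h⁻¹) * y)) =
        fun y => w (cc α β n m * y) := by
      rw [con_infl]
      funext y
      rw [con_cc]
      have h1 : (kap α β)⁻¹ h * cc α β n m * h⁻¹ * (h * y * h⁻¹) =
          (kap α β)⁻¹ h * (cc α β n m * y) * h⁻¹ := by group
      rw [h1, hT.unt.comm]
    have h2 := tcon_eq hcov τ f (fun y => w (cc α β (α⁻¹ h * n * h⁻¹) (β⁻¹ h * m * h⁻¹) * y))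
      (con_lf α h n) (con_lf β h m) hp
    rw [hf, hw, con_ker, Nat.cast_one, inv_one, one_mul] at h2
    rw [hcard, h2]

end Pool.Agent.PP.H75
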