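import Pool.Agent.Helper75_PP.Fin0
import Pool.Agent.Helper46_PP.StmtsTop
import Pool.Agent.Helper46_PP.Alg

/-!
# Squad PP, module FIN: the final theorem in terms of ordinary characters
-/

open scoped BigOperators

set_option linter.unusedSectionVars false

noncomputable section

namespace Pool.Agent.PP

open Pool.Agent.Helper51_AWC Pool.Agent.Helper79_WRA

/-- The conjecture holds at `ℓ` for the blocks of positive defect, faithful on the centre, of all
finite groups `D` with `O_ℓ(D) = 1` such that `D / Z(D)` is almost simple with socle of order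
divisible by `ℓ`, the outer part is a nilpotent group of order prime to `ℓ`, and `D / Z(D)` is
involved in `G`. -/
def GoodC (ℓ : ℕ) (M : Ideal (integralClosure ℤ ℂ)) (G : Type) [Group G] : Prop :=
  ∀ (S : Type) [Group S] [Finite S], NonabSimple S → ℓ ∣ Nat.card S →
    ∀ (D : Type) [Group D] [Finite D], opCore ℓ D = ⊥ → NearlySimpleL ℓ D S →
      Involves G (D ⧸ Subgroup.center D) →
      ∀ χ ∈ Irr D, (∀ z ∈ Subgroup.center D, χ z = χ 1 → z = 1) → LargeDefect ℓ M χ →
        altSum ℓ M χ = 0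

/-- FIN: the final theorem. -/
def FinStmt : Prop := ∀ (ℓ : ℕ), ℓ.Prime → ∀ (M : Ideal (integralClosure ℤ ℂ)) [M.IsMaximal],
  (ℓ : integralClosure ℤ ℂ) ∈ M → ∀ (G : Type) [Group G] [Finite G],
  opCore ℓ G ≤ Subgroup.center G → GoodC ℓ M G → ∀ χ ∈ Irr G, LargeDefect ℓ M χ →
    altSum ℓ M χ = 0

namespace H75

/-- FIN -/
theorem fin (main : MainStmt) (add : AddStmt) (nls : NlsStmt) (brm : BrmStmt) (smt : SmtStmt)
    (nch : NchStmt) (dic : DicStmt) (bid : BidStmt) (chp : ChpStmt) (ldp : LdpStmt)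
    (fld : FldStmt) : FinStmt := by
  intro ℓ hℓ M _ hM G _ _ hc hgood χ hχ hL
  let _ := Ideal.Quotient.field M
  have hfact := Fact.mk hℓ
  have hF : GoodF ℓ (FF M) := fld ℓ hℓ M hM
  obtain ⟨B, _, _, p, e, hp, he, hpos, heq⟩ :=
    central_case nls brm smt nch dic bid fld hℓ hM hc hχ hL
  have hgoodP : GoodP ℓ (FF M) (⊤ : Subgroup B) := by
    intro S _ _ hS hlS _ D _ _ hO hD hinv e' he' hcl hpos'
    apply add ℓ (FF M) hF D ⊤ inferInstance e' he'
    intro f hf hef
    have hfe : mulF f e' = f := by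
      rw [mulF_comm_cl hf.1.1]
      exact hef
    have hposf : Pos ℓ f ⊤ := H46.pos_mono hf.1 hfe hpos'
    obtain ⟨ψ, hψ, h1, h2, h3⟩ := block_case nls brm smt nch dic bid chp ldp fld hℓ hM hO hf hposf
    rw [← h3, hgood S hS hlS D hO hD (hinv.of_surjective p hp) ψ hψ
      (faithful_char hf hef hcl hψ h1) h2, mul_zero]
  have h0 : YY ℓ (⊤ : Subgroup B) e = 0 :=
    main ℓ (FF M) hF B ⊤ inferInstance hgoodP e he hpos
  rw [h0, mul_zero] at heq
  rcases mul_eq_zero.1 heq with h | h
  · exact absurd h (by exact_mod_cast (Nat.card_pos (α := G)).ne')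
  · exact h

end H75

end Pool.Agent.PP
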