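import Pool.Agent.Helper75_PP.PosT
import Pool.Agent.Helper94_PP.Nch
import Pool.Agent.Helper46_PP.StmtsTop

/-!
# Squad PP, module FR: the theorem of Fong and Reynolds
-/

open scoped BigOperators

set_option linter.unusedSectionVars false

noncomputable section

namespace Pool.Agent.PP.H75

open Pool.Agent.Helper51_AWC Pool.Agent.Helper79_WRA Pool.Agent.PP

section fr

variable {F G : Type} [Field F] [Group G] [Finite G] {N : Subgroup G} {b e : G → F}

theorem normal_chain_props {ℓ : ℕ} {R : Subgroup G} {d : Finset (Subgroup G)}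
    (hd : d ∈ chainsOn (psubIn ℓ R) ⊥) (hn : NormalChain d) :
    top d ≤ R ∧ IsPGroup ℓ (top d) ∧ top d ≤ stab d ∧
      Subgroup.centralizer (top d : Set G) ≤ stab d ∧
      stab d ≤ Subgroup.normalizer (top d : Set G) := by
  obtain ⟨h1, h2, h3⟩ := mem_chainsOn.1 hd
  obtain ⟨ht, hmax⟩ := H94.top_mem h3 ⟨_, h2⟩
  have hp := mem_psubIn'.1 (h1 ht)
  refine ⟨hp.1, hp.2, ?_, ?_, ?_⟩
  · intro x hx
    rw [H94.mem_stab']
    intro D hD
    exact hn D hD hx
  · intro x hx
    rw [H94.mem_stab']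
    intro D hD
    rw [Subgroup.mem_normalizer_iff]
    rw [Subgroup.mem_centralizer_iff] at hx
    intro y
    constructor
    · intro hy
      have h4 := hx y (hmax D hD hy)
      rw [← h4, mul_inv_cancel_right]
      exact hy
    · intro hy
      have h4 := hx _ (hmax D hD hy)
      have h5 : x * y * x⁻¹ = y := by
        have h6 : x * y = x * (x * y * x⁻¹) := by rw [← h4]; group
        exact (mul_left_cancel h6).symm
      rwa [h5] at hy
  · intro x hx
    rw [H94.mem_stab'] at hx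
    exact hx _ ht

/-- the sum for a conjugate of `b` -/
theorem conj_sum {ℓ : ℕ} (he : IsIdem e) {R : Subgroup G} (hR : R.Normal) (g : G) :
    YY ℓ (R.subgroupOf (st b)) (fun t : st b => mulF e b t) =
      ∑ d ∈ chainsOn (psubIn ℓ (R ⊓ st (cj g b))) ⊥, (-1) ^ (d.card + 1) *
        ((Nat.card (stab d ⊓ st (cj g b) : Subgroup G) : ℤ) *
          (lnum (stab d ⊓ st (cj g b)) (mulF e (cj g b)) : ℤ)) := by
  set φ : st b →* G := (MulAut.conj g).toMonoidHom.comp (st b).subtype with hφ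
  have hinj : Function.Injective φ :=
    (MulAut.conj g).injective.comp (st b).subtype_injective
  have hφa : ∀ t : st b, φ t = g * t * g⁻¹ := fun t => rfl
  have h1 := YY_transport ℓ φ hinj (R.subgroupOf (st b)) (mulF e (cj g b))
  have h2 : (fun t : st b => mulF e (cj g b) (φ t)) = fun t : st b => mulF e b t := by
    funext t
    have e1 : mulF e (cj g b) = cj g (mulF e b) := by rw [cj_mulF, cj_isCl g he.1]
    rw [e1, hφa, cj]
    congr 1
    group
  have hmem : ∀ y : G, y ∈ st (cj g b) ↔ g⁻¹ * y * g ∈ st b := by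
    intro y
    rw [mem_st, mem_st]
    constructor
    · intro h
      have h' := congrArg (cj g⁻¹) h
      rw [cj_inv_cj, cj_cj, cj_cj] at h'
      exact h'
    · intro h
      have h' := congrArg (cj g) h
      rw [cj_cj] at h'
      rw [cj_cj, ← h']
      congr 1
      group
  have h3 : φ.range = st (cj g b) := by
    ext y
    rw [MonoidHom.mem_range, hmem]
    constructor
    · rintro ⟨t, rfl⟩
      rw [hφa]
      have e1 : g⁻¹ * (g * (t : G) * g⁻¹) * g = t := by group
      rw [e1]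
      exact t.2
    · intro hy
      refine ⟨⟨_, hy⟩, ?_⟩
      rw [hφa]
      change g * (g⁻¹ * y * g) * g⁻¹ = y
      group
  have h4 : (R.subgroupOf (st b)).map φ = R ⊓ st (cj g b) := by
    ext y
    rw [Subgroup.mem_map, Subgroup.mem_inf, hmem]
    constructor
    · rintro ⟨t, ht, rfl⟩
      rw [hφa]
      refine ⟨hR.conj_mem _ ht g, ?_⟩
      have e1 : g⁻¹ * (g * (t : G) * g⁻¹) * g = t := by group
      rw [e1]
      exact t.2
    · rintro ⟨hy1, hy2⟩
      refine ⟨⟨_, hy2⟩, ?_, ?_⟩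
      · change g⁻¹ * y * g ∈ R
        have := hR.conj_mem _ hy1 g⁻¹
        rwa [inv_inv] at this
      · rw [hφa]
        change g * (g⁻¹ * y * g) * g⁻¹ = y
        group
  rw [h2, h3, h4] at h1
  exact h1

/-- the alternating sums -/
theorem Bd.yy (nch : NchStmt) (orb : OrbStmt) (nls : NlsStmt) (ibf : IbfStmt) (ibj : IbjStmt)
    (ibn : IbnStmt) (eig : EigStmt) {ℓ : ℕ} [Fact ℓ.Prime] (hF : GoodF ℓ F) (h : Bd N b)
    (he : IsBlk e) (hne : mulF e b ≠ 0) {R : Subgroup G} (hR : R.Normal) :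
    YY ℓ R e = ((st b).index : ℤ) * YY ℓ (R.subgroupOf (st b)) (fun t : st b => mulF e b t) := by
  classical
  have := Fintype.ofFinite (Om b)
  rw [YY, nch ℓ G R (fun S _ => (Nat.card S : ℤ) * (lnum S e : ℤ))]
  have h1 : ∀ d ∈ (chainsOn (psubIn ℓ R) ⊥).filter NormalChain,
      (-1) ^ (d.card + 1) * ((Nat.card (stab d) : ℤ) * (lnum (stab d) e : ℤ)) =
        ∑ f : Om b, if top d ≤ st f.1 then (-1) ^ (d.card + 1) *
          ((Nat.card (stab d ⊓ st f.1 : Subgroup G) : ℤ) *
            (lnum (stab d ⊓ st f.1) (mulF e f.1) : ℤ)) else 0 := by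
    intro d hd
    obtain ⟨hd1, hd2⟩ := Finset.mem_filter.1 hd
    obtain ⟨_, k2, k3, k4, k5⟩ := normal_chain_props hd1 hd2
    have h2 := local_eq orb nls ibf ibj ibn eig hF h he hne k2 k3 k4 k5
    rw [← Nat.cast_mul, h2, Nat.cast_sum, Finset.mul_sum]
    apply Finset.sum_congr rfl
    intro f _
    split_ifs
    · rw [Nat.cast_mul]
    · rw [Nat.cast_zero, mul_zero]
  rw [Finset.sum_congr rfl h1, Finset.sum_comm]
  have h2 : ∀ f : Om b, (∑ d ∈ (chainsOn (psubIn ℓ R) ⊥).filter NormalChain,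
      if top d ≤ st f.1 then (-1) ^ (d.card + 1) *
          ((Nat.card (stab d ⊓ st f.1 : Subgroup G) : ℤ) *
            (lnum (stab d ⊓ st f.1) (mulF e f.1) : ℤ)) else 0) =
      YY ℓ (R.subgroupOf (st b)) (fun t : st b => mulF e b t) := by
    intro f
    obtain ⟨g, rfl⟩ := omk_surj f
    change (∑ d ∈ (chainsOn (psubIn ℓ R) ⊥).filter NormalChain,
      if top d ≤ st (cj g b) then (-1) ^ (d.card + 1) *
          ((Nat.card (stab d ⊓ st (cj g b) : Subgroup G) : ℤ) *
            (lnum (stab d ⊓ st (cj g b)) (mulF e (cj g b)) : ℤ)) else 0) = _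
    rw [conj_sum he.1 hR g, nch ℓ G (R ⊓ st (cj g b)) (fun S _ =>
      (Nat.card (S ⊓ st (cj g b) : Subgroup G) : ℤ) *
        (lnum (S ⊓ st (cj g b)) (mulF e (cj g b)) : ℤ)), ← Finset.sum_filter]
    apply Finset.sum_congr
    · ext d
      rw [Finset.mem_filter, Finset.mem_filter, Finset.mem_filter, mem_chainsOn, mem_chainsOn]
      constructor
      · rintro ⟨⟨⟨k1, k2, k3⟩, k4⟩, k5⟩
        refine ⟨⟨?_, k2, k3⟩, k4⟩
        intro D hD
        have k6 := mem_psubIn'.1 (k1 hD)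
        exact mem_psubIn'.2 ⟨le_inf k6.1 (((H94.top_mem k3 ⟨_, k2⟩).2 D hD).trans k5), k6.2⟩
      · rintro ⟨⟨k1, k2, k3⟩, k4⟩
        refine ⟨⟨⟨?_, k2, k3⟩, k4⟩, ?_⟩
        · intro D hD
          have k6 := mem_psubIn'.1 (k1 hD)
          exact mem_psubIn'.2 ⟨k6.1.trans inf_le_left, k6.2⟩
        · exact (mem_psubIn'.1 (k1 (H94.top_mem k3 ⟨_, k2⟩).1)).1.trans inf_le_right
    · intro d _
      rfl
  rw [Finset.sum_congr rfl (fun f _ => h2 f), Finset.sum_const, Finset.card_univ, index_st,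
    nsmul_eq_mul]

/-- FR (A6): the theorem of Fong and Reynolds. -/
theorem fr (nch : NchStmt) (orb : OrbStmt) (nls : NlsStmt) (ibf : IbfStmt) (ibj : IbjStmt)
    (ibn : IbnStmt) (eig : EigStmt) : FrStmt := by
  intro ℓ _ F _ hF G _ _ N R hN hR hNR e he hpos b hb hblk hne T hT
  have h : Bd N b := ⟨hN, hb, hblk⟩
  have hTs : T = st b := by
    ext g
    rw [hT, mem_st, cj_eq_iff]
  subst hTs
  have := Fintype.ofFinite (Om b)
  have hcor := (h.fam2 he.1).cor (omk b 1)
  rw [om_stab, omk_one] at hcor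
  exact ⟨hcor.supp, hcor.isIdem, h.pos hF he.1 hNR hpos,
    h.yy nch orb nls ibf ibj ibn eig hF he hne hR⟩

end fr

end Pool.Agent.PP.H75
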