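import Pool.Agent.Helper75_PP.LqB

/-!
# Squad PP, module LQM: normal subgroups of index `ℓ`
-/

open scoped BigOperators
open Polynomial

set_option linter.unusedSectionVars false

noncomputable section

namespace Pool.Agent.PP.H75

open Pool.Agent.PP Pool.Agent.Helper51_AWC Pool.Agent.Helper79_WRA
open Pool.Agent.PP.H50 (NN NN_mulVec NN_map exists_out sum_mk actF_mk NN_idem om eigen decomp Cl
  exists_lift res_irr rank_eq_rootMult charpoly_NN om_mul chp_main)

attribute [local instance] Ideal.Quotient.field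

section comm

variable {G : Type} [Group G] [Fintype G] {L : Subgroup G} [L.Normal] [DecidablePred (· ∈ L)]

theorem sum_coset {ℓ : ℕ} (hl : ℓ.Prime) (hi : L.index = ℓ) {x : G} (hx : x ∉ L) {g : G → ℂ}
    (hg : ∀ y, g (x * y) = g y) : ∑ y, g y = ℓ * ∑ y with y ∈ L, g y := by
  classical
  have : Fact ℓ.Prime := ⟨hl⟩
  have : Fintype (G ⧸ L) := Fintype.ofFinite _
  let S : G ⧸ L → ℂ := fun q => ∑ y with QuotientGroup.mk' L y = q, g y
  have hS : ∀ q, S (QuotientGroup.mk' L x * q) = S q := by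
    intro q
    change ∑ y with QuotientGroup.mk' L y = QuotientGroup.mk' L x * q, g y =
      ∑ y with QuotientGroup.mk' L y = q, g y
    rw [Finset.sum_filter, Finset.sum_filter, ← Equiv.sum_comp (Equiv.mulLeft x)]
    refine Finset.sum_congr rfl fun y _ => ?_
    rw [Equiv.coe_mulLeft, map_mul, hg]
    simp only [mul_right_inj]
  let K : Subgroup (G ⧸ L) :=
    { carrier := {r | ∀ q, S (r * q) = S q}
      one_mem' := fun q => by rw [one_mul]
      mul_mem' := by
        intro r s hr hs q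
        rw [mul_assoc, hr, hs]
      inv_mem' := by
        intro r hr q
        rw [← hr (r⁻¹ * q), mul_inv_cancel_left] }
  have hc : Nat.card (G ⧸ L) = ℓ := hi
  have hK : K = ⊤ := by
    have h1 : Fact (Nat.card (G ⧸ L)).Prime := ⟨by rw [hc]; exact hl⟩
    rcases Subgroup.eq_bot_or_eq_top_of_prime_card K with h | h
    · exfalso
      have h2 : QuotientGroup.mk' L x ∈ K := hS
      rw [h, Subgroup.mem_bot] at h2
      exact hx ((QuotientGroup.eq_one_iff x).1 h2)
    · exact h
  have hS1 : ∀ q, S q = S 1 := by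
    intro q
    have h1 : q ∈ K := by rw [hK]; exact Subgroup.mem_top q
    have h2 := h1 1
    rw [mul_one] at h2
    exact h2
  rw [← Finset.sum_fiberwise Finset.univ (fun y => QuotientGroup.mk' L y)]
  change ∑ q, S q = _
  rw [Finset.sum_congr rfl (fun q _ => hS1 q), Finset.sum_const, nsmul_eq_mul, Finset.card_univ,
    ← Nat.card_eq_fintype_card, hc]
  congr 1
  change ∑ y with QuotientGroup.mk' L y = 1, g y = _
  apply Finset.sum_congr _ fun _ _ => rfl
  ext y
  simp only [Finset.mem_filter, Finset.mem_univ, true_and]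
  exact QuotientGroup.eq_one_iff y

theorem comm_out {ℓ : ℕ} (hl : ℓ.Prime) (hi : L.index = ℓ) {z : G → ℂ}
    (hz : ∀ x y, z (y * x * y⁻¹) = z x) :
    ∑ x with x ∉ L, ∑ y, z (y * x * y⁻¹ * x⁻¹) =
      ℓ * ∑ x with x ∈ L, ∑ y with y ∉ L, z (y * x * y⁻¹ * x⁻¹) := by
  have h1 : ∑ x with x ∉ L, ∑ y, z (y * x * y⁻¹ * x⁻¹) =
      ∑ x with x ∉ L, (ℓ : ℂ) * ∑ y with y ∈ L, z (y * x * y⁻¹ * x⁻¹) := by
    refine Finset.sum_congr rfl fun x hx => ?_
    apply sum_coset hl hi (Finset.mem_filter.1 hx).2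
    intro y
    have h2 : x * y * x * (x * y)⁻¹ * x⁻¹ = x * (y * x * y⁻¹ * x⁻¹) * x⁻¹ := by group
    rw [h2, hz]
  rw [h1, ← Finset.mul_sum]
  congr 1
  rw [Finset.sum_comm]
  refine Finset.sum_congr rfl fun x hx => ?_
  rw [Finset.sum_filter, Finset.sum_filter, ← Equiv.sum_comp (Equiv.inv G)]
  refine Finset.sum_congr rfl fun y _ => ?_
  have h3 : y⁻¹ ∉ L ↔ y ∉ L := by rw [inv_mem_iff]
  have h4 : z (x * y⁻¹ * x⁻¹ * y⁻¹⁻¹) = z (y * x * y⁻¹ * x⁻¹) := by
    rw [← hz (x * y⁻¹ * x⁻¹ * y⁻¹⁻¹) y]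
    congr 1
    group
  simp only [Equiv.inv_apply, h3, h4]

theorem comm_all {ℓ : ℕ} (hl : ℓ.Prime) (hi : L.index = ℓ) {z : G → ℂ}
    (hz : ∀ x y, z (y * x * y⁻¹) = z x) :
    (ℓ : ℂ) * ∑ x, ∑ y, z (y * x * y⁻¹ * x⁻¹) =
      ℓ * ∑ x with x ∈ L, ∑ y with y ∈ L, z (y * x * y⁻¹ * x⁻¹) +
        (ℓ + 1) * ∑ x with x ∉ L, ∑ y, z (y * x * y⁻¹ * x⁻¹) := by
  have h1 := comm_out hl hi hz
  have h2 : ∑ x, ∑ y, z (y * x * y⁻¹ * x⁻¹) =
      ∑ x with x ∈ L, ∑ y with y ∈ L, z (y * x * y⁻¹ * x⁻¹) +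
      ∑ x with x ∈ L, ∑ y with y ∉ L, z (y * x * y⁻¹ * x⁻¹) +
      ∑ x with x ∉ L, ∑ y, z (y * x * y⁻¹ * x⁻¹) := by
    rw [← Finset.sum_add_distrib, ← Finset.sum_filter_add_sum_filter_not Finset.univ (· ∈ L)]
    congr 1
    refine Finset.sum_congr rfl fun x _ => ?_
    rw [Finset.sum_filter_add_sum_filter_not]
  rw [h2]
  linear_combination -h1

end comm

section omega

variable {G : Type} [Group G] [Fintype G]

theorem om_add (a b χ : G → ℂ) : om (a + b) χ = om a χ + om b χ := by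
  rw [om, om, om, ← add_div, ← Finset.sum_add_distrib]
  congr 1
  refine Finset.sum_congr rfl fun t _ => ?_
  rw [Pi.add_apply, add_mul]

theorem om_one [DecidableEq G] (c : ℂ) {χ : G → ℂ} (h1 : χ 1 ≠ 0) :
    om (fun t : G => if t = 1 then c else 0) χ = c := by
  rw [om, Finset.sum_eq_single_of_mem 1 (Finset.mem_univ _)]
  · rw [if_pos rfl, mul_div_assoc, div_self h1, mul_one]
  · intro b _ hb
    rw [if_neg hb, zero_mul]

/-- the product in the group ring -/
def cv {R : Type} [CommRing R] (a b : G → R) : G → R := fun y => ∑ h, a h * b (h⁻¹ * y)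

theorem cl_cv {R : Type} [CommRing R] {a b : G → R} (ha : ∀ x y, a (y * x * y⁻¹) = a x)
    (hb : ∀ x y, b (y * x * y⁻¹) = b x) : ∀ x y, cv a b (y * x * y⁻¹) = cv a b x := by
  intro x y
  change ∑ h, a h * b (h⁻¹ * (y * x * y⁻¹)) = ∑ h, a h * b (h⁻¹ * x)
  rw [← Equiv.sum_comp (MulAut.conj y).toEquiv (fun h => a h * b (h⁻¹ * (y * x * y⁻¹)))]
  refine Finset.sum_congr rfl fun h _ => ?_
  change a (y * h * y⁻¹) * b ((y * h * y⁻¹)⁻¹ * (y * x * y⁻¹)) = _
  have h2 : (y * h * y⁻¹)⁻¹ * (y * x * y⁻¹) = y * (h⁻¹ * x) * y⁻¹ := by group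
  rw [h2, ha, hb]

theorem cv_supp {R : Type} [CommRing R] {L : Subgroup G} {a b : G → R} (ha : ∀ x, x ∉ L → a x = 0)
    (hb : ∀ x, x ∉ L → b x = 0) : ∀ x, x ∉ L → cv a b x = 0 := by
  intro x hx
  apply Finset.sum_eq_zero
  intro h _
  by_cases hh : h ∈ L
  · rw [hb, mul_zero]
    intro h1
    apply hx
    have := mul_mem hh h1
    rwa [mul_inv_cancel_left] at this
  · rw [ha h hh, zero_mul]

theorem cv_res {R : Type} [CommRing R] {L : Subgroup G} [Fintype L] {a b : G → R}
    (ha : ∀ x, x ∉ L → a x = 0) :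
    (fun t : L => cv a b t) = cv (fun t : L => a t) (fun t : L => b t) := by
  classical
  funext t
  change ∑ h, a h * b (h⁻¹ * t) = ∑ h : L, a h * b (((h⁻¹ * t : L) : G))
  have h1 : ∑ h : L, a h * b (((h⁻¹ * t : L) : G)) =
      ∑ h with h ∈ L, a h * b (h⁻¹ * t) := by
    rw [Finset.sum_subtype (p := (· ∈ L)) (Finset.univ.filter (· ∈ L)) (by simp)
      (fun h => a h * b (h⁻¹ * t))]
    rfl
  rw [h1, Finset.sum_filter_of_ne]
  intro h _ hne
  by_contra hh
  apply hne
  rw [ha h hh, zero_mul]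

theorem poly_step {L : Subgroup G} [Fintype L] {a : G → ℂ} (ha : ∀ x y, a (y * x * y⁻¹) = a x)
    (hs : ∀ x, x ∉ L → a x = 0) (p : ℂ[X]) :
    ∃ z : G → ℂ, (∀ x y, z (y * x * y⁻¹) = z x) ∧ (∀ x, x ∉ L → z x = 0) ∧
      (∀ χ ∈ Irr G, om z χ = p.eval (om a χ)) ∧
      (∀ ψ ∈ Irr L, om (fun t : L => z t) ψ = p.eval (om (fun t : L => a t) ψ)) := by
  classical
  induction p using Polynomial.induction_on with
  | C c =>
    refine ⟨fun t => if t = 1 then c else 0, ?_, ?_, ?_, ?_⟩
    · intro x y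
      have : y * x * y⁻¹ = 1 ↔ x = 1 := by
        constructor
        · intro h
          have : x = y⁻¹ * (y * x * y⁻¹) * y := by group
          rw [this, h]; group
        · rintro rfl; group
      simp only [this]
    · intro x hx
      change (if x = 1 then c else 0) = 0
      rw [if_neg]
      rintro rfl
      exact hx L.one_mem
    · intro χ hχ
      rw [om_one c (irr_one_ne hχ), Polynomial.eval_C]
    · intro ψ hψ
      have h1 : (fun t : L => if (t : G) = 1 then c else 0) = fun t : L => if t = 1 then c else 0 := by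
        funext t
        have h2 : (t : G) = 1 ↔ t = 1 := OneMemClass.coe_eq_one
        simp only [h2]
      rw [h1, om_one c (irr_one_ne hψ), Polynomial.eval_C]
  | add p q hp hq =>
    obtain ⟨z, z1, z2, z3, z4⟩ := hp
    obtain ⟨w, w1, w2, w3, w4⟩ := hq
    refine ⟨z + w, ?_, ?_, ?_, ?_⟩
    · intro x y
      rw [Pi.add_apply, Pi.add_apply, z1, w1]
    · intro x hx
      rw [Pi.add_apply, z2 x hx, w2 x hx, add_zero]
    · intro χ hχ
      rw [om_add, z3 χ hχ, w3 χ hχ, Polynomial.eval_add]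
    · intro ψ hψ
      have h1 : (fun t : L => (z + w) t) = (fun t : L => z t) + (fun t : L => w t) := rfl
      rw [h1, om_add, z4 ψ hψ, w4 ψ hψ, Polynomial.eval_add]
  | monomial n c ih =>
    obtain ⟨z, z1, z2, z3, z4⟩ := ih
    refine ⟨cv a z, cl_cv ha z1, cv_supp hs z2, ?_, ?_⟩
    · intro χ hχ
      have h1 : om (cv a z) χ = om a χ * om z χ := om_mul z1 hχ
      rw [h1, z3 χ hχ]
      simp only [Polynomial.eval_mul, Polynomial.eval_C, Polynomial.eval_pow, Polynomial.eval_X]
      ring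
    · intro ψ hψ
      have h0 : ∀ x y : L, (fun t : L => z t) (y * x * y⁻¹) = (fun t : L => z t) x :=
        fun x y => z1 x y
      have h1 : om (cv (fun t : L => a t) (fun t : L => z t)) ψ =
          om (fun t : L => a t) ψ * om (fun t : L => z t) ψ :=
        om_mul (a := fun t : L => a t) (b := fun t : L => z t) h0 hψ
      rw [cv_res hs, h1, z4 ψ hψ]
      simp only [Polynomial.eval_mul, Polynomial.eval_C, Polynomial.eval_pow, Polynomial.eval_X]
      ring

end omega

section main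

variable {M : Ideal (integralClosure ℤ ℂ)}

theorem ncard_eq {H : Type} [Group H] [Fintype (Irr H)] (e : H → FF M) [DecidableEq (FF M)] :
    {ϑ : H → ℂ | ϑ ∈ Irr H ∧ res M e ϑ = 1}.ncard =
      (Finset.univ.filter (fun χ : Irr H => res M e χ = 1)).card := by
  have h6 : {ϑ : H → ℂ | ϑ ∈ Irr H ∧ res M e ϑ = 1} =
      (fun χ : Irr H => (χ : H → ℂ)) '' {χ : Irr H | res M e χ = 1} := by
    ext ϑ
    constructor
    · rintro ⟨h7, h8⟩
      exact ⟨⟨ϑ, h7⟩, h8, rfl⟩
    · rintro ⟨χ, h7, rfl⟩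
      exact ⟨χ.2, h7⟩
  rw [h6, Set.ncard_image_of_injective _ Subtype.val_injective]
  have h7 : {χ : Irr H | res M e χ = 1} =
      (Finset.univ.filter (fun χ : Irr H => res M e χ = 1) : Finset (Irr H)) := by
    ext χ
    simp only [Set.mem_ofPred_eq, Finset.coe_filter, Finset.mem_univ, true_and]
  rw [h7, Set.ncard_coe_finset]

variable [hM : M.IsMaximal]

theorem isIdem_res {F : Type} [Field F] {G : Type} [Group G] [Finite G] {L : Subgroup G}
    {a : G → F} (ha : IsIdem a) (hs : ∀ x, x ∉ L → a x = 0) : IsIdem (fun t : L => a t) := by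
  classical
  have := Fintype.ofFinite G
  have := Fintype.ofFinite L
  refine ⟨fun x y => ha.1 x y, ?_⟩
  have h1 := cv_res (a := a) (b := a) hs
  have h2 : cv a a = a := by
    funext x
    have h := congrFun ha.2 x
    rw [mulF, finsum_eq_sum_of_fintype] at h
    exact h
  have h3 : mulF (fun t : L => a t) (fun t : L => a t) =
      cv (fun t : L => a t) (fun t : L => a t) := by
    funext x
    rw [mulF, finsum_eq_sum_of_fintype]
    rfl
  rw [h3, ← h1, h2]

/-- LQM -/
theorem lqm : LqmStmt := by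
  intro ℓ hl M hM hlM G _ _ L hL hi a ha hs
  classical
  have := Fintype.ofFinite G
  have := Fintype.ofFinite L
  have := Fintype.ofFinite (ConjClasses G)
  have := Fintype.ofFinite (ConjClasses L)
  have := Fintype.ofFinite (Irr G)
  have := Fintype.ofFinite (Irr L)
  let P : ConjClasses G → Prop := fun c => Quotient.out c ∉ L
  have hP : ∀ x, P (ConjClasses.mk x) ↔ x ∉ L := by
    intro x
    obtain ⟨h, hh⟩ := exists_out x
    change Quotient.out (ConjClasses.mk x) ∉ L ↔ _
    rw [← hh, hL.mem_comm_iff, inv_mul_cancel_left]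
  have hstb : ∀ {R : Type} [Zero R] (z : G → R), (∀ x, x ∉ L → z x = 0) → Stb P z := by
    intro R _ z hz t ht x
    have h1 : t ∈ L := by
      by_contra h
      exact ht (hz t h)
    rw [hP, hP, Subgroup.mul_mem_cancel_left L h1]
  obtain ⟨B, hB⟩ := exists_BB P
  -- the lift
  obtain ⟨b0, hb0, eb0⟩ := exists_lift (M := M) (b := a) ha.1
  let b : G → integralClosure ℤ ℂ := fun t => if t ∈ L then b0 t else 0
  have hbs : ∀ x, x ∉ L → b x = 0 := fun x hx => if_neg hx
  have hb : Cl b := by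
    intro x y
    have h1 : y * x * y⁻¹ ∈ L ↔ x ∈ L := by
      rw [hL.mem_comm_iff, inv_mul_cancel_left]
    change (if y * x * y⁻¹ ∈ L then b0 (y * x * y⁻¹) else 0) = if x ∈ L then b0 x else 0
    rw [hb0]
    simp only [h1]
  have eb : ∀ t, Ideal.Quotient.mk M (b t) = a t := by
    intro t
    by_cases h : t ∈ L
    · change Ideal.Quotient.mk M (if t ∈ L then b0 t else 0) = a t
      rw [if_pos h, eb0]
    · change Ideal.Quotient.mk M (if t ∈ L then b0 t else 0) = a t
      rw [if_neg h, map_zero, hs t h]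
  -- the three ranks
  have e1 := chp_main ha
  have e2 := chp_main (isIdem_res ha hs)
  have e3 : rk a (cfsO (FF M) L) = _ :=
    (rk_cfsO hP ha.1 (hstb a hs)).trans (chp_P hB ha (hstb a hs) b hb eb (hstb b hbs))
  rw [ncard_eq] at e1 e2
  -- the central characters
  let w : G → ℂ := fun t => (b t : ℂ)
  have hw : ∀ x y, w (y * x * y⁻¹) = w x := fun x y => by
    change ((b (y * x * y⁻¹) : integralClosure ℤ ℂ) : ℂ) = _
    rw [hb]
  have hws : ∀ x, x ∉ L → w x = 0 := by
    intro x hx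
    change ((b x : integralClosure ℤ ℂ) : ℂ) = 0
    rw [hbs x hx]
    rfl
  have r1 : ∀ χ : Irr G, res M a χ = red M (om w χ) := by
    intro χ
    have h1 := (res_irr (M := M) b hb χ.2).1
    have h2 : (fun t => Ideal.Quotient.mk M (b t)) = a := funext eb
    rw [h2] at h1
    exact h1
  have r2 : ∀ ψ : Irr L, res M (fun t : L => a t) ψ = red M (om (fun t : L => w t) ψ) := by
    intro ψ
    have h1 := (res_irr (M := M) (fun t : L => b t) (fun x y => hb x y) ψ.2).1
    have h2 : (fun t : L => Ideal.Quotient.mk M (b t)) = fun t : L => a t := by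
      funext t
      exact eb t
    rw [h2] at h1
    exact h1
  -- interpolation
  let T : Finset ℂ := Finset.univ.image (fun χ : Irr G => om w χ) ∪
    Finset.univ.image (fun ψ : Irr L => om (fun t : L => w t) ψ)
  let p : ℂ[X] := Lagrange.interpolate T id (fun x => if red M x = 1 then 1 else 0)
  have hp : ∀ x ∈ T, p.eval x = if red M x = 1 then 1 else 0 := fun x hx =>
    Lagrange.eval_interpolate_at_node (s := T) (v := id) _ Function.injective_id.injOn hx
  obtain ⟨z, z1, z2, z3, z4⟩ := poly_step (L := L) hw hws p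
  have t1 := trace_full z1
  have t2 := trace_full (H := L) (z := fun t : L => z t) (fun x y => z1 x y)
  have t3 := trace_eq z1 (hB z z1 (hstb z z2))
  have s1 : ∑ χ : Irr G, om z χ =
      ((Finset.univ.filter (fun χ : Irr G => res M a χ = 1)).card : ℂ) := by
    rw [Finset.card_filter, Nat.cast_sum]
    refine Finset.sum_congr rfl fun χ _ => ?_
    rw [z3 χ χ.2, hp _ (Finset.mem_union_left _ (Finset.mem_image_of_mem _ (Finset.mem_univ χ))),
      r1]
    push_cast
    rfl
  have s2 : ∑ ψ : Irr L, om (fun t : L => z t) ψ =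
      ((Finset.univ.filter (fun ψ : Irr L => res M (fun t : L => a t) ψ = 1)).card : ℂ) := by
    rw [Finset.card_filter, Nat.cast_sum]
    refine Finset.sum_congr rfl fun ψ _ => ?_
    rw [z4 ψ ψ.2, hp _ (Finset.mem_union_right _ (Finset.mem_image_of_mem _ (Finset.mem_univ ψ))),
      r2]
    push_cast
    rfl
  have s3 : ∑ χ ∈ B, om z χ =
      ((B.filter (fun χ : Irr G => res M a χ = 1)).card : ℂ) := by
    rw [Finset.card_filter, Nat.cast_sum]
    refine Finset.sum_congr rfl fun χ _ => ?_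
    rw [z3 χ χ.2, hp _ (Finset.mem_union_left _ (Finset.mem_image_of_mem _ (Finset.mem_univ χ))),
      r1]
    push_cast
    rfl
  have hca := comm_all (L := L) hl hi z1
  have f1 : ∑ x : G with P (ConjClasses.mk x), ∑ y, z (y * x * y⁻¹ * x⁻¹) =
      ∑ x with x ∉ L, ∑ y, z (y * x * y⁻¹ * x⁻¹) := by
    apply Finset.sum_congr _ fun _ _ => rfl
    ext x
    simp only [Finset.mem_filter, Finset.mem_univ, true_and]
    exact hP x
  have f2 : ∑ x : L, ∑ y : L, (fun t : L => z t) (y * x * y⁻¹ * x⁻¹) =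
      ∑ x with x ∈ L, ∑ y with y ∈ L, z (y * x * y⁻¹ * x⁻¹) := by
    rw [Finset.sum_subtype (p := (· ∈ L)) (Finset.univ.filter (· ∈ L)) (by simp)
      (fun x => ∑ y with y ∈ L, z (y * x * y⁻¹ * x⁻¹))]
    refine Finset.sum_congr rfl fun x _ => ?_
    rw [Finset.sum_subtype (p := (· ∈ L)) (Finset.univ.filter (· ∈ L)) (by simp)
      (fun y => z (y * x * y⁻¹ * (x : G)⁻¹))]
    rfl
  have hcard : (Fintype.card G : ℂ) = ℓ * Fintype.card L := by
    have h1 := L.card_mul_index
    rw [hi, Nat.card_eq_fintype_card, Nat.card_eq_fintype_card] at h1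
    rw [← h1]
    push_cast
    ring
  rw [← t1, ← f2, ← t2, ← f1, ← t3, s1, s2, s3] at hca
  have hne : (Fintype.card G : ℂ) ≠ 0 := by exact_mod_cast Fintype.card_ne_zero
  rw [e1, e2, e3]
  have key : (Fintype.card G : ℂ) *
      ((ℓ * (Finset.univ.filter (fun χ : Irr G => res M a χ = 1)).card : ℕ) : ℂ) =
      Fintype.card G * (((Finset.univ.filter
        (fun ψ : Irr L => res M (fun t : L => a t) ψ = 1)).card +
        (ℓ + 1) * (B.filter (fun χ : Irr G => res M a χ = 1)).card : ℕ) : ℂ) := by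
    push_cast
    rw [hcard] at hca ⊢
    linear_combination hca
  have key2 := mul_left_cancel₀ hne key
  exact_mod_cast key2

end main

end Pool.Agent.PP.H75
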