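import Pool.Agent.Helper75_PP.Cen

/-!
# Squad PP: the alternating sum of the problem for a central `O_ℓ(G)`
-/

open scoped BigOperators

set_option linter.unusedSectionVars false

noncomputable section

namespace Pool.Agent.PP.H75

open Pool.Agent.Helper51_AWC Pool.Agent.Helper79_WRA Pool.Agent.PP

section alt

variable {A B : Type} [Group A] [Group B] [Finite A] [Finite B]

theorem bot_normalizer : Subgroup.normalizer ((⊥ : Subgroup A) : Set A) = ⊤ := by
  rw [eq_top_iff]
  intro g _
  rw [mem_normalizer_iff_conjS]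
  ext x
  rw [mem_conjS, Subgroup.mem_bot, Subgroup.mem_bot]
  constructor
  · intro h
    have e1 : x = g * (g⁻¹ * x * g) * g⁻¹ := by group
    rw [e1, h]
    group
  · rintro rfl
    group

open Classical in
/-- adding the trivial subgroup to the preimage of a chain -/
theorem insert_bot_facts {ℓ : ℕ} {p : A →* B} (hp : Function.Surjective p)
    (hk : IsPGroup ℓ p.ker) {d : Finset (Subgroup B)}
    (hd : d ∈ chainsOn (psubIn ℓ (⊤ : Subgroup B)) ⊥) (hn : NormalChain d) :
    insert ⊥ (comapC p hp d) ∈ chainsOn (psubIn ℓ (⊤ : Subgroup A)) ⊥ ∧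
      NormalChain (insert ⊥ (comapC p hp d)) ∧
      stab (insert ⊥ (comapC p hp d)) = (stab d).comap p ∧
      top (insert ⊥ (comapC p hp d)) = (top d).comap p := by
  obtain ⟨h1, h2, h3⟩ := mem_chainsOn.1 hd
  have hch : IsChain (· ≤ ·) ((comapC p hp d : Finset (Subgroup A)) : Set (Subgroup A)) := by
    intro D hD E hE _
    obtain ⟨D', hD', rfl⟩ := mem_comapC.1 (Finset.mem_coe.1 hD)
    obtain ⟨E', hE', rfl⟩ := mem_comapC.1 (Finset.mem_coe.1 hE)
    rcases chain_total h3 hD' hE' with h | h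
    · exact Or.inl (Subgroup.comap_mono h)
    · exact Or.inr (Subgroup.comap_mono h)
  have ht := H97.top_mem h3 ⟨_, h2⟩
  have htop : top (insert ⊥ (comapC p hp d)) = (top d).comap p := by
    rw [H97.top_insert, bot_sup_eq]
    apply le_antisymm
    · apply sSup_le
      intro D hD
      obtain ⟨E, hE, rfl⟩ := mem_comapC.1 (Finset.mem_coe.1 hD)
      exact Subgroup.comap_mono (H97.le_tp hE)
    · exact le_sSup (Finset.mem_coe.2 (mem_comapC.2 ⟨_, ht, rfl⟩))
  have hstab : stab (insert ⊥ (comapC p hp d)) = (stab d).comap p := by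
    rw [← stab_comapC p hp d]
    ext g
    rw [H97.mem_stab, H97.mem_stab]
    constructor
    · intro h D hD
      exact h D (Finset.mem_insert_of_mem hD)
    · intro h D hD
      rcases Finset.mem_insert.1 hD with rfl | hD
      · rw [bot_normalizer]
        trivial
      · exact h D hD
  refine ⟨?_, ?_, hstab, htop⟩
  · rw [mem_chainsOn]
    refine ⟨?_, Finset.mem_insert_self _ _, ?_⟩
    · intro D hD
      rcases Finset.mem_insert.1 hD with rfl | hD
      · exact mem_psubIn'.2 ⟨bot_le, IsPGroup.of_bot⟩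
      · obtain ⟨E, hE, rfl⟩ := mem_comapC.1 hD
        exact mem_psubIn'.2 ⟨le_top, (isPGroup_comap_iff hp hk E).2 (mem_psubIn'.1 (h1 hE)).2⟩
    · rw [Finset.coe_insert]
      apply hch.insert
      intro D _ _
      exact Or.inl bot_le
  · intro D hD
    rw [htop]
    rcases Finset.mem_insert.1 hD with rfl | hD
    · rw [bot_normalizer]
      exact le_top
    · obtain ⟨E, hE, rfl⟩ := mem_comapC.1 hD
      intro x hx
      rw [normalizer_comap hp]
      exact hn E hE hx

theorem rk_congr {F : Type} [Field F] (e : A → F) {X X' R R' : Subgroup A} (hX : X = X')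
    (hR : R = R') : rk (fun t : X => br R e t) (cfs F X) =
      rk (fun t : X' => br R' e t) (cfs F X') := by
  subst hX
  subst hR
  rfl

/-- the alternating sum of the problem, for a central `O_ℓ(G)` -/
theorem altSum_central (nls : NlsStmt) (brm : BrmStmt) (smt : SmtStmt) (nch : NchStmt)
    (dic : DicStmt) {ℓ : ℕ} (hℓ : ℓ.Prime) (M : Ideal (integralClosure ℤ ℂ)) [M.IsMaximal]
    (hM : (ℓ : integralClosure ℤ ℂ) ∈ M) :
    letI := Ideal.Quotient.field M
    GoodF ℓ (FF M) → ∀ {p : A →* B}, Function.Surjective p → p.ker = opCore ℓ A →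
      IsPGroup ℓ p.ker → p.ker ≤ Subgroup.center A → ∀ χ ∈ Irr A, ∀ e : A → FF M, IsBlk e →
      res M e χ = 1 → (∀ ψ ∈ Irr A, labF M ψ ≠ labF M χ → res M e ψ = 0) →
      (Nat.card A : ℤ) * altSum ℓ M χ =
        (Nat.card p.ker : ℤ) ^ 2 * YY ℓ (⊤ : Subgroup B) (push p e) := by
  classical
  let _ := Ideal.Quotient.field M
  intro hF p hp hk hkp hc χ hχ e he h1 h2
  have := Fact.mk hℓ
  rw [← kr_central nls brm smt nch hF hp hkp hc he.1, card_mul_altSum,
    sum_comapC p hp hk hkp]
  let c : Subgroup A → ℤ := fun X =>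
    (Nat.card X : ℤ) * ({a | a ∈ IrrS X ∧ labF M a = labF M χ}.ncard : ℤ)
  have h3 : ∀ d ∈ chainsOn (psubIn ℓ (⊤ : Subgroup B)) ⊥,
      (-1) ^ ((comapC p hp d).card + 1) * (weight M χ (comapC p hp d) : ℤ) =
        (-1) ^ (d.card + 1) * c ((stab d).comap p) := by
    intro d _
    rw [card_comapC, weight, ← H83.ncard_label (stab (comapC p hp d)) hχ, stab_comapC,
      Nat.cast_mul]
  rw [Finset.sum_congr rfl h3, nch ℓ B ⊤ (fun X _ => c (X.comap p)),
    nch ℓ B ⊤ (fun X R => (Nat.card (X.comap p) : ℤ) *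
      (rk (fun t : X.comap p => br (R.comap p) e t) (cfs (FF M) (X.comap p)) : ℤ))]
  refine Finset.sum_congr rfl fun d hd => ?_
  rw [Finset.mem_filter] at hd
  obtain ⟨g1, g2, g3, g4⟩ := insert_bot_facts hp hkp hd.1 hd.2
  have h5 := dic ℓ hℓ M hM A χ hχ e he h1 h2 _ g1 g2
  rw [rk_congr e g3 g4, g3] at h5
  change (-1) ^ (d.card + 1) * ((Nat.card ((stab d).comap p) : ℤ) *
    ({a | a ∈ IrrS ((stab d).comap p) ∧ labF M a = labF M χ}.ncard : ℤ)) = _
  rw [h5]

end alt

end Pool.Agent.PP.H75
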