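import Pool.Agent.Helper75_PP.Local

/-!
# Squad PP, Fong-Reynolds: positivity
-/

open scoped BigOperators

set_option linter.unusedSectionVars false

noncomputable section

namespace Pool.Agent.PP.H75

open Pool.Agent.Helper51_AWC Pool.Agent.Helper79_WRA Pool.Agent.PP

section pos

variable {F G : Type} [Field F] [Group G] [Finite G] {N : Subgroup G} {b e : G → F}

theorem cj_dl (g x : G) : cj g (dl F x) = dl F (g * x * g⁻¹) := by
  funext y
  unfold cj dl
  by_cases h : y = g * x * g⁻¹
  · rw [if_pos h, if_pos]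
    rw [h]
    group
  · rw [if_neg h, if_neg]
    intro h'
    apply h
    rw [← h']
    group

/-- the sum of the conjugates of `y` under `Q` -/
theorem sum_dl_conj (Q : Subgroup G) [Fintype Q] (y z : G) :
    ∑ r : Q, dl F ((r : G) * y * (r : G)⁻¹) z =
      (Nat.card (Subgroup.centralizer ({y} : Set G) ⊓ Q : Subgroup G) : F) * clsum F Q y z := by
  classical
  have h1 : ∑ r : Q, dl F ((r : G) * y * (r : G)⁻¹) z =
      ((Finset.univ.filter (fun r : Q => z = (r : G) * y * (r : G)⁻¹)).card : F) := by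
    rw [Finset.card_filter, Nat.cast_sum]
    apply Finset.sum_congr rfl
    intro r _
    rw [dl]
    by_cases h : z = (r : G) * y * (r : G)⁻¹
    · rw [if_pos h, if_pos h, Nat.cast_one]
    · rw [if_neg h, if_neg h, Nat.cast_zero]
  rw [h1, clsum]
  by_cases hz : ∃ q ∈ Q, z = q * y * q⁻¹
  · rw [if_pos hz, mul_one]
    obtain ⟨q, hq, rfl⟩ := hz
    congr 1
    symm
    rw [← Set.ncard_coe_finset, ← Nat.card_coe_set_eq]
    apply Nat.card_congr
    refine ⟨fun c => ⟨⟨q * c, Q.mul_mem hq c.2.2⟩, ?_⟩, fun r => ⟨q⁻¹ * r.1, ?_, ?_⟩, ?_, ?_⟩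
    · rw [Finset.mem_coe, Finset.mem_filter]
      refine ⟨Finset.mem_univ _, ?_⟩
      have hc : (c : G) ∈ Subgroup.centralizer ({y} : Set G) := c.2.1
      rw [Subgroup.mem_centralizer_singleton_iff] at hc
      change q * y * q⁻¹ = q * c * y * (q * c)⁻¹
      generalize (c : G) = c at hc ⊢
      calc q * y * q⁻¹ = q * (y * c) * c⁻¹ * q⁻¹ := by group
        _ = q * c * y * (q * c)⁻¹ := by rw [← hc]; group
    · have h2 := (Finset.mem_filter.1 (Finset.mem_coe.1 r.2)).2
      change q⁻¹ * (r.1 : G) ∈ Subgroup.centralizer ({y} : Set G)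
      rw [Subgroup.mem_centralizer_singleton_iff]
      calc q⁻¹ * (r.1 : G) * y = q⁻¹ * ((r.1 : G) * y * (r.1 : G)⁻¹) * r.1 := by group
        _ = q⁻¹ * (q * y * q⁻¹) * r.1 := by rw [← h2]
        _ = y * (q⁻¹ * r.1) := by group
    · exact Q.mul_mem (Q.inv_mem hq) r.1.2
    · intro c
      apply Subtype.ext
      change q⁻¹ * (q * (c : G)) = c
      rw [inv_mul_cancel_left]
    · intro r
      apply Subtype.ext
      apply Subtype.ext
      change q * (q⁻¹ * ((r.1 : Q) : G)) = r.1
      rw [mul_inv_cancel_left]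
  · rw [if_neg hz, mul_zero]
    rw [Finset.card_eq_zero.2, Nat.cast_zero]
    apply Finset.filter_eq_empty_iff.2
    intro r _ h
    exact hz ⟨r, r.2, h⟩

theorem ma_sum_dl_conj (Q : Subgroup G) [Fintype Q] (y : G) :
    ∑ r : Q, ma (dl F ((r : G) * y * (r : G)⁻¹)) =
      (Nat.card (Subgroup.centralizer ({y} : Set G) ⊓ Q : Subgroup G) : F) • ma (clsum F Q y) := by
  rw [← ma_sum, ← ma_smul]
  congr 1
  funext z
  rw [Finset.sum_apply, sum_dl_conj]
  rfl

theorem clsum_supp {Q : Subgroup G} {y : G} (hy : y ∈ Q) : ∀ z, z ∉ Q → clsum F Q y z = 0 := by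
  intro z hz
  rw [clsum, if_neg]
  rintro ⟨q, hq, rfl⟩
  exact hz (Q.mul_mem (Q.mul_mem hq hy) (Q.inv_mem hq))

theorem clsum_inv {Q : Subgroup G} (y : G) : ∀ q ∈ Q, cj q (clsum F Q y) = clsum F Q y := by
  intro q hq
  rw [cj_eq_iff]
  intro z
  have e1 : (∃ r ∈ Q, q * z * q⁻¹ = r * y * r⁻¹) ↔ ∃ r ∈ Q, z = r * y * r⁻¹ := by
    constructor
    · rintro ⟨r, hr, h⟩
      refine ⟨q⁻¹ * r, Q.mul_mem (Q.inv_mem hq) hr, ?_⟩
      calc z = q⁻¹ * (q * z * q⁻¹) * q := by group
        _ = q⁻¹ * (r * y * r⁻¹) * q := by rw [h]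
        _ = _ := by group
    · rintro ⟨r, hr, rfl⟩
      exact ⟨q * r, Q.mul_mem hq hr, by group⟩
  unfold clsum
  by_cases h : ∃ r ∈ Q, z = r * y * r⁻¹
  · rw [if_pos h, if_pos (e1.2 h)]
  · rw [if_neg h, if_neg (fun h' => h (e1.1 h'))]

theorem commute_of {K : Subgroup G} {a c : G → F} (ha : ∀ x, x ∉ K → a x = 0)
    (hc : ∀ k ∈ K, cj k c = c) : Commute (ma a) (ma c) := by
  change ma a * ma c = ma c * ma a
  rw [← ma_mul, ← ma_mul, mulF_comm_of ha hc]

theorem commute_cl {e : G → F} (he : IsCl e) (c : G → F) : Commute (ma e) (ma c) := by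
  change ma e * ma c = ma c * ma e
  rw [← ma_mul, ← ma_mul, mulF_comm_cl he]

/-- sums of conjugates are combinations of class sums of defect zero -/
theorem nil_trace {ℓ : ℕ} (hF : GoodF ℓ F) {R : Subgroup G} [Fintype R] (he : IsIdem e)
    (hpos : Pos ℓ e R) {w : G → F} (hw : ∀ x, x ∉ R → w x = 0) :
    IsNilpotent (ma e * ∑ r : R, ma (cj (r : G) w)) := by
  have := Fintype.ofFinite G
  have hchar := hF.char
  have h1 : ∑ r : R, ma (cj (r : G) w) = ∑ y : G, (w y *
      (Nat.card (Subgroup.centralizer ({y} : Set G) ⊓ R : Subgroup G) : F)) • ma (clsum F R y) := by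
    have h2 : ∀ r : R, ma (cj (r : G) w) = ∑ y : G, w y • ma (dl F ((r : G) * y * (r : G)⁻¹)) := by
      intro r
      have h3 : cj (r : G) w = ∑ y : G, w y • dl F ((r : G) * y * (r : G)⁻¹) := by
        funext z
        rw [Finset.sum_apply]
        simp only [Pi.smul_apply, smul_eq_mul, ← cj_dl]
        unfold cj dl
        rw [Finset.sum_eq_single ((r : G)⁻¹ * z * r)]
        · rw [if_pos rfl, mul_one]
        · intro y _ hy
          rw [if_neg (fun h => hy h.symm), mul_zero]
        · intro h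
          exact absurd (Finset.mem_univ _) h
      rw [h3, ma_sum]
      apply Finset.sum_congr rfl
      intro y _
      rw [ma_smul]
    rw [Finset.sum_congr rfl (fun r _ => h2 r), Finset.sum_comm]
    apply Finset.sum_congr rfl
    intro y _
    rw [← Finset.smul_sum, ma_sum_dl_conj, smul_smul]
  rw [h1, Finset.mul_sum]
  have hcc : ∀ y ∈ R, ∀ z ∈ R, Commute (ma (clsum F R y)) (ma (clsum F R z)) := by
    intro y hy z _
    exact commute_of (clsum_supp hy) (clsum_inv z)
  apply Commute.isNilpotent_sum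
  · intro y _
    rw [mul_smul_comm]
    by_cases hy : y ∈ R
    · by_cases hl : ℓ ∣ Nat.card (Subgroup.centralizer ({y} : Set G) ⊓ R : Subgroup G)
      · have h0 : (Nat.card (Subgroup.centralizer ({y} : Set G) ⊓ R : Subgroup G) : F) = 0 :=
          (CharP.cast_eq_zero_iff F ℓ _).2 hl
        rw [h0, mul_zero, zero_smul]
        exact IsNilpotent.zero
      · obtain ⟨n, hn⟩ := hpos y hy hl
        have hnil : IsNilpotent (ma e * ma (clsum F R y)) := by
          refine ⟨n + 1, ?_⟩
          have hc := commute_cl he.1 (clsum F R y)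
          have hn' : ma (clsum F R y) ^ n * ma e = 0 := by
            rw [← ma_iterate, hn, ma_zero]
          rw [hc.mul_pow, pow_succ' (ma e), pow_succ (ma (clsum F R y))]
          calc ma e * ma e ^ n * (ma (clsum F R y) ^ n * ma (clsum F R y))
              = ma e * (ma e ^ n * ma (clsum F R y) ^ n) * ma (clsum F R y) := by
                simp only [mul_assoc]
            _ = ma e * (ma (clsum F R y) ^ n * ma e ^ n) * ma (clsum F R y) := by
                rw [(hc.pow_pow n n).eq]
            _ = (ma e * ma (clsum F R y) ^ n) * (ma e ^ n * ma (clsum F R y)) := by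
                simp only [mul_assoc]
            _ = 0 := by rw [(hc.pow_right n).eq, hn', zero_mul]
        exact hnil.smul _
    · rw [hw y hy, zero_mul, zero_smul]
      exact IsNilpotent.zero
  · intro y z _ _
    by_cases hy : y ∈ R
    · by_cases hz : z ∈ R
      · have h3 := hcc y hy z hz
        have h4 : Commute (ma e * ma (clsum F R y)) (ma e * ma (clsum F R z)) := by
          apply Commute.mul_left
          · exact (commute_cl he.1 e).mul_right (commute_cl he.1 _)
          · exact (commute_cl he.1 _).symm.mul_right h3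
        rw [mul_smul_comm, mul_smul_comm]
        exact (h4.smul_left _).smul_right _
      · rw [hw z hz, zero_mul, zero_smul, mul_zero]
        exact Commute.zero_right _
    · rw [hw y hy, zero_mul, zero_smul, mul_zero]
      exact Commute.zero_left _

/-- POS4, in the group ring of `G` -/
theorem Bd.pos_aux {ℓ : ℕ} (hF : GoodF ℓ F) (h : Bd N b) (he : IsIdem e) {R : Subgroup G}
    (hNR : N ≤ R) (hpos : Pos ℓ e R) {x : G} (hxR : x ∈ R) (hxT : x ∈ st b)
    (hl : ¬ ℓ ∣ Nat.card (Subgroup.centralizer ({x} : Set G) ⊓ (R ⊓ st b) : Subgroup G)) :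
    ∃ n : ℕ, (mulF (clsum F (R ⊓ st b) x))^[n] (mulF e b) = 0 := by
  classical
  have := Fintype.ofFinite G
  have := Fintype.ofFinite R
  have := Fintype.ofFinite (R ⊓ st b : Subgroup G)
  have hchar := hF.char
  set Q : Subgroup G := R ⊓ st b with hQ
  set c : F := (Nat.card (Subgroup.centralizer ({x} : Set G) ⊓ Q : Subgroup G) : F) with hc
  have hc0 : c ≠ 0 := by
    rw [hc, Ne, CharP.cast_eq_zero_iff F ℓ]
    exact hl
  have hxQ : x ∈ Q := ⟨hxR, hxT⟩
  set w : G → F := mulF b (dl F x) with hw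
  have hwR : ∀ y, y ∉ R → w y = 0 := by
    intro y hy
    rw [hw, mulF_dl_right, h.supp]
    intro h'
    apply hy
    have := R.mul_mem (hNR h') hxR
    rwa [inv_mul_cancel_right] at this
  have hnil := nil_trace hF he hpos hwR
  set u : MonoidAlgebra F G := ∑ r : R, ma (cj (r : G) w) with hu
  set k : MonoidAlgebra F G := ma (clsum F Q x) with hk
  set j : MonoidAlgebra F G := ma e * ma b with hj
  have hee : ma e * ma e = ma e := by rw [← ma_mul, he.2]
  have hbb : ma b * ma b = ma b := by rw [← ma_mul, h.idem]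
  have heb : Commute (ma e) (ma b) := commute_cl he.1 b
  have hjj : j * j = j := by
    calc j * j = ma e * (ma b * ma e) * ma b := by rw [hj]; simp only [mul_assoc]
      _ = ma e * (ma e * ma b) * ma b := by rw [heb.symm.eq]
      _ = (ma e * ma e) * (ma b * ma b) := by simp only [mul_assoc]
      _ = j := by rw [hee, hbb]
  -- `j u = c j k`
  have hju : j * u = c • (j * k) := by
    have h1 : ∀ r : R, j * ma (cj (r : G) w) =
        if (r : G) ∈ st b then j * ma (dl F ((r : G) * x * (r : G)⁻¹)) else 0 := by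
      intro r
      have h2 : cj (r : G) w = mulF (cj (r : G) b) (dl F ((r : G) * x * (r : G)⁻¹)) := by
        rw [hw, cj_mulF, cj_dl]
      rw [h2, ma_mul, ← mul_assoc]
      by_cases hr : (r : G) ∈ st b
      · rw [if_pos hr, mem_st.1 hr, hj, mul_assoc (ma e), hbb]
      · rw [if_neg hr, hj, mul_assoc (ma e), ← ma_mul b, h.orth hr, ma_zero, mul_zero, zero_mul]
    rw [hu, Finset.mul_sum, Finset.sum_congr rfl (fun r _ => h1 r), ← Finset.sum_filter]
    have h3 := ma_sum_dl_conj (F := F) Q x
    rw [← hc, ← hk] at h3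
    rw [← mul_smul_comm, ← h3, Finset.mul_sum]
    apply Finset.sum_bij (fun (r : R) (hr : r ∈ Finset.univ.filter (fun r : R => (r : G) ∈ st b)) =>
      (⟨r, r.2, (Finset.mem_filter.1 hr).2⟩ : Q))
    · intro r _
      exact Finset.mem_univ _
    · intro r _ r' _ h'
      apply Subtype.ext
      exact congrArg (fun q : Q => (q : G)) h'
    · intro q _
      exact ⟨⟨q, q.2.1⟩, Finset.mem_filter.2 ⟨Finset.mem_univ _, q.2.2⟩, rfl⟩
    · intro r _
      rfl
  -- commutation
  have hkj : Commute k j := by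
    have h1 : Commute k (ma b) := commute_of (clsum_supp hxQ) (fun q hq => mem_st.1 hq.2)
    exact (commute_cl he.1 _).symm.mul_right h1
  have huj : Commute u j := by
    have h1 : Commute u (ma b) := by
      have h2 : ma (fun y => ∑ r : R, cj (r : G) w y) = u := by
        rw [hu]
        exact ma_finsum Finset.univ (fun r : R => cj (r : G) w)
      rw [← h2]
      symm
      apply commute_of (K := N) h.supp
      intro n hn
      funext y
      unfold cj
      change ∑ r : R, w ((r : G)⁻¹ * (n⁻¹ * y * n) * r) = ∑ r : R, w ((r : G)⁻¹ * y * r)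
      let φ : R ≃ R := Equiv.mulLeft ⟨n, hNR hn⟩
      rw [← Equiv.sum_comp φ.symm]
      apply Finset.sum_congr rfl
      intro r _
      congr 1
      change (n⁻¹ * (r : G))⁻¹ * (n⁻¹ * y * n) * (n⁻¹ * (r : G)) = _
      group
    have h3 : Commute u (ma e) := by
      rw [hu]
      apply Commute.sum_left
      intro r _
      exact (commute_cl he.1 _).symm
    exact h3.mul_right h1
  obtain ⟨n, hn⟩ := hnil
  refine ⟨n + 1, ?_⟩
  apply ma_injective
  rw [ma_iterate, ma_zero, ma_mul, ← hk, ← hj]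
  have hpow : ∀ m : ℕ, c ^ m • (j * k ^ m) = j * u ^ m := by
    intro m
    induction m with
    | zero => rw [pow_zero, pow_zero, pow_zero, one_smul]
    | succ m ih =>
      calc c ^ (m + 1) • (j * k ^ (m + 1))
          = c • c ^ m • (j * k ^ m * k) := by
            rw [pow_succ' c, mul_smul, pow_succ k, mul_assoc j (k ^ m) k]
        _ = c • (c ^ m • (j * k ^ m) * k) := by rw [smul_mul_assoc]
        _ = c • (j * u ^ m * k) := by rw [ih]
        _ = c • (u ^ m * (j * k)) := by rw [(huj.pow_left m).symm.eq, mul_assoc]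
        _ = u ^ m * (j * u) := by rw [hju, mul_smul_comm]
        _ = u ^ m * (u * j) := by rw [huj.eq]
        _ = u ^ (m + 1) * j := by rw [← mul_assoc, ← pow_succ]
        _ = j * u ^ (m + 1) := (huj.pow_left (m + 1)).eq
  have hzero : j * u ^ (n + 1) = 0 := by
    have h1 : Commute (ma e) u := by
      rw [hu]
      apply Commute.sum_right
      intro r _
      exact commute_cl he.1 _
    have h2 : (ma e * u) ^ (n + 1) = 0 := by rw [pow_succ, hn, zero_mul]
    have h3 : ∀ m : ℕ, ma e ^ (m + 1) = ma e := by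
      intro m
      induction m with
      | zero => rw [zero_add, pow_one]
      | succ m ih => rw [pow_succ, ih, hee]
    rw [h1.mul_pow, h3] at h2
    rw [hj, heb.eq, mul_assoc, h2, mul_zero]
  have h4 := hpow (n + 1)
  rw [hzero] at h4
  have h5 := (smul_eq_zero.1 h4).resolve_left (pow_ne_zero _ hc0)
  rw [(hkj.pow_left (n + 1)).eq, h5]

/-- POS4: positivity for the stabiliser -/
theorem Bd.pos {ℓ : ℕ} (hF : GoodF ℓ F) (h : Bd N b) (he : IsIdem e) {R : Subgroup G}
    (hNR : N ≤ R) (hpos : Pos ℓ e R) :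
    Pos ℓ (fun t : st b => mulF e b t) (R.subgroupOf (st b)) := by
  intro x hx hl
  have hxR : (x : G) ∈ R := hx
  have hmap : (Subgroup.centralizer ({(x : G)} : Set G) ⊓ (R ⊓ st b) : Subgroup G) =
      (Subgroup.centralizer ({x} : Set (st b)) ⊓ R.subgroupOf (st b)).map (st b).subtype := by
    ext y
    rw [Subgroup.mem_map, Subgroup.mem_inf, Subgroup.mem_inf,
      Subgroup.mem_centralizer_singleton_iff]
    constructor
    · rintro ⟨h1, h2, h3⟩
      refine ⟨⟨y, h3⟩, ⟨?_, h2⟩, rfl⟩
      change (⟨y, h3⟩ : st b) ∈ Subgroup.centralizer ({x} : Set (st b))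
      rw [Subgroup.mem_centralizer_singleton_iff]
      exact Subtype.ext h1
    · rintro ⟨z, ⟨h1, h2⟩, rfl⟩
      refine ⟨?_, h2, z.2⟩
      have h1' : z ∈ Subgroup.centralizer ({x} : Set (st b)) := h1
      rw [Subgroup.mem_centralizer_singleton_iff] at h1'
      exact congrArg Subtype.val h1'
  have hcard : Nat.card (Subgroup.centralizer ({(x : G)} : Set G) ⊓ (R ⊓ st b) : Subgroup G) =
      Nat.card (Subgroup.centralizer ({x} : Set (st b)) ⊓ R.subgroupOf (st b) :
        Subgroup (st b)) := by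
    rw [hmap, Subgroup.card_map_of_injective (st b).subtype_injective]
  obtain ⟨n, hn⟩ := h.pos_aux hF he hNR hpos hxR x.2 (by rw [hcard]; exact hl)
  refine ⟨n, ?_⟩
  have hcl : (fun t : st b => clsum F (R ⊓ st b) (x : G) t) =
      clsum F (R.subgroupOf (st b)) x := by
    funext t
    have e1 : (∃ q ∈ R ⊓ st b, (t : G) = q * x * q⁻¹) ↔
        ∃ q ∈ R.subgroupOf (st b), t = q * x * q⁻¹ := by
      constructor
      · rintro ⟨q, hq, h'⟩
        exact ⟨⟨q, hq.2⟩, hq.1, Subtype.ext h'⟩
      · rintro ⟨q, hq, h'⟩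
        exact ⟨q, ⟨hq, q.2⟩, congrArg Subtype.val h'⟩
    unfold clsum
    by_cases h' : ∃ q ∈ R ⊓ st b, (t : G) = q * x * q⁻¹
    · rw [if_pos h', if_pos (e1.1 h')]
    · rw [if_neg h', if_neg (fun h'' => h' (e1.2 h''))]
  have hsupp : ∀ z, z ∉ st b → clsum F (R ⊓ st b) (x : G) z = 0 := by
    intro z hz
    exact clsum_supp (Q := R ⊓ st b) ⟨hxR, x.2⟩ z (fun h' => hz h'.2)
  have hiter : ∀ m : ℕ, (mulF (clsum F (R.subgroupOf (st b)) x))^[m]
      (fun t : st b => mulF e b t) =
      fun t : st b => ((mulF (clsum F (R ⊓ st b) (x : G)))^[m] (mulF e b)) t := by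
    intro m
    induction m with
    | zero => rfl
    | succ m ih =>
      rw [Function.iterate_succ_apply', ih, Function.iterate_succ_apply',
        mulF_res (st b) _ hsupp, hcl]
  rw [hiter, hn]
  rfl

end pos

end Pool.Agent.PP.H75
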