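import Pool.Agent.Helper75_PP.Quo
import Pool.Agent.Helper75_PP.PosT
import Pool.Agent.Helper83_WRA.Pos

/-!
# Squad PP: positivity of the image of a block idempotent modulo a central `O_ℓ(G)`
-/

open scoped BigOperators

set_option linter.unusedSectionVars false

noncomputable section

namespace Pool.Agent.PP.H75

open Pool.Agent.Helper51_AWC Pool.Agent.Helper79_WRA Pool.Agent.PP

section posc

variable {A B : Type} [Group A] [Group B] [Finite A] [Finite B]

/-- the order of the centraliser of a lift -/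
theorem card_cent_lift {p : A →* B} (hp : Function.Surjective p)
    (hc : p.ker ≤ Subgroup.center A) (x : A) :
    ∃ m, Nat.card (Subgroup.centralizer ({x} : Set A)) = Nat.card p.ker * m ∧
      m ∣ Nat.card (Subgroup.centralizer ({p x} : Set B)) := by
  set C := Subgroup.centralizer ({x} : Set A) with hC
  refine ⟨Nat.card (C.map p), ?_, ?_⟩
  · have h1 : (C.map p).comap p = C := by
      apply Subgroup.comap_map_eq_self
      intro u hu
      rw [hC, Subgroup.mem_centralizer_singleton_iff]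
      exact ((Subgroup.mem_center_iff.1 (hc hu)) x).symm
    rw [← card_comap hp, h1]
  · apply Subgroup.card_dvd_of_le
    rintro _ ⟨y, hy, rfl⟩
    have hy' : y ∈ Subgroup.centralizer ({x} : Set A) := hy
    rw [Subgroup.mem_centralizer_singleton_iff] at hy' ⊢
    rw [← map_mul, hy', map_mul]

/-- two conjugates of `x` with the same image are equal -/
theorem lift_unique {ℓ : ℕ} (hℓ : ℓ.Prime) {p : A →* B} (hk : IsPGroup ℓ p.ker)
    (hc : p.ker ≤ Subgroup.center A) {x : A}
    (hx : ¬ ℓ ∣ Nat.card (Subgroup.centralizer ({p x} : Set B))) {y z : A}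
    (h : p (y * x * y⁻¹) = p (z * x * z⁻¹)) : y * x * y⁻¹ = z * x * z⁻¹ := by
  set w := z⁻¹ * y with hw
  -- `w x w⁻¹ = x u` with `u` in the kernel
  set u := x⁻¹ * (w * x * w⁻¹) with hu
  have hwx : w * x * w⁻¹ = x * u := by rw [hu, mul_inv_cancel_left]
  have hpw : p w * p x * (p w)⁻¹ = p x := by
    have h1 : p w * p x * (p w)⁻¹ = (p z)⁻¹ * p (y * x * y⁻¹) * p z := by
      rw [hw]
      simp only [map_mul, map_inv]
      group
    rw [h1, h]
    simp only [map_mul, map_inv]
    group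
  have huk : u ∈ p.ker := by
    rw [MonoidHom.mem_ker, hu]
    simp only [map_mul, map_inv]
    rw [hpw, inv_mul_cancel]
  have huc : ∀ g, g * u = u * g := fun g => Subgroup.mem_center_iff.1 (hc huk) g
  -- powers of `w`
  have hpow : ∀ n : ℕ, w ^ n * x * (w ^ n)⁻¹ = x * u ^ n := by
    intro n
    induction n with
    | zero => rw [pow_zero, pow_zero, one_mul, inv_one]
    | succ n ih =>
      have e1 : w ^ (n + 1) * x * (w ^ (n + 1))⁻¹ = w * (w ^ n * x * (w ^ n)⁻¹) * w⁻¹ := by
        rw [pow_succ']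
        group
      rw [e1, ih]
      have hcn : Commute w (u ^ n) := Commute.pow_right (huc w) n
      calc w * (x * u ^ n) * w⁻¹ = w * x * (u ^ n * w⁻¹) := by group
        _ = w * x * (w⁻¹ * u ^ n) := by rw [(hcn.inv_left).eq]
        _ = (w * x * w⁻¹) * u ^ n := by group
        _ = x * u ^ (n + 1) := by rw [hwx, pow_succ', mul_assoc]
  set m := Nat.card (Subgroup.centralizer ({p x} : Set B)) with hm
  have hwm : w ^ m ∈ p.ker := by
    have hmem : p w ∈ Subgroup.centralizer ({p x} : Set B) := by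
      rw [Subgroup.mem_centralizer_singleton_iff]
      exact mul_inv_eq_iff_eq_mul.1 hpw
    have h1 : (⟨p w, hmem⟩ : Subgroup.centralizer ({p x} : Set B)) ^ m = 1 := pow_card_eq_one'
    rw [MonoidHom.mem_ker, map_pow]
    exact congrArg Subtype.val h1
  have hum : u ^ m = 1 := by
    have h1 := hpow m
    have h2 : w ^ m * x * (w ^ m)⁻¹ = x := by
      have h3 := Subgroup.mem_center_iff.1 (hc hwm) x
      rw [← h3, mul_inv_cancel_right]
    rw [h2] at h1
    exact (mul_eq_left.1 h1.symm)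
  obtain ⟨k, hk⟩ := hk ⟨u, huk⟩
  have huk' : u ^ ℓ ^ k = 1 := congrArg Subtype.val hk
  have hcop : Nat.Coprime m (ℓ ^ k) :=
    Nat.Coprime.pow_right _ ((Nat.Prime.coprime_iff_not_dvd hℓ).2 hx).symm
  have hu1 : u = 1 := by
    rw [← orderOf_eq_one_iff, ← Nat.dvd_one, ← hcop.gcd_eq_one]
    exact Nat.dvd_gcd (orderOf_dvd_of_pow_eq_one hum) (orderOf_dvd_of_pow_eq_one huk')
  rw [hu1, mul_one] at hwx
  calc y * x * y⁻¹ = z * (w * x * w⁻¹) * z⁻¹ := by rw [hw]; group
    _ = z * x * z⁻¹ := by rw [hwx]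

/-- the image of a class sum -/
theorem push_clsum {F : Type} [Field F] {ℓ : ℕ} (hℓ : ℓ.Prime) {p : A →* B}
    (hp : Function.Surjective p) (hk : IsPGroup ℓ p.ker) (hc : p.ker ≤ Subgroup.center A) {x : A}
    (hx : ¬ ℓ ∣ Nat.card (Subgroup.centralizer ({p x} : Set B))) :
    push p (clsum F ⊤ x) = clsum F ⊤ (p x) := by
  classical
  have := Fintype.ofFinite A
  funext y
  rw [push_eq]
  by_cases h : ∃ q ∈ (⊤ : Subgroup B), y = q * p x * q⁻¹
  · obtain ⟨q, _, rfl⟩ := h
    obtain ⟨g, rfl⟩ := hp q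
    rw [Finset.sum_eq_single (g * x * g⁻¹)]
    · rw [if_pos (by rw [map_mul, map_mul, map_inv]), clsum, clsum, if_pos, if_pos]
      · exact ⟨p g, Subgroup.mem_top _, rfl⟩
      · exact ⟨g, Subgroup.mem_top _, rfl⟩
    · intro z _ hz
      by_cases h1 : p z = p g * p x * (p g)⁻¹
      · rw [if_pos h1, clsum, if_neg]
        rintro ⟨r, _, rfl⟩
        apply hz
        apply lift_unique hℓ hk hc hx
        rw [h1, map_mul, map_mul, map_inv]
      · rw [if_neg h1]
    · intro h'
      exact absurd (Finset.mem_univ _) h'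
  · rw [clsum, if_neg h]
    apply Finset.sum_eq_zero
    intro z _
    by_cases h1 : p z = y
    · rw [if_pos h1, clsum, if_neg]
      rintro ⟨r, _, rfl⟩
      apply h
      refine ⟨p r, Subgroup.mem_top _, ?_⟩
      rw [← h1, map_mul, map_mul, map_inv]
    · rw [if_neg h1]

/-- the label of a block of large defect vanishes at the lifts of the elements of defect zero -/
theorem label_zero {ℓ : ℕ} (hℓ : ℓ.Prime) (M : Ideal (integralClosure ℤ ℂ)) [M.IsMaximal]
    (hM : (ℓ : integralClosure ℤ ℂ) ∈ M) {p : A →* B} (hp : Function.Surjective p)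
    (hkO : p.ker = opCore ℓ A) (hc : p.ker ≤ Subgroup.center A) {χ : A → ℂ} (hχ : χ ∈ Irr A)
    (hL : LargeDefect ℓ M χ) {x : A}
    (hx : ¬ ℓ ∣ Nat.card (Subgroup.centralizer ({p x} : Set B))) : labF M χ x = 0 := by
  have := Fintype.ofFinite A
  have hMp : M.IsPrime := (inferInstance : M.IsMaximal).isPrime
  obtain ⟨ψ, hψ, hψχ, n, hn, hdvd⟩ := hL
  have h1 : labF M χ x = red M (omega (MonoidHom.id A) ψ x) := by
    symm
    exact (red_eq_iff (omega_integral _ hψ x) (omega_integral _ hχ x)).2 (hψχ x)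
  rw [h1]
  apply H83.red_zero_of_cong
  obtain ⟨k, hk⟩ := hdvd
  obtain ⟨m, hm1, hm2⟩ := card_cent_lift hp hc x
  have hcod := H83.codeg_mul hψ x
  have hn0 : (n : ℂ) ≠ 0 := by rw [← hn]; exact irr_one_ne hψ
  have hU0 : (Nat.card p.ker : ℂ) ≠ 0 := by
    exact_mod_cast (Nat.card_pos (α := p.ker)).ne'
  have e1 : ((m : ℕ) : ℂ) * omega (MonoidHom.id A) ψ x = ((ℓ * k : ℕ) : ℂ) * ψ x := by
    have e2 : (Fintype.card A : ℂ) / ψ 1 = (ℓ : ℂ) * (Nat.card p.ker : ℂ) * k := by
      rw [hn, ← Nat.card_eq_fintype_card, hk, ← hkO]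
      push_cast
      field_simp
    have e3 : (Nat.card (Subgroup.centralizer {x} : Subgroup A) : ℂ) =
        (Nat.card p.ker : ℂ) * m := by
      rw [hm1]
      push_cast
      rfl
    rw [e2, e3] at hcod
    apply mul_left_cancel₀ hU0
    push_cast
    linear_combination -hcod
  have h2 : Cong M (((m : ℕ) : ℂ) * omega (MonoidHom.id A) ψ x) 0 := by
    rw [e1]
    exact (cong_nat_of_dvd hM (dvd_mul_right _ _)).mul_zero_right (irr_integral hψ x)
  rcases cong_mul_zero (AI.natCast _) (omega_integral _ hψ x) h2 with h3 | h3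
  · exact absurd ((dvd_of_cong_nat hℓ hM h3).trans hm2) hx
  · exact h3

end posc

end Pool.Agent.PP.H75
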