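import Pool.Agent.Helper75_PP.Blk
import Pool.Agent.Helper75_PP.PosC
import Pool.Agent.Helper75_PP.AltC
import Pool.Agent.Helper51_AWC.ProdSum

/-!
# Squad PP, module FIN: from ordinary characters to `ℓ`-numbers
-/

open scoped BigOperators

set_option linter.unusedSectionVars false

noncomputable section

namespace Pool.Agent.PP.H75

open Pool.Agent.Helper51_AWC Pool.Agent.Helper79_WRA Pool.Agent.PP

section fin0

variable {M : Ideal (integralClosure ℤ ℂ)} {A B : Type} [Group A] [Finite A] [Group B] [Finite B]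

/-- positivity of the image of a block of large defect -/
theorem pos_push {ℓ : ℕ} (hℓ : ℓ.Prime) [M.IsMaximal] (hM : (ℓ : integralClosure ℤ ℂ) ∈ M)
    {p : A →* B} (hp : Function.Surjective p) (hkO : p.ker = opCore ℓ A)
    (hk : IsPGroup ℓ p.ker) (hc : p.ker ≤ Subgroup.center A) :
    letI := Ideal.Quotient.field M
    ∀ {χ : A → ℂ}, χ ∈ Irr A → ∀ {e : A → FF M}, IsBlk e → res M e χ = 1 →
      LargeDefect ℓ M χ → Pos ℓ (push p e) (⊤ : Subgroup B) := by
  let _ := Ideal.Quotient.field M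
  intro χ hχ e he he1 hL y _ hy
  obtain ⟨x, rfl⟩ := hp y
  rw [inf_top_eq] at hy
  have h1 : res M (clsum (FF M) ⊤ x) χ = 0 := by
    rw [res_clsum x]
    exact label_zero hℓ M hM hp hkO hc hχ hL hy
  have hcl : IsCl (clsum (FF M) ⊤ x) := by
    intro z g
    have := congrFun (clsum_inv (F := FF M) (Q := (⊤ : Subgroup A)) x g⁻¹ (Subgroup.mem_top _)) z
    rw [cj, inv_inv] at this
    exact this
  obtain ⟨n, hn⟩ := nilp hχ he he1 hcl h1
  refine ⟨n, ?_⟩
  rw [← push_clsum hℓ hp hk hc hy, ← push_iterate, hn, push_zero]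

theorem push_id {F : Type} [Field F] (a : A → F) : push (MonoidHom.id A) a = a := by
  classical
  have := Fintype.ofFinite A
  funext y
  rw [push_eq, Finset.sum_eq_single y]
  · rw [if_pos (MonoidHom.id_apply A y)]
  · intro x _ hx
    rw [if_neg]
    exact hx
  · intro h
    exact absurd (Finset.mem_univ _) h

theorem opCore_normal (ℓ : ℕ) : (opCore ℓ A).Normal := by
  constructor
  intro n hn g
  have h := opCore_conj ℓ g
  rw [← h, mem_conjS]
  have e : g⁻¹ * (g * n * g⁻¹) * g = n := by group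
  rw [e]
  exact hn

theorem opCore_isPGroup {ℓ : ℕ} (hℓ : ℓ.Prime) : IsPGroup ℓ (opCore ℓ A) := by
  have := Fact.mk hℓ
  exact (opCore_spec ℓ A).2.1

/-- For a block of large defect of a group with central `O_ℓ` : the alternating sum is a multiple
of the alternating sum of a positive idempotent of the quotient. -/
theorem central_case (nls : NlsStmt) (brm : BrmStmt) (smt : SmtStmt) (nch : NchStmt)
    (dic : DicStmt) (bid : BidStmt) (fld : FldStmt) {ℓ : ℕ} (hℓ : ℓ.Prime) [M.IsMaximal]
    (hM : (ℓ : integralClosure ℤ ℂ) ∈ M) (hc : opCore ℓ A ≤ Subgroup.center A) :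
    letI := Ideal.Quotient.field M
    ∀ {χ : A → ℂ}, χ ∈ Irr A → LargeDefect ℓ M χ →
      ∃ (B : Type) (_ : Group B) (_ : Finite B) (p : A →* B) (e : B → FF M),
        Function.Surjective p ∧ IsIdem e ∧ Pos ℓ e ⊤ ∧
          (Nat.card A : ℤ) * altSum ℓ M χ = (Nat.card p.ker : ℤ) ^ 2 * YY ℓ (⊤ : Subgroup B) e := by
  let _ := Ideal.Quotient.field M
  intro χ hχ hL
  have hF : GoodF ℓ (FF M) := fld ℓ hℓ M hM
  have hn := opCore_normal (A := A) ℓ
  obtain ⟨e, he, h1, h2⟩ := bid ℓ hℓ M hM A χ hχ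
  have hker : (QuotientGroup.mk' (opCore ℓ A)).ker = opCore ℓ A := QuotientGroup.ker_mk' _
  have hsurj := QuotientGroup.mk'_surjective (opCore ℓ A)
  have hkp : IsPGroup ℓ (QuotientGroup.mk' (opCore ℓ A)).ker := by
    rw [hker]
    exact opCore_isPGroup hℓ
  have hkc : (QuotientGroup.mk' (opCore ℓ A)).ker ≤ Subgroup.center A := by
    rw [hker]
    exact hc
  exact ⟨A ⧸ opCore ℓ A, inferInstance, inferInstance, QuotientGroup.mk' (opCore ℓ A),
    push (QuotientGroup.mk' (opCore ℓ A)) e, hsurj, push_isIdem hsurj he.1,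
    pos_push hℓ hM hsurj hker hkp hkc hχ he h1 hL,
    altSum_central nls brm smt nch dic hℓ M hM hF hsurj hker hkp hkc χ hχ e he h1 h2⟩

/-- The characters of a block idempotent of positive defect. -/
theorem block_case (nls : NlsStmt) (brm : BrmStmt) (smt : SmtStmt) (nch : NchStmt)
    (dic : DicStmt) (bid : BidStmt) (chp : ChpStmt) (ldp : LdpStmt) (fld : FldStmt) {ℓ : ℕ}
    (hℓ : ℓ.Prime) [M.IsMaximal] (hM : (ℓ : integralClosure ℤ ℂ) ∈ M) (hO : opCore ℓ A = ⊥) :
    letI := Ideal.Quotient.field M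
    ∀ {f : A → FF M}, IsBlk f → Pos ℓ f ⊤ → ∃ χ ∈ Irr A, res M f χ = 1 ∧ LargeDefect ℓ M χ ∧
      (Nat.card A : ℤ) * altSum ℓ M χ = YY ℓ ⊤ f := by
  let _ := Ideal.Quotient.field M
  intro f hf hpos
  have hF : GoodF ℓ (FF M) := fld ℓ hℓ M hM
  obtain ⟨χ, hχ, h1, h2⟩ := blk_char chp bid hℓ hM hf
  have hker : (MonoidHom.id A).ker = opCore ℓ A := by
    rw [hO, MonoidHom.ker_id]
  have hkp : IsPGroup ℓ (MonoidHom.id A).ker := by
    rw [MonoidHom.ker_id]
    exact IsPGroup.of_bot
  have hkc : (MonoidHom.id A).ker ≤ Subgroup.center A := by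
    rw [MonoidHom.ker_id]
    exact bot_le
  have h3 := altSum_central nls brm smt nch dic hℓ M hM hF (p := MonoidHom.id A)
    Function.surjective_id hker hkp hkc χ hχ f hf h1 h2
  rw [MonoidHom.ker_id, Subgroup.card_bot, push_id, Nat.cast_one, one_pow, one_mul] at h3
  exact ⟨χ, hχ, h1, (ldp ℓ hℓ M hM A hO χ hχ f hf h1).2 hpos, h3⟩

theorem res_smul [M.IsMaximal] {χ : A → ℂ} :
    letI := Ideal.Quotient.field M
    ∀ (c : FF M) (a : A → FF M), res M (fun x => c * a x) χ = c * res M a χ := by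
  let _ := Ideal.Quotient.field M
  intro c a
  unfold res
  rw [mul_finsum]
  apply finsum_congr
  intro K
  rw [mul_assoc]

/-- `res` at a central element -/
theorem res_dl [M.IsMaximal] {χ : A → ℂ} (hχ : χ ∈ Irr A) {z : A} (hz : z ∈ Subgroup.center A)
    (h1 : χ z = χ 1) : letI := Ideal.Quotient.field M
    IsCl (dl (FF M) z) ∧ res M (dl (FF M) z) χ = 1 := by
  classical
  let _ := Ideal.Quotient.field M
  have := Fintype.ofFinite A
  have hconj : ∀ g h : A, h * g * h⁻¹ = z ↔ g = z := by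
    intro g h
    have hzc := Subgroup.mem_center_iff.1 hz
    constructor
    · intro h'
      have h2 : g = h⁻¹ * z * h := by rw [← h']; group
      rw [h2, hzc h⁻¹, inv_mul_cancel_right]
    · rintro rfl
      rw [hzc h, mul_inv_cancel_right]
  have hcl : IsCl (dl (FF M) z) := by
    intro x y
    unfold dl
    by_cases h : x = z
    · rw [if_pos h, if_pos ((hconj x y).2 h)]
    · rw [if_neg h, if_neg (fun h' => h ((hconj x y).1 h'))]
  refine ⟨hcl, ?_⟩
  obtain ⟨_, h2⟩ := res_eq_red (M := M) hχ (A := fun g => if g = z then (1 : ℂ) else 0) (by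
      intro g h
      by_cases h' : g = z
      · rw [if_pos h', if_pos ((hconj g h).2 h')]
      · rw [if_neg h', if_neg (fun h'' => h' ((hconj g h).1 h''))])
    (by
      intro g
      split_ifs
      · exact isIntegral_one
      · exact isIntegral_zero) (dl (FF M) z) (by
      intro g
      unfold dl
      split_ifs
      · exact red_one
      · exact red_zero)
  rw [h2]
  have h3 : wC (fun g => if g = z then (1 : ℂ) else 0) χ = 1 := by
    rw [wC, Finset.sum_eq_single z]
    · rw [if_pos rfl, one_mul, h1, div_self (irr_one_ne hχ)]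
    · intro b _ hb
      rw [if_neg hb, zero_mul]
    · intro h
      exact absurd (Finset.mem_univ _) h
  rw [h3, red_one]

/-- characters below an idempotent lying over a faithful character of the centre are faithful on
the centre -/
theorem faithful_char [M.IsMaximal] : letI := Ideal.Quotient.field M
    ∀ {e f : A → FF M}, IsBlk f → mulF e f = f →
      (∀ z ∈ Subgroup.center A, z ≠ 1 → ∃ c : FF M, c ≠ 1 ∧ ∀ x, e (z * x) = c * e x) →
      ∀ {χ : A → ℂ}, χ ∈ Irr A → res M f χ = 1 → ∀ z ∈ Subgroup.center A, χ z = χ 1 → z = 1 := by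
  let _ := Ideal.Quotient.field M
  intro e f hf hef hcl χ hχ hres z hz hχz
  by_contra hz1
  obtain ⟨c, hc1, hc⟩ := hcl z⁻¹ (Subgroup.inv_mem _ hz) (fun h => hz1 (inv_eq_one.1 h))
  obtain ⟨hdl, hdl1⟩ := res_dl (M := M) hχ hz hχz
  have h1 : mulF (dl (FF M) z) f = fun x => c * f x := by
    funext x
    rw [mulF_dl_left]
    have h2 : ∀ x, mulF e f (z⁻¹ * x) = c * mulF e f x := by
      intro x
      unfold mulF
      rw [mul_finsum, ← finsum_comp_equiv (Equiv.mulLeft z⁻¹)]
      apply finsum_congr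
      intro t
      change e (z⁻¹ * t) * f ((z⁻¹ * t)⁻¹ * (z⁻¹ * x)) = _
      rw [hc, mul_assoc]
      congr 2
      have hzc := Subgroup.mem_center_iff.1 hz
      rw [mul_inv_rev, inv_inv, mul_assoc, mul_inv_cancel_left]
    have h3 := h2 x
    rw [hef] at h3
    exact h3
  have h2 := res_mulF hχ hdl hf.1.1
  rw [h1, res_smul, hdl1, hres, mul_one, mul_one] at h2
  exact hc1 h2

end fin0

end Pool.Agent.PP.H75
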