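import Pool.Agent.Helper75_PP.Quo
import Pool.Agent.Helper97_PP.Kri
import Pool.Agent.Helper83_WRA.LabSum

/-!
# Squad PP: the theorem of Knörr and Robinson for chains starting at a central `ℓ`-subgroup
-/

open scoped BigOperators

set_option linter.unusedSectionVars false

noncomputable section

namespace Pool.Agent.PP.H75

open Pool.Agent.Helper51_AWC Pool.Agent.Helper79_WRA Pool.Agent.PP

section cen

variable {F A B : Type} [Field F] [Group A] [Group B] [Finite A] [Finite B]

theorem normalizer_comap {p : A →* B} (hp : Function.Surjective p) (D : Subgroup B) (x : A) :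
    x ∈ Subgroup.normalizer ((D.comap p : Subgroup A) : Set A) ↔
      p x ∈ Subgroup.normalizer (D : Set B) := by
  rw [mem_normalizer_iff_conjS, mem_normalizer_iff_conjS, conjS_comap]
  exact ⟨fun h => Subgroup.comap_injective hp h, fun h => by rw [h]⟩

/-- the facts on the preimages of a chain -/
theorem comap_facts {ℓ : ℕ} {p : A →* B} (hp : Function.Surjective p) (hk : IsPGroup ℓ p.ker)
    {d : Finset (Subgroup B)} (hd : d ∈ chainsOn (psubIn ℓ (⊤ : Subgroup B)) ⊥) :
    IsPGroup ℓ ((top d).comap p) ∧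
      Subgroup.centralizer (((top d).comap p : Subgroup A) : Set A) ≤ (stab d).comap p ∧
      (stab d).comap p ≤ Subgroup.normalizer (((top d).comap p : Subgroup A) : Set A) ∧
      (NormalChain d → (top d).comap p ≤ (stab d).comap p) := by
  obtain ⟨h1, h2, h3⟩ := mem_chainsOn.1 hd
  have ht := H97.top_mem h3 ⟨_, h2⟩
  refine ⟨(isPGroup_comap_iff hp hk _).2 (mem_psubIn'.1 (h1 ht)).2, ?_, ?_, ?_⟩
  · intro g hg
    rw [Subgroup.mem_comap]
    apply H97.cent_top_le
    rw [Subgroup.mem_centralizer_iff] at hg ⊢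
    intro y hy
    obtain ⟨x, rfl⟩ := hp y
    have := hg x hy
    rw [← map_mul, ← map_mul, this]
  · intro x hx
    rw [normalizer_comap hp]
    exact H97.stab_le ht hx
  · intro hn
    apply Subgroup.comap_mono
    intro x hx
    rw [H97.mem_stab]
    intro D hD
    exact hn D hD hx

open Classical in
/-- the theorem of Knörr and Robinson for the chains starting at the kernel of `p` -/
theorem kr_central (nls : NlsStmt) (brm : BrmStmt) (smt : SmtStmt) (nch : NchStmt) {ℓ : ℕ}
    (hF : GoodF ℓ F) {p : A →* B} (hp : Function.Surjective p) (hk : IsPGroup ℓ p.ker)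
    (hc : p.ker ≤ Subgroup.center A) {e : A → F} (he : IsIdem e) :
    ∑ d ∈ chainsOn (psubIn ℓ (⊤ : Subgroup B)) ⊥, (-1) ^ (d.card + 1) *
      ((Nat.card ((stab d).comap p) : ℤ) *
        (rk (fun t : (stab d).comap p => br ((top d).comap p) e t)
          (cfs F ((stab d).comap p)) : ℤ)) =
      (Nat.card p.ker : ℤ) ^ 2 * YY ℓ (⊤ : Subgroup B) (push p e) := by
  have := Fact.mk hF.prime
  have := Fintype.ofFinite A
  let W : Subgroup A → Subgroup A → ℤ := fun X R => (Nat.card X : ℤ) * (lnum X (br R e) : ℤ)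
  have h1 : ∀ d ∈ chainsOn (psubIn ℓ (⊤ : Subgroup B)) ⊥, (-1) ^ (d.card + 1) *
      ((Nat.card ((stab d).comap p) : ℤ) *
        (rk (fun t : (stab d).comap p => br ((top d).comap p) e t)
          (cfs F ((stab d).comap p)) : ℤ)) =
      ∑ u ∈ Finset.univ.filter (fun u : A => ∃ n : ℕ, u ^ ℓ ^ n = 1),
        if u ∈ (stab d).comap p then (-1) ^ (d.card + 1) *
          W (Subgroup.centralizer ({u} : Set A) ⊓ (stab d).comap p) ((top d).comap p) else 0 := by
    intro d hd
    obtain ⟨g1, g2, g3, _⟩ := comap_facts hp hk hd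
    have hid := (brm ℓ F hF A ((top d).comap p) ((stab d).comap p) g1 g2 g3).2.2 e he
    have h := H97.smt_sub smt hF ((stab d).comap p) (br ((top d).comap p) e) hid
    rw [← Nat.cast_mul, h, Nat.cast_sum, Finset.mul_sum]
    refine Finset.sum_congr rfl fun u _ => ?_
    by_cases hu : u ∈ (stab d).comap p
    · rw [if_pos hu, if_pos hu, Nat.cast_mul]
    · rw [if_neg hu, if_neg hu, Nat.cast_zero, mul_zero]
  rw [Finset.sum_congr rfl h1, Finset.sum_comm]
  -- the elements outside the kernel
  have h2 : ∀ u ∈ Finset.univ.filter (fun u : A => ∃ n : ℕ, u ^ ℓ ^ n = 1),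
      (∑ d ∈ chainsOn (psubIn ℓ (⊤ : Subgroup B)) ⊥,
        if u ∈ (stab d).comap p then (-1) ^ (d.card + 1) *
          W (Subgroup.centralizer ({u} : Set A) ⊓ (stab d).comap p) ((top d).comap p) else 0) =
      if u ∈ p.ker then ∑ d ∈ chainsOn (psubIn ℓ (⊤ : Subgroup B)) ⊥, (-1) ^ (d.card + 1) *
        W ((stab d).comap p) ((top d).comap p) else 0 := by
    intro u hu
    by_cases huk : u ∈ p.ker
    · rw [if_pos huk]
      refine Finset.sum_congr rfl fun d _ => ?_
      have e1 : u ∈ (stab d).comap p := by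
        rw [Subgroup.mem_comap, MonoidHom.mem_ker.1 huk]
        exact one_mem _
      have e2 : Subgroup.centralizer ({u} : Set A) = ⊤ := by
        rw [eq_top_iff]
        intro g _
        rw [Subgroup.mem_centralizer_singleton_iff]
        exact (Subgroup.mem_center_iff.1 (hc huk) g)
      rw [if_pos e1, e2, top_inf_eq]
    · rw [if_neg huk]
      have hpu : p u ≠ 1 := fun h => huk (MonoidHom.mem_ker.2 h)
      have hpl : ∃ n : ℕ, p u ^ ℓ ^ n = 1 := by
        obtain ⟨n, hn⟩ := (Finset.mem_filter.1 hu).2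
        exact ⟨n, by rw [← map_pow, hn, map_one]⟩
      let W' : Subgroup B → Subgroup B → ℤ := fun X R =>
        W (Subgroup.centralizer ({u} : Set A) ⊓ X.comap p) (R.comap p)
      have hsup : ∀ R : Subgroup B, (Subgroup.zpowers (p u) ⊔ R).comap p =
          Subgroup.zpowers u ⊔ R.comap p := by
        intro R
        have e1 : Subgroup.zpowers (p u) ⊔ R = (Subgroup.zpowers u ⊔ R.comap p).map p := by
          rw [Subgroup.map_sup, MonoidHom.map_zpowers, Subgroup.map_comap_eq_self_of_surjective hp]
        rw [e1]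
        apply Subgroup.comap_map_eq_self
        refine le_trans ?_ le_sup_right
        rw [← MonoidHom.comap_bot]
        exact Subgroup.comap_mono bot_le
      have hW : ∀ X R : Subgroup B, X ≤ Subgroup.centralizer ({p u} : Set B) →
          W' X (Subgroup.zpowers (p u) ⊔ R) = W' X R := by
        intro X R _
        change (Nat.card _ : ℤ) * (lnum _ (br ((Subgroup.zpowers (p u) ⊔ R).comap p) e) : ℤ) =
          (Nat.card _ : ℤ) * (lnum _ (br (R.comap p) e) : ℤ)
        rw [hsup, H97.lnum_congr (Subgroup.centralizer ({u} : Set A) ⊓ X.comap p)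
          (fun t ht => H97.br_sup ht.1 (R.comap p) e)]
      have h3 := H97.cancel (p u) hpl hpu W' hW
      refine Eq.trans ?_ h3
      rw [Finset.sum_filter]
      refine Finset.sum_congr rfl fun d _ => ?_
      have e3 : Subgroup.centralizer ({u} : Set A) ⊓
          (Subgroup.centralizer ({p u} : Set B) ⊓ stab d).comap p =
          Subgroup.centralizer ({u} : Set A) ⊓ (stab d).comap p := by
        ext g
        rw [Subgroup.mem_inf, Subgroup.mem_inf, Subgroup.mem_comap, Subgroup.mem_inf,
          Subgroup.mem_comap]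
        constructor
        · rintro ⟨k1, k2, k3⟩
          exact ⟨k1, k3⟩
        · rintro ⟨k1, k3⟩
          refine ⟨k1, ?_, k3⟩
          rw [Subgroup.mem_centralizer_singleton_iff] at k1 ⊢
          rw [← map_mul, k1, map_mul]
      change _ = if p u ∈ stab d then (-1) ^ (d.card + 1) * W (Subgroup.centralizer ({u} : Set A) ⊓
        (Subgroup.centralizer ({p u} : Set B) ⊓ stab d).comap p) ((top d).comap p) else 0
      rw [e3]
      rfl
  rw [Finset.sum_congr rfl h2, ← Finset.sum_filter, Finset.sum_const]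
  have h4 : ((Finset.univ.filter (fun u : A => ∃ n : ℕ, u ^ ℓ ^ n = 1)).filter
      (fun u => u ∈ p.ker)).card = Nat.card p.ker := by
    rw [← Set.ncard_coe_finset, ← Nat.card_coe_set_eq]
    congr 1
    have : ((((Finset.univ.filter (fun u : A => ∃ n : ℕ, u ^ ℓ ^ n = 1)).filter
      (fun u => u ∈ p.ker) : Finset A)) : Set A) = (p.ker : Set A) := by
      ext u
      rw [Finset.mem_coe, Finset.mem_filter, Finset.mem_filter]
      constructor
      · rintro ⟨_, h⟩
        exact h
      · intro h
        obtain ⟨n, hn⟩ := hk ⟨u, h⟩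
        exact ⟨⟨Finset.mem_univ _, n, congrArg Subtype.val hn⟩, h⟩
    rw [this]
    rfl
  rw [h4, nsmul_eq_mul, pow_two, mul_assoc]
  congr 1
  -- the remaining sum
  have h5 := nch ℓ B ⊤ (fun X R => W (X.comap p) (R.comap p))
  have h6 := nch ℓ B ⊤ (fun X _ => (Nat.card X : ℤ) * (lnum X (push p e) : ℤ))
  rw [h5, YY, h6, Finset.mul_sum]
  refine Finset.sum_congr rfl fun d hd => ?_
  rw [Finset.mem_filter] at hd
  obtain ⟨g1, g2, g3, g4⟩ := comap_facts hp hk hd.1
  change (-1) ^ (d.card + 1) * ((Nat.card ((stab d).comap p) : ℤ) *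
    (lnum ((stab d).comap p) (br ((top d).comap p) e) : ℤ)) = _
  rw [H97.lnum_br nls hF he.1 _ _ g1 (g4 hd.2) g3, lnum_comap nls hF hp hk, card_comap hp,
    Nat.cast_mul]
  ring

end cen

end Pool.Agent.PP.H75
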