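import Pool.Agent.Helper75_PP.Fin0
import Pool.Agent.Helper94_PP.LemP
import Pool.Agent.Helper74_PP.Cen
import Pool.Agent.Helper96_PP.Lqv

/-!
# Squad PP, the relative form of the final theorem, step (R4)

Positivity over the image of a normal subgroup, modulo a central `O_ℓ(G)`.
-/

open scoped BigOperators

set_option linter.unusedSectionVars false

noncomputable section

namespace Pool.Agent.PP

open Pool.Agent.Helper51_AWC Pool.Agent.Helper79_WRA

/-- (R3) Lemma Q: the blocks of a normal subgroup under a block of the group. -/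
def LemQStmt : Prop := ∀ (M : Ideal (integralClosure ℤ ℂ)) [M.IsMaximal],
  letI := Ideal.Quotient.field M
  ∀ (G : Type) [Group G] [Finite G] (N : Subgroup G), N.Normal → ∀ e : G → FF M, IsBlk e →
  ∀ χ ∈ Irr G, res M e χ = 1 → ∀ ψ ∈ Irr N,
  (∑ᶠ n : N, χ n * starRingEnd ℂ (ψ n)) ≠ 0 →
  ∀ b b' : N → FF M, IsBlk b → res M b ψ = 1 → IsBlk b' → mulF e (ext0 N b') ≠ 0 →
  ∃ g : G, ∀ n : N, b' n = ext0 N b (g * n * g⁻¹)

namespace H75

section relc

variable {F A B : Type} [Field F] [Group A] [Finite A] [Group B] [Finite B]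

/-- `O_ℓ` of a normal subgroup -/
theorem opCore_sub {ℓ : ℕ} (hℓ : ℓ.Prime) {N : Subgroup A} (hN : N.Normal) :
    opCore ℓ N = (opCore ℓ A).subgroupOf N := by
  have hfact := Fact.mk hℓ
  obtain ⟨o1, o2, o3⟩ := opCore_spec ℓ N
  obtain ⟨a1, a2, a3⟩ := opCore_spec ℓ A
  apply le_antisymm
  · have hn : ((opCore ℓ N).map N.subtype).Normal := by
      constructor
      intro x hx g
      obtain ⟨y, hy, rfl⟩ := hx
      have h1 := opCore_equiv ℓ (H96.conjN hN g)
      rw [mapE_apply] at h1
      have h2 : H96.conjN hN g y ∈ opCore ℓ N := by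
        rw [← h1]
        exact ⟨y, hy, rfl⟩
      exact ⟨H96.conjN hN g y, h2, rfl⟩
    have h3 := a3 _ hn (o2.map _)
    intro x hx
    exact h3 ⟨x, hx, rfl⟩
  · apply o3
    · have := opCore_normal (A := A) ℓ
      infer_instance
    · intro x
      obtain ⟨k, hk⟩ := a2 ⟨x.1.1, x.2⟩
      refine ⟨k, ?_⟩
      have h1 : (x.1.1 : A) ^ ℓ ^ k = 1 := congrArg Subtype.val hk
      apply Subtype.ext
      apply Subtype.ext
      exact h1

/-- `push` and `ext0` -/
theorem push_ext0 (p : A →* B) (N : Subgroup A) (b : N → F) :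
    push p (PP.ext0 N b) = PP.ext0 (N.map p) (push (p.subgroupMap N) b) := by
  classical
  have := Fintype.ofFinite A
  have := Fintype.ofFinite N
  funext y
  rw [push_eq]
  by_cases hy : y ∈ N.map p
  · rw [H46.ext0_of_mem _ hy, push_eq]
    symm
    apply Finset.sum_of_injOn (fun x : N => (x : A))
    · intro x _ x' _ h
      exact Subtype.ext h
    · intro x _
      exact Finset.mem_coe.2 (Finset.mem_univ _)
    · intro x _ hx
      by_cases h : p x = y
      · rw [if_pos h, H46.ext0_of_not_mem]
        intro hxN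
        exact hx ⟨⟨x, hxN⟩, Finset.mem_coe.2 (Finset.mem_univ _), rfl⟩
      · rw [if_neg h]
    · intro x _
      by_cases h : p x = y
      · rw [if_pos h, if_pos (Subtype.ext h), H46.ext0_of_mem _ x.2]
      · rw [if_neg h, if_neg (fun h' => h (congrArg Subtype.val h'))]
  · rw [H46.ext0_of_not_mem _ hy]
    apply Finset.sum_eq_zero
    intro x _
    by_cases h : p x = y
    · rw [if_pos h, H46.ext0_of_not_mem]
      intro hx
      exact hy ⟨x, hx, h⟩
    · rw [if_neg h]

theorem push_dl_one (p : A →* B) : push p (dl F (1 : A)) = dl F (1 : B) := by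
  classical
  have := Fintype.ofFinite A
  funext y
  rw [push_eq, Finset.sum_eq_single 1]
  · rw [map_one]
    unfold dl
    by_cases h : y = 1
    · rw [if_pos h, if_pos h.symm, if_pos rfl]
    · rw [if_neg h, if_neg (fun h' => h h'.symm)]
  · intro x _ hx
    unfold dl
    rw [if_neg hx]
    split_ifs <;> rfl
  · intro h
    exact absurd (Finset.mem_univ _) h

theorem push_add (p : A →* B) (a b : A → F) : push p (a + b) = push p a + push p b := by
  classical
  have := Fintype.ofFinite A
  funext y
  rw [Pi.add_apply, push_eq, push_eq, push_eq, ← Finset.sum_add_distrib]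
  apply Finset.sum_congr rfl
  intro x _
  split_ifs
  · rfl
  · rw [add_zero]

/-- a block of the image lies under the image of a block -/
theorem under_block {p : A →* B} {N : Subgroup A} {e : A → F}
    {c : N.map p → F} (hc : IsBlk c) (h : mulF (push p e) (PP.ext0 (N.map p) c) ≠ 0) :
    ∃ b : N → F, IsBlk b ∧ mulF c (push (p.subgroupMap N) b) = c ∧ mulF e (PP.ext0 N b) ≠ 0 := by
  have hq : Function.Surjective (p.subgroupMap N) := p.subgroupMap_surjective N
  have key : ∀ g : N → F, IsIdem g →
      mulF (push p e) (mulF (push p (PP.ext0 N g)) (PP.ext0 (N.map p) c)) ≠ 0 →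
      ∃ b : N → F, IsBlk b ∧ mulF c (push (p.subgroupMap N) b) = c ∧ mulF e (PP.ext0 N b) ≠ 0 := by
    apply H46.idem_induction
    · intro h0
      exfalso
      apply h0
      have h1 : mulF (0 : B → F) (PP.ext0 (N.map p) c) = 0 := by
        apply ma_injective
        rw [ma_mul, ma_zero, zero_mul]
      rw [H94.ext0_zero', push_zero, h1, H46.mulF_zero]
    · intro b hb h0
      refine ⟨b, hb, ?_, ?_⟩
      · rcases hc.2.2 _ (push_isIdem hq hb.1) with h1 | h1
        · exact h1
        · exfalso
          apply h0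
          rw [push_ext0, ← H46.ext0_mul, H46.mulF_comm (push_isIdem hq hb.1).1, h1,
            H94.ext0_zero', H46.mulF_zero]
      · intro h1
        apply h0
        rw [← mulF_assoc, ← push_mulF, h1, push_zero]
        apply ma_injective
        rw [ma_mul, ma_zero, zero_mul]
    · intro e₁ e₂ _ _ _ h1 h2 h0
      by_cases h3 : mulF (push p e) (mulF (push p (PP.ext0 N e₁)) (PP.ext0 (N.map p) c)) = 0
      · by_cases h4 : mulF (push p e) (mulF (push p (PP.ext0 N e₂)) (PP.ext0 (N.map p) c)) = 0
        · exfalso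
          apply h0
          have h5 : mulF (push p (PP.ext0 N (e₁ + e₂))) (PP.ext0 (N.map p) c) =
              mulF (push p (PP.ext0 N e₁)) (PP.ext0 (N.map p) c) +
              mulF (push p (PP.ext0 N e₂)) (PP.ext0 (N.map p) c) := by
            rw [H46.ext0_add, push_add]
            apply ma_injective
            rw [ma_mul, ma_add, ma_add, add_mul, ma_mul, ma_mul]
          rw [h5, H46.mulF_add, h3, h4, add_zero]
        · exact h2 h4
      · exact h1 h3
  apply key _ H46.isIdem_one
  rw [H46.ext0_dl, push_dl_one, H46.one_mulF]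
  exact h

/-- conjugation does not change the positivity -/
theorem pos_conj {ℓ : ℕ} (hF : GoodF ℓ F) {p : A →* B} (hp : Function.Surjective p)
    {N : Subgroup A} (hN : N.Normal) {b b' : N → F} {g : A}
    (h : ∀ n : N, b' n = PP.ext0 N b (g * n * g⁻¹))
    (hpos : Pos ℓ (push (p.subgroupMap N) b) (⊤ : Subgroup (N.map p))) :
    Pos ℓ (push (p.subgroupMap N) b') (⊤ : Subgroup (N.map p)) := by
  classical
  have := Fintype.ofFinite N
  have hNB : (N.map p).Normal := hN.map p hp
  let θ : N.map p ≃* N.map p := H96.conjN hNB (p g)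
  let η : N ≃* N := H96.conjN hN g
  have hθ : ∀ n : N, θ (p.subgroupMap N n) = p.subgroupMap N (η n) := by
    intro n
    apply Subtype.ext
    change p g * p n * (p g)⁻¹ = p (g * n * g⁻¹)
    rw [map_mul, map_mul, map_inv]
  have hker : (θ.toMonoidHom).ker = ⊥ := (MonoidHom.ker_eq_bot_iff _).2 θ.injective
  have h1 : H74.infl θ.toMonoidHom (push (p.subgroupMap N) b) = push (p.subgroupMap N) b' := by
    funext y
    unfold H74.infl
    rw [hker, Subgroup.card_bot, Nat.cast_one, inv_one, one_mul, push_eq, push_eq,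
      ← Equiv.sum_comp η.toEquiv]
    apply Finset.sum_congr rfl
    intro n _
    have e1 : b' n = b (η n) := by
      rw [h, H46.ext0_of_mem _ (hN.conj_mem n n.2 g)]
      rfl
    rw [e1]
    by_cases h2 : p.subgroupMap N n = y
    · rw [if_pos h2, if_pos (show p.subgroupMap N (η.toEquiv n) = θ.toMonoidHom y by
        change p.subgroupMap N (η n) = θ y
        rw [← hθ, h2])]
      rfl
    · rw [if_neg h2, if_neg (show ¬ p.subgroupMap N (η.toEquiv n) = θ.toMonoidHom y by
        intro h3
        apply h2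
        apply θ.injective
        rw [hθ]
        exact h3)]
  have h2 := H74.infl_Pos hF θ.toMonoidHom θ.surjective (by rw [hker]; exact bot_le)
    (by rw [hker, Subgroup.card_bot]; exact Nat.coprime_one_left ℓ) _ ⊤ hpos
  rw [h1, Subgroup.comap_top] at h2
  exact h2

end relc

section main

variable {M : Ideal (integralClosure ℤ ℂ)} {A B : Type} [Group A] [Finite A] [Group B] [Finite B]

/-- (R4) -/
theorem pos_rel (lemq : LemQStmt) (bid : BidStmt) (fld : FldStmt) {ℓ : ℕ} (hℓ : ℓ.Prime)
    [M.IsMaximal] (hM : (ℓ : integralClosure ℤ ℂ) ∈ M)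
    {p : A →* B} (hp : Function.Surjective p) (hkO : p.ker = opCore ℓ A)
    (hc : p.ker ≤ Subgroup.center A) {N : Subgroup A} (hN : N.Normal) :
    letI := Ideal.Quotient.field M
    ∀ {χ : A → ℂ}, χ ∈ Irr A → ∀ {e : A → FF M}, IsBlk e → res M e χ = 1 →
      ∀ {ψ : N → ℂ}, ψ ∈ Irr N → (∑ᶠ n : N, χ n * starRingEnd ℂ (ψ n)) ≠ 0 →
      LargeDefect ℓ M ψ → Pos ℓ (push p e) (N.map p) := by
  let _ := Ideal.Quotient.field M
  intro χ hχ e he he1 ψ hψ hχψ hL
  have hF : GoodF ℓ (FF M) := fld ℓ hℓ M hM
  obtain ⟨b, hb, hb1, -⟩ := bid ℓ hℓ M hM N ψ hψ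
  have hq : Function.Surjective (p.subgroupMap N) := p.subgroupMap_surjective N
  have hqk : (p.subgroupMap N).ker = p.ker.subgroupOf N := by
    ext x
    rw [MonoidHom.mem_ker, Subgroup.mem_subgroupOf, MonoidHom.mem_ker]
    constructor
    · intro h
      exact congrArg Subtype.val h
    · intro h
      exact Subtype.ext h
  have hqO : (p.subgroupMap N).ker = opCore ℓ N := by
    rw [hqk, hkO, opCore_sub hℓ hN]
  have hqp : IsPGroup ℓ (p.subgroupMap N).ker := by
    rw [hqO]
    exact opCore_isPGroup hℓ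
  have hqc : (p.subgroupMap N).ker ≤ Subgroup.center N := by
    rw [hqk]
    intro x hx
    rw [Subgroup.mem_center_iff]
    intro y
    exact Subtype.ext (Subgroup.mem_center_iff.1 (hc hx) y)
  have hposb : Pos ℓ (push (p.subgroupMap N) b) (⊤ : Subgroup (N.map p)) :=
    pos_push hℓ hM hq hqO hqp hqc hψ hb hb1 hL
  apply H94.pos_of_blocks ℓ (N.map p) (push p e) (push_isCl hp he.1.1)
  intro c hcb hne
  obtain ⟨b', hb', h1, h2⟩ := under_block hcb hne
  obtain ⟨g, hg⟩ := lemq M A N hN e he χ hχ he1 ψ hψ hχψ b b' hb hb1 hb' h2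
  exact H46.pos_mono hcb.1 h1 (pos_conj hF hp hN hg hposb)

end main

end H75

end Pool.Agent.PP
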