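import Pool.Agent.Helper75_PP.Conj

/-!
# Squad PP, Fong-Reynolds: the local statement at a normal chain
-/

open scoped BigOperators

set_option linter.unusedSectionVars false

noncomputable section

namespace Pool.Agent.PP.H75

open Pool.Agent.Helper51_AWC Pool.Agent.Helper79_WRA Pool.Agent.PP

section brauer

variable {F G : Type} [Field F] [Group G] [Finite G]

/-- `G` with the action of its subgroups by conjugation -/
structure CT (G : Type) where
  /-- the element -/
  val : G

/-- `CT G` is `G` -/
def ctE (G : Type) : CT G ≃ G := ⟨CT.val, CT.mk, fun _ => rfl, fun _ => rfl⟩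

instance : Finite (CT G) := Finite.of_equiv G (ctE G).symm

instance (P : Subgroup G) : MulAction P (CT G) where
  smul p t := ⟨(p : G) * t.val * (p : G)⁻¹⟩
  one_smul t := by
    change CT.mk (((1 : P) : G) * t.val * ((1 : P) : G)⁻¹) = t
    rw [Subgroup.coe_one, one_mul, inv_one, mul_one]
  mul_smul p q t := by
    change CT.mk (((p * q : P) : G) * t.val * ((p * q : P) : G)⁻¹) =
      CT.mk ((p : G) * ((q : G) * t.val * (q : G)⁻¹) * (p : G)⁻¹)
    rw [Subgroup.coe_mul]
    congr 1
    group

theorem ct_fixed (P : Subgroup G) (t : G) :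
    CT.mk t ∈ MulAction.fixedPoints P (CT G) ↔ t ∈ Subgroup.centralizer (P : Set G) := by
  rw [Subgroup.mem_centralizer_iff]
  constructor
  · intro h p hp
    have h1 : p * t * p⁻¹ = t := congrArg CT.val (h ⟨p, hp⟩)
    rw [mul_inv_eq_iff_eq_mul] at h1
    exact h1
  · intro h p
    change CT.mk ((p : G) * t * (p : G)⁻¹) = CT.mk t
    congr 1
    rw [mul_inv_eq_iff_eq_mul]
    exact h p p.2

theorem br_in {P : Subgroup G} (a : G → F) {t : G} (ht : t ∈ Subgroup.centralizer (P : Set G)) :
    br P a t = a t := by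
  rw [br, if_pos ht]

theorem br_out {P : Subgroup G} (a : G → F) {t : G} (ht : t ∉ Subgroup.centralizer (P : Set G)) :
    br P a t = 0 := by
  rw [br, if_neg ht]

theorem sum_orb (orb : OrbStmt) {ℓ : ℕ} (hF : GoodF ℓ F) {P : Subgroup G} (hP : IsPGroup ℓ P)
    (h : G → F) (hh : ∀ p ∈ P, ∀ t, h (p * t * p⁻¹) = h t) :
    ∑ᶠ t, h t = ∑ᶠ (t : G) (_ : t ∈ Subgroup.centralizer (P : Set G)), h t := by
  have h1 := orb ℓ F F P (CT G) hF.prime hF.char hP (fun t => h t.val)
    (fun r t => hh r r.2 t.val)
  rw [← finsum_comp_equiv (ctE G)]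
  refine h1.trans ?_
  rw [← finsum_comp_equiv (ctE G)]
  apply finsum_congr
  intro t
  have h2 := propext (ct_fixed P t.val)
  exact congrArg (fun p : Prop => ∑ᶠ (_ : p), h t.val) h2

/-- the Brauer map is multiplicative on invariant elements -/
theorem br_mulF (orb : OrbStmt) {ℓ : ℕ} (hF : GoodF ℓ F) {P : Subgroup G} (hP : IsPGroup ℓ P)
    {a c : G → F} (ha : ∀ p ∈ P, cj p a = a) (hc : ∀ p ∈ P, cj p c = c) :
    br P (mulF a c) = mulF (br P a) (br P c) := by
  funext x
  by_cases hx : x ∈ Subgroup.centralizer (P : Set G)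
  · rw [br_in _ hx]
    unfold mulF
    rw [sum_orb orb hF hP (fun t => a t * c (t⁻¹ * x))]
    · apply finsum_congr
      intro t
      classical
      rw [finsum_eq_if]
      by_cases ht : t ∈ Subgroup.centralizer (P : Set G)
      · rw [if_pos ht, br_in _ ht, br_in]
        exact Subgroup.mul_mem _ (Subgroup.inv_mem _ ht) hx
      · rw [if_neg ht, br_out _ ht, zero_mul]
    · intro p hp t
      rw [(cj_eq_iff p a).1 (ha p hp) t]
      congr 1
      have h1 := (cj_eq_iff p c).1 (hc p hp) (t⁻¹ * x)
      rw [← h1]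
      congr 1
      have h2 := Subgroup.mem_centralizer_iff.1 hx p hp
      have h3 : p⁻¹ * x = x * p⁻¹ := by
        rw [inv_mul_eq_iff_eq_mul, ← mul_assoc, h2, mul_inv_cancel_right]
      calc (p * t * p⁻¹)⁻¹ * x = p * t⁻¹ * (p⁻¹ * x) := by group
        _ = p * (t⁻¹ * x) * p⁻¹ := by rw [h3]; group
  · rw [br_out _ hx]
    symm
    exact mulF_supp (Subgroup.centralizer (P : Set G)) (fun y hy => br_out _ hy)
      (fun y hy => br_out _ hy) x hx

/-- a class function acts like its Brauer map -/
theorem lnum_br (nls : NlsStmt) {ℓ : ℕ} (hF : GoodF ℓ F) {P K : Subgroup G} (hP : IsPGroup ℓ P)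
    (hPK : P ≤ K) (hKN : K ≤ Subgroup.normalizer (P : Set G)) {a : G → F}
    (ha : ∀ k ∈ K, cj k a = a) : lnum K (br P a) = lnum K a := by
  have hn : (P.subgroupOf K).Normal := by
    constructor
    intro n hn k
    rw [Subgroup.mem_subgroupOf] at hn ⊢
    exact (Subgroup.mem_normalizer_iff.1 (hKN k.2) n).1 hn
  have hp : IsPGroup ℓ (P.subgroupOf K) :=
    hP.of_equiv (Subgroup.subgroupOfEquivOfLe hPK).symm
  have hcl : IsCl (fun t : K => a t) := by
    intro x y
    exact (cj_eq_iff (y : G) a).1 (ha y y.2) x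
  have hbr : br (P.subgroupOf K) (fun t : K => a t) = fun t : K => br P a t := by
    funext t
    by_cases ht : (t : G) ∈ Subgroup.centralizer (P : Set G)
    · rw [br_in _ ht, br_in]
      rw [Subgroup.mem_centralizer_iff] at ht ⊢
      intro p hp
      apply Subtype.ext
      exact ht p hp
    · rw [br_out _ ht, br_out]
      intro h
      apply ht
      rw [Subgroup.mem_centralizer_iff] at h ⊢
      intro p hp
      have := h ⟨p, hPK hp⟩ hp
      exact congrArg Subtype.val this
  unfold lnum
  congr 1
  ext f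
  simp only [Set.mem_ofPred_eq]
  refine and_congr_right ?_
  rintro ⟨n, ρ, hρ, rfl⟩
  have := (nls ℓ F hF K (P.subgroupOf K) hn hp n ρ hρ).2 _ hcl
  rw [this.2, hbr]

end brauer

section loc

variable {F G : Type} [Field F] [Group G] [Finite G] {N : Subgroup G} {b e : G → F}

/-- the conjugates of `b` fixed by `P` -/
@[ext] structure OmP (b : G → F) (P : Subgroup G) where
  /-- the conjugate -/
  val : Om b
  fix : ∀ p ∈ P, p • val = val

instance (P : Subgroup G) : Finite (OmP b P) :=
  Finite.of_injective (fun f : OmP b P => f.val) (fun _ _ h => OmP.ext h)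

/-- the action of a subgroup normalising `P` -/
@[instance_reducible] def actP (b : G → F) (P X : Subgroup G)
    (hX : X ≤ Subgroup.normalizer (P : Set G)) : MulAction X (OmP b P) where
  smul x f := ⟨(x : G) • f.val, by
    intro p hp
    have h1 : (x : G)⁻¹ * p * x ∈ P := by
      have := (Subgroup.mem_normalizer_iff.1
        (Subgroup.inv_mem _ (hX x.2)) p).1 hp
      rwa [inv_inv] at this
    have h2 := f.fix _ h1
    conv_rhs => rw [← h2]
    rw [smul_smul, smul_smul]
    congr 1
    group⟩
  one_smul f := OmP.ext (one_smul G f.val)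
  mul_smul x y f := OmP.ext (mul_smul (x : G) (y : G) f.val)

theorem omP_iff (P : Subgroup G) (f : Om b) : (∀ p ∈ P, p • f = f) ↔ P ≤ st f.1 := by
  constructor
  · intro h p hp
    rw [← om_stab]
    exact h p hp
  · intro h p hp
    have := h hp
    rw [← om_stab] at this
    exact this

open Classical in
/-- LOCAL: the `ℓ`-number of `e` at a subgroup `X` between `P C(P)` and `N(P)`. -/
theorem local_eq (orb : OrbStmt) (nls : NlsStmt) (ibf : IbfStmt) (ibj : IbjStmt) (ibn : IbnStmt)
    (eig : EigStmt) {ℓ : ℕ} (hF : GoodF ℓ F) [Fintype (Om b)] (h : Bd N b) (he : IsBlk e)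
    (hne : mulF e b ≠ 0) {P X : Subgroup G} (hP : IsPGroup ℓ P) (hPX : P ≤ X)
    (hCX : Subgroup.centralizer (P : Set G) ≤ X) (hXN : X ≤ Subgroup.normalizer (P : Set G)) :
    Nat.card X * lnum X e = ∑ f : Om b, if P ≤ st f.1 then
      Nat.card (X ⊓ st f.1 : Subgroup G) * lnum (X ⊓ st f.1) (mulF e f.1) else 0 := by
  let _ := actP b P X hXN
  let _ : Fintype (OmP b P) := Fintype.ofFinite _
  have hfam := h.fam2 he.1
  have hJinv : ∀ (f : Om b) (x : G), x ∈ st f.1 → cj x (mulF e f.1) = mulF e f.1 := by
    intro f x hx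
    rw [cj_mulF, cj_isCl x he.1.1, mem_st.1 hx]
  have hPinv : ∀ f : OmP b P, ∀ p ∈ P, cj p (mulF e f.val.1) = mulF e f.val.1 := by
    intro f p hp
    exact hJinv f.val p ((omP_iff P f.val).1 f.fix hp)
  have hF2 : Fam (X := X) (fun (f : OmP b P) => fun t : X => br P (mulF e f.val.1) t) := by
    refine ⟨?_, ?_, ?_, ?_⟩
    · intro x f y
      have e1 : mulF e ((x : G) • f.val : Om b).1 = cj (x : G) (mulF e f.val.1) := by
        rw [cj_mulF, cj_isCl _ he.1.1, om_smul]
      change br P (mulF e ((x : G) • f.val : Om b).1) ((x : G) * y * (x : G)⁻¹) = _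
      rw [e1]
      have hiff : (x : G) * y * (x : G)⁻¹ ∈ Subgroup.centralizer (P : Set G) ↔
          (y : G) ∈ Subgroup.centralizer (P : Set G) := by
        rw [Subgroup.mem_centralizer_iff, Subgroup.mem_centralizer_iff]
        constructor
        · intro h' p hp
          have := h' ((x : G) * p * (x : G)⁻¹) ((Subgroup.mem_normalizer_iff.1 (hXN x.2) p).1 hp)
          have e2 : (x : G) * (p * y) * (x : G)⁻¹ = (x : G) * (y * p) * (x : G)⁻¹ := by
            calc (x : G) * (p * y) * (x : G)⁻¹
                = (x : G) * p * (x : G)⁻¹ * ((x : G) * y * (x : G)⁻¹) := by group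
              _ = (x : G) * y * (x : G)⁻¹ * ((x : G) * p * (x : G)⁻¹) := this
              _ = _ := by group
          exact mul_left_cancel (mul_right_cancel e2)
        · intro h' p hp
          have h1 : (x : G)⁻¹ * p * x ∈ P := by
            have := (Subgroup.mem_normalizer_iff.1 (Subgroup.inv_mem _ (hXN x.2)) p).1 hp
            rwa [inv_inv] at this
          have := h' _ h1
          calc p * ((x : G) * y * (x : G)⁻¹) = (x : G) * (((x : G)⁻¹ * p * x) * y) * (x : G)⁻¹ := by
                group
            _ = (x : G) * (y * ((x : G)⁻¹ * p * x)) * (x : G)⁻¹ := by rw [this]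
            _ = _ := by group
      by_cases hy : (y : G) ∈ Subgroup.centralizer (P : Set G)
      · rw [br_in _ hy, br_in _ (hiff.2 hy), cj]
        congr 1
        group
      · rw [br_out _ hy, br_out _ (fun h' => hy (hiff.1 h'))]
    · intro f
      rw [← mulF_res X _ (fun x hx => br_out _ (fun h' => hx (hCX h'))),
        ← br_mulF orb hF hP (hPinv f) (hPinv f), hfam.idem]
    · intro f f' hne'
      rw [← mulF_res X _ (fun x hx => br_out _ (fun h' => hx (hCX h'))),
        ← br_mulF orb hF hP (hPinv f) (hPinv f'), hfam.orth]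
      · funext x
        by_cases hx : (x : G) ∈ Subgroup.centralizer (P : Set G)
        · rw [br_in _ hx]; rfl
        · rw [br_out _ hx]; rfl
      · intro h'
        exact hne' (OmP.ext h')
    · intro f x hx
      have h1 : (x : G) ∉ MulAction.stabilizer G f.val := by
        intro h'
        apply hx
        exact OmP.ext h'
      have h2 := hfam.supp f.val x h1
      by_cases hx : (x : G) ∈ Subgroup.centralizer (P : Set G)
      · rw [br_in _ hx]; exact h2
      · rw [br_out _ hx]
  have hcard := hF2.card ibf ibj ibn eig hF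
  -- the sum of the idempotents
  have hsum : (fun x : X => ∑ f : OmP b P, br P (mulF e f.val.1) x) = fun x : X => br P e x := by
    funext x
    by_cases hx : (x : G) ∈ Subgroup.centralizer (P : Set G)
    · rw [br_in _ hx]
      have h1 := congrFun (h.sum_eq he hne) x
      rw [← h1]
      have h2 := orb ℓ F F P (Om b) hF.prime hF.char hP (fun f => mulF e f.1 x) (by
        intro p f
        change mulF e (((p : G) • f : Om b)).1 x = mulF e f.1 x
        have e1 : mulF e ((p : G) • f : Om b).1 = cj (p : G) (mulF e f.1) := by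
          rw [cj_mulF, cj_isCl _ he.1.1, om_smul]
        rw [e1, cj]
        congr 1
        have := Subgroup.mem_centralizer_iff.1 hx p p.2
        rw [mul_assoc, ← this, inv_mul_cancel_left])
      rw [finsum_eq_sum_of_fintype] at h2
      rw [h2]
      have h3 : ∑ᶠ (f : Om b) (_ : f ∈ MulAction.fixedPoints P (Om b)), mulF e f.1 x =
          ∑ᶠ f : OmP b P, mulF e f.val.1 x := by
        have h4 : ∑ᶠ f : {f : Om b | ∀ p ∈ P, p • f = f}, mulF e f.1.1 x =
            ∑ᶠ (f : Om b) (_ : f ∈ {f : Om b | ∀ p ∈ P, p • f = f}), mulF e f.1 x :=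
          finsum_set_coe_eq_finsum_mem (f := fun f : Om b => mulF e f.1 x)
            {f : Om b | ∀ p ∈ P, p • f = f}
        have h6 : ∑ᶠ f : OmP b P, mulF e f.val.1 x =
            ∑ᶠ f : {f : Om b | ∀ p ∈ P, p • f = f}, mulF e f.1.1 x := by
          let φ : OmP b P ≃ {f : Om b | ∀ p ∈ P, p • f = f} :=
            ⟨fun f => ⟨f.val, f.fix⟩, fun f => ⟨f.1, f.2⟩, fun _ => rfl, fun _ => rfl⟩
          rw [← finsum_comp_equiv φ]
          rfl
        rw [h6, h4]
        apply finsum_congr
        intro f
        have h5 : (f ∈ MulAction.fixedPoints P (Om b)) =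
            (f ∈ {f : Om b | ∀ p ∈ P, p • f = f}) := by
          apply propext
          exact ⟨fun h' p hp => h' ⟨p, hp⟩, fun h' p => h' p p.2⟩
        exact congrArg (fun p : Prop => ∑ᶠ (_ : p), mulF e f.1 x) h5
      rw [h3, finsum_eq_sum_of_fintype]
      apply Finset.sum_congr rfl
      intro f _
      rw [br_in _ hx]
    · rw [br_out _ hx]
      apply Finset.sum_eq_zero
      intro f _
      rw [br_out _ hx]
  rw [hsum] at hcard
  have hl : cnt (fun x : X => br P e x) = lnum X e := by
    rw [← lnum_eq, lnum_br nls hF hP hPX hXN (fun k _ => cj_isCl k he.1.1)]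
  rw [hl] at hcard
  rw [hcard]
  -- the terms
  have hterm : ∀ f : OmP b P, Nat.card (MulAction.stabilizer X f) *
      lnum (MulAction.stabilizer X f) (fun t : X => br P (mulF e f.val.1) t) =
      Nat.card (X ⊓ st f.val.1 : Subgroup G) * lnum (X ⊓ st f.val.1) (mulF e f.val.1) := by
    intro f
    have hmap : (MulAction.stabilizer X f).map X.subtype = X ⊓ st f.val.1 := by
      ext y
      rw [Subgroup.mem_map, Subgroup.mem_inf, ← om_stab]
      constructor
      · rintro ⟨x, hx, rfl⟩
        exact ⟨x.2, congrArg OmP.val hx⟩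
      · rintro ⟨hy, hy2⟩
        exact ⟨⟨y, hy⟩, OmP.ext hy2, rfl⟩
    have hPs : P ≤ st f.val.1 := (omP_iff P f.val).1 f.fix
    rw [← lnum_br nls hF hP (K := X ⊓ st f.val.1) (le_inf hPX hPs) (inf_le_left.trans hXN)
      (fun k hk => hJinv f.val k hk.2), ← hmap, lnum_map X.subtype X.subtype_injective,
      Subgroup.card_map_of_injective X.subtype_injective]
    rfl
  rw [Finset.sum_congr rfl (fun f _ => hterm f), ← Finset.sum_filter]
  symm
  apply Finset.sum_bij (fun (f : Om b) (hf : f ∈ Finset.univ.filter (fun f : Om b => P ≤ st f.1)) =>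
    (⟨f, (omP_iff P f).2 (Finset.mem_filter.1 hf).2⟩ : OmP b P))
  · intro f _
    exact Finset.mem_univ _
  · intro f _ f' _ h'
    exact congrArg OmP.val h'
  · intro f _
    exact ⟨f.val, Finset.mem_filter.2 ⟨Finset.mem_univ _, (omP_iff P f.val).1 f.fix⟩, rfl⟩
  · intro f _
    rfl

end loc

end Pool.Agent.PP.H75
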