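import Pool.Agent.Helper75_PP.Corner
import Pool.Agent.Helper75_PP.Conj
import Pool.Agent.Helper83_WRA.Pos

/-!
# Squad PP: the residues of the central characters as algebra homomorphisms
-/

open scoped BigOperators

set_option linter.unusedSectionVars false

noncomputable section

namespace Pool.Agent.PP.H75

open Pool.Agent.Helper51_AWC Pool.Agent.Helper79_WRA Pool.Agent.PP

section cc

variable {H : Type} [Group H] [Fintype H]

/-- the central character at a complex class function -/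
def wC (A χ : H → ℂ) : ℂ := (∑ t, A t * χ t) / χ 1

theorem act_eq_wC {χ : H → ℂ} {n : ℕ} {ρ : Representation ℂ H (Fin n → ℂ)}
    (hρ : ρ.IsIrreducible) (hχ : ρ.character = χ) (h1 : χ 1 ≠ 0) {A : H → ℂ}
    (hA : ∀ g h, A (h * g * h⁻¹) = A g) : act ρ A = wC A χ • LinearMap.id := by
  obtain ⟨c, hc⟩ := act_scalar ρ A hA
  rw [hc]
  congr 1
  have h2 := act_trace ρ A
  rw [hc] at h2
  have h3 : LinearMap.trace ℂ (Fin n → ℂ) (c • LinearMap.id) = c * χ 1 := by
    rw [map_smul, smul_eq_mul]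
    congr 1
    rw [← hχ, Representation.character, map_one]
    rfl
  rw [h3] at h2
  rw [wC, eq_div_iff h1, h2, hχ]

theorem wC_mul {χ : H → ℂ} (hχ : χ ∈ Irr H) {A B : H → ℂ} (hA : ∀ g h, A (h * g * h⁻¹) = A g)
    (hB : ∀ g h, B (h * g * h⁻¹) = B g) (hAB : ∀ g h, (fun y => ∑ t, A t * B (t⁻¹ * y))
      (h * g * h⁻¹) = (fun y => ∑ t, A t * B (t⁻¹ * y)) g) :
    wC (fun y => ∑ t, A t * B (t⁻¹ * y)) χ = wC A χ * wC B χ := by
  have h1 := irr_one_ne hχ
  obtain ⟨n, ρ, hρ, hch⟩ := hχ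
  have h2 := act_mul ρ A B
  rw [act_eq_wC hρ hch h1 hA, act_eq_wC hρ hch h1 hB, act_eq_wC hρ hch h1 hAB] at h2
  have h3 := congrArg (LinearMap.trace ℂ (Fin n → ℂ)) h2
  have h4 : (wC A χ • (LinearMap.id : (Fin n → ℂ) →ₗ[ℂ] (Fin n → ℂ))) * (wC B χ • LinearMap.id) =
      (wC A χ * wC B χ) • LinearMap.id := by
    apply LinearMap.ext
    intro v
    change wC A χ • wC B χ • v = (wC A χ * wC B χ) • v
    rw [smul_smul]
  rw [h4, map_smul, map_smul, smul_eq_mul, smul_eq_mul] at h3
  have h5 : LinearMap.trace ℂ (Fin n → ℂ) LinearMap.id = χ 1 := by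
    rw [← hch, Representation.character, map_one]
    rfl
  rw [h5] at h3
  exact (mul_right_cancel₀ h1 h3).symm

/-- the central character through the classes -/
theorem wC_eq [Fintype (ConjClasses H)] {χ : H → ℂ} (hχ : χ ∈ Irr H) {A : H → ℂ}
    (hA : ∀ g h, A (h * g * h⁻¹) = A g) :
    wC A χ = ∑ K : ConjClasses H, A (Quotient.out K) *
      omega (MonoidHom.id H) χ (Quotient.out K) := by
  have h := sum_classes (φ := χ) (ψ := fun g => A g⁻¹) (irr_one_ne hχ) (by
    intro g h
    have e : (h * g * h⁻¹)⁻¹ = h * g⁻¹ * h⁻¹ := by group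
    change A (h * g * h⁻¹)⁻¹ = A g⁻¹
    rw [e, hA])
  rw [wC, div_eq_iff (irr_one_ne hχ), mul_comm (∑ K : ConjClasses H, _) (χ 1)]
  have e1 : ∑ t, A t * χ t = ∑ g, χ g * (fun g => A g⁻¹) g⁻¹ := by
    apply Finset.sum_congr rfl
    intro t _
    change _ = χ t * A t⁻¹⁻¹
    rw [inv_inv, mul_comm]
  rw [e1, h]
  congr 1
  apply Finset.sum_congr rfl
  intro K _
  rw [inv_inv, mul_comm]

end cc

section resi

variable {M : Ideal (integralClosure ℤ ℂ)}

/-- lifts of residues -/
def lf (M : Ideal (integralClosure ℤ ℂ)) (x : FF M) : ℂ :=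
  ((Ideal.Quotient.mk_surjective x).choose : integralClosure ℤ ℂ)

theorem lf_integral (x : FF M) : IsIntegral ℤ (lf M x) :=
  ((Ideal.Quotient.mk_surjective x).choose : integralClosure ℤ ℂ).2

theorem red_lf (x : FF M) : red M (lf M x) = x := by
  rw [red_of (lf_integral x)]
  exact (Ideal.Quotient.mk_surjective x).choose_spec

variable {H : Type} [Group H] [Finite H]

/-- `res` through an integral lift -/
theorem res_eq_red [Fintype H] {χ : H → ℂ} (hχ : χ ∈ Irr H) {A : H → ℂ}
    (hA : ∀ g h, A (h * g * h⁻¹) = A g) (hint : ∀ g, IsIntegral ℤ (A g)) (a : H → FF M)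
    (ha : ∀ g, red M (A g) = a g) : IsIntegral ℤ (wC A χ) ∧ res M a χ = red M (wC A χ) := by
  have := Fintype.ofFinite (ConjClasses H)
  rw [wC_eq hχ hA]
  refine ⟨IsIntegral.sum _ fun K _ => (hint _).mul (omega_integral _ hχ _), ?_⟩
  have h := red_sum (M := M) Finset.univ (fun K : ConjClasses H => A (Quotient.out K) *
    omega (MonoidHom.id H) χ (Quotient.out K))
    (fun K _ => (hint _).mul (omega_integral _ hχ _))
  refine Eq.trans ?_ h.symm
  rw [res, finsum_eq_sum_of_fintype]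
  apply Finset.sum_congr rfl
  intro K _
  rw [red_mul (hint _) (omega_integral _ hχ _), ha]

/-- T1: `res` is multiplicative on class functions -/
theorem res_mulF [M.IsMaximal] : letI := Ideal.Quotient.field M
    ∀ {χ : H → ℂ}, χ ∈ Irr H → ∀ {a b : H → FF M}, IsCl a → IsCl b →
      res M (mulF a b) χ = res M a χ * res M b χ := by
  let _ := Ideal.Quotient.field M
  intro χ hχ a b ha hb
  have := Fintype.ofFinite H
  set A : H → ℂ := fun g => lf M (a g) with hA
  set B : H → ℂ := fun g => lf M (b g) with hB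
  have hA1 : ∀ g h, A (h * g * h⁻¹) = A g := by
    intro g h
    rw [hA]
    change lf M (a _) = lf M (a _)
    rw [ha g h]
  have hB1 : ∀ g h, B (h * g * h⁻¹) = B g := by
    intro g h
    rw [hB]
    change lf M (b _) = lf M (b _)
    rw [hb g h]
  have hA2 : ∀ g, IsIntegral ℤ (A g) := fun g => lf_integral _
  have hB2 : ∀ g, IsIntegral ℤ (B g) := fun g => lf_integral _
  have hAB1 : ∀ g h, (fun y => ∑ t, A t * B (t⁻¹ * y)) (h * g * h⁻¹) =
      (fun y => ∑ t, A t * B (t⁻¹ * y)) g := by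
    intro g h
    change ∑ t, A t * B (t⁻¹ * (h * g * h⁻¹)) = ∑ t, A t * B (t⁻¹ * g)
    rw [← Equiv.sum_comp (MulAut.conj h).toEquiv]
    apply Finset.sum_congr rfl
    intro t _
    change A (h * t * h⁻¹) * B ((h * t * h⁻¹)⁻¹ * (h * g * h⁻¹)) = _
    have e : (h * t * h⁻¹)⁻¹ * (h * g * h⁻¹) = h * (t⁻¹ * g) * h⁻¹ := by group
    rw [e, hA1, hB1]
  have hint : ∀ g, IsIntegral ℤ (∑ t, A t * B (t⁻¹ * g)) := fun g =>
    IsIntegral.sum _ fun t _ => (hA2 _).mul (hB2 _)
  obtain ⟨i1, r1⟩ := res_eq_red hχ hA1 hA2 a (fun g => red_lf _)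
  obtain ⟨i2, r2⟩ := res_eq_red hχ hB1 hB2 b (fun g => red_lf _)
  obtain ⟨_, r3⟩ := res_eq_red hχ hAB1 hint (mulF a b) (by
    intro g
    rw [red_sum _ _ (fun t _ => (hA2 _).mul (hB2 _)), mulF, finsum_eq_sum_of_fintype]
    apply Finset.sum_congr rfl
    intro t _
    rw [red_mul (hA2 _) (hB2 _)]
    change red M (lf M (a t)) * red M (lf M (b _)) = _
    rw [red_lf, red_lf])
  rw [r1, r2, r3, wC_mul hχ hA1 hB1 hAB1, red_mul i1 i2]

/-- T4 -/
theorem res_congr {χ ψ : H → ℂ} (h : labF M ψ = labF M χ) (a : H → FF M) :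
    res M a ψ = res M a χ := by
  unfold res
  apply finsum_congr
  intro K
  have := congrFun h (Quotient.out K)
  change red M _ = red M _ at this
  rw [this]

theorem res_zero (χ : H → ℂ) : res M (0 : H → FF M) χ = 0 := by
  unfold res
  rw [finsum_eq_zero_of_forall_eq_zero]
  intro K
  change (0 : FF M) * _ = 0
  rw [zero_mul]

/-- `res` at a class sum is the label -/
theorem res_clsum [M.IsMaximal] {χ : H → ℂ} (x : H) :
    letI := Ideal.Quotient.field M
    res M (clsum (FF M) ⊤ x) χ = labF M χ x := by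
  let _ := Ideal.Quotient.field M
  have hK : ∀ K : ConjClasses H, ConjClasses.mk (Quotient.out K) = K := fun K => Quotient.out_eq K
  have hx : IsConj x (Quotient.out (ConjClasses.mk x)) := by
    rw [← ConjClasses.mk_eq_mk_iff_isConj, hK]
  unfold res
  rw [finsum_eq_single _ (ConjClasses.mk x)]
  · obtain ⟨c, hc⟩ := isConj_iff.1 hx
    rw [clsum, if_pos ⟨c, Subgroup.mem_top _, hc.symm⟩, one_mul]
    change red M (omega (MonoidHom.id H) χ _) = red M (omega (MonoidHom.id H) χ x)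
    congr 1
    unfold omega
    congr 1
    apply finsum_congr
    intro h
    have e : IsConj (Quotient.out (ConjClasses.mk x)) ((MonoidHom.id H) h) =
        IsConj x ((MonoidHom.id H) h) := propext ⟨fun h' => hx.trans h', fun h' => hx.symm.trans h'⟩
    exact congrArg (fun p : Prop => ∑ᶠ (_ : p), χ h) e
  · intro K hKx
    rw [clsum, if_neg, zero_mul]
    rintro ⟨c, _, hc⟩
    apply hKx
    rw [← hK K]
    symm
    rw [ConjClasses.mk_eq_mk_iff_isConj, isConj_iff]
    exact ⟨c, hc.symm⟩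

end resi

end Pool.Agent.PP.H75
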