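import Pool.Agent.Helper75_PP.Corner

/-!
# Squad PP: counting modular characters with a permuted family of orthogonal idempotents
-/

open scoped BigOperators

set_option linter.unusedSectionVars false

noncomputable section

namespace Pool.Agent.PP.H75

open Pool.Agent.Helper51_AWC Pool.Agent.Helper79_WRA Pool.Agent.PP

section cliff

variable {F X : Type} [Field F] [Group X] [Finite X]

theorem ma_finsum {Ω : Type} (s : Finset Ω) (ε : Ω → X → F) :
    ma (fun x => ∑ ω ∈ s, ε ω x) = ∑ ω ∈ s, ma (ε ω) := by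
  rw [← ma_sum]
  congr 1
  funext x
  rw [Finset.sum_apply]

theorem scalar_mul' {n : ℕ} (w : F) (M : Matrix (Fin n) (Fin n) F) :
    Matrix.scalar (Fin n) w * M = w • M := by
  rw [Matrix.scalar_apply, ← Matrix.smul_eq_diagonal_mul]

theorem ev_finsum {Ω : Type} (s : Finset Ω) (ε : Ω → X → F) {n : ℕ}
    (ρ : X →* Matrix (Fin n) (Fin n) F) :
    ev ρ (fun x => ∑ ω ∈ s, ε ω x) = ∑ ω ∈ s, ev ρ (ε ω) := by
  rw [ev_eq, ma_finsum, map_sum]
  apply Finset.sum_congr rfl
  intro ω _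
  rw [ev_eq]

/-- the cardinalities of the stabilisers in one orbit add up to the order of the group -/
theorem sum_stab_orbit {Ω : Type} [Fintype Ω] [MulAction X Ω] (ω₀ : Ω) (s : Finset Ω)
    (hs : ∀ ω, ω ∈ s ↔ ω ∈ MulAction.orbit X ω₀) :
    ∑ ω ∈ s, Nat.card (MulAction.stabilizer X ω) = Nat.card X := by
  classical
  have := Fintype.ofFinite X
  have hcard : ∀ ω ∈ s, s.card * Nat.card (MulAction.stabilizer X ω) = Nat.card X := by
    intro ω hω
    have h1 := MulAction.card_orbit_mul_card_stabilizer_eq_card_group X ω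
    rw [← Nat.card_eq_fintype_card, ← Nat.card_eq_fintype_card, ← Nat.card_eq_fintype_card] at h1
    rw [← h1]
    congr 1
    have h2 : MulAction.orbit X ω = (s : Set Ω) := by
      rw [MulAction.orbit_eq_iff.2 ((hs ω).1 hω)]
      ext x
      exact (hs x).symm
    rw [h2]
    change s.card = Nat.card (s : Set Ω)
    rw [Nat.card_coe_set_eq, Set.ncard_coe_finset]
  have h0 : ω₀ ∈ s := (hs ω₀).2 (MulAction.mem_orbit_self ω₀)
  have hpos : 0 < s.card := Finset.card_pos.2 ⟨ω₀, h0⟩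
  apply Nat.eq_of_mul_eq_mul_left hpos
  rw [Finset.mul_sum, Finset.sum_congr rfl hcard, Finset.sum_const, smul_eq_mul]

/-- A family of orthogonal idempotents of `F X`, permuted by `X`. -/
structure Fam {Ω : Type} [Fintype Ω] [MulAction X Ω] (ε : Ω → X → F) : Prop where
  equiv : ∀ (x : X) (ω : Ω) (y : X), ε (x • ω) (x * y * x⁻¹) = ε ω y
  idem : ∀ ω, mulF (ε ω) (ε ω) = ε ω
  orth : ∀ ω ω', ω ≠ ω' → mulF (ε ω) (ε ω') = 0
  supp : ∀ ω x, x ∉ MulAction.stabilizer X ω → ε ω x = 0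

variable {Ω : Type} [Fintype Ω] [MulAction X Ω] {ε : Ω → X → F}

theorem Fam.move (h : Fam ε) (x : X) (ω : Ω) :
    mulF (dl F x) (ε ω) = mulF (ε (x • ω)) (dl F x) := by
  funext y
  rw [mulF_dl_left, mulF_dl_right, ← h.equiv x ω (x⁻¹ * y)]
  congr 1
  group

theorem Fam.cor (h : Fam ε) (ω : Ω) : Cor (MulAction.stabilizer X ω) (ε ω) := by
  refine ⟨h.supp ω, ?_, h.idem ω, ?_⟩
  · intro k hk x
    have := h.equiv k ω x
    rw [MulAction.mem_stabilizer_iff.1 hk] at this
    exact this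
  · intro x hx
    rw [h.move, ← mulF_assoc, h.orth]
    · apply ma_injective
      rw [ma_mul, ma_zero, zero_mul]
    · intro h'
      exact hx h'.symm

theorem Fam.isCl (h : Fam ε) (s : Finset Ω) (hs : ∀ (x : X) (ω : Ω), x • ω ∈ s ↔ ω ∈ s) :
    IsCl (fun x => ∑ ω ∈ s, ε ω x) := by
  intro x y
  change ∑ ω ∈ s, ε ω (y * x * y⁻¹) = ∑ ω ∈ s, ε ω x
  symm
  apply Finset.sum_bij (fun ω _ => y • ω)
  · intro ω hω
    exact (hs y ω).2 hω
  · intro ω _ ω' _ h'
    exact MulAction.injective y h'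
  · intro ω hω
    refine ⟨y⁻¹ • ω, (hs y⁻¹ ω).2 hω, ?_⟩
    rw [smul_inv_smul]
  · intro ω _
    rw [h.equiv]

theorem Fam.mul_sum (h : Fam ε) (s : Finset Ω) {ω : Ω} (hω : ω ∈ s) :
    mulF (fun x => ∑ ω' ∈ s, ε ω' x) (ε ω) = ε ω := by
  apply ma_injective
  rw [ma_mul, ma_finsum, Finset.sum_mul, Finset.sum_eq_single ω]
  · rw [← ma_mul, h.idem]
  · intro ω' _ hne
    rw [← ma_mul, h.orth ω' ω hne, ma_zero]
  · intro h'
    exact absurd hω h'

theorem Fam.mul_sum_zero (h : Fam ε) (s : Finset Ω) {ω : Ω} (hω : ω ∉ s) :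
    mulF (fun x => ∑ ω' ∈ s, ε ω' x) (ε ω) = 0 := by
  apply ma_injective
  rw [ma_mul, ma_finsum, Finset.sum_mul, ma_zero]
  apply Finset.sum_eq_zero
  intro ω' hω'
  rw [← ma_mul, h.orth ω' ω, ma_zero]
  rintro rfl
  exact hω hω'

theorem Fam.isIdem (h : Fam ε) : IsIdem (fun x => ∑ ω, ε ω x) := by
  refine ⟨h.isCl Finset.univ (fun _ _ => ⟨fun _ => Finset.mem_univ _, fun _ => Finset.mem_univ _⟩),
    ?_⟩
  apply ma_injective
  rw [ma_mul]
  conv_lhs =>
    rw [ma_finsum Finset.univ ε]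
  rw [← ma_finsum Finset.univ ε, ma_finsum Finset.univ ε, Finset.mul_sum]
  apply Finset.sum_congr rfl
  intro ω _
  rw [← ma_finsum Finset.univ ε, ← ma_mul, h.mul_sum Finset.univ (Finset.mem_univ ω)]

open Classical in
/-- the count for one character -/
theorem Fam.orbit_count (eig : EigStmt) (h : Fam ε) {f : X → F} (hf : f ∈ IBr F X) :
    ∑ ω, (if actF (ε ω) f ≠ 0 then Nat.card (MulAction.stabilizer X ω) else 0) =
      if actF (fun x => ∑ ω, ε ω x) f = f then Nat.card X else 0 := by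
  obtain ⟨n, ρ, hρ, rfl⟩ := hf
  obtain ⟨w, hw1, hw2, hw3⟩ := eig F X n ρ hρ _ h.isIdem.1
  rcases hw3 h.isIdem with hw | hw
  · have h1 : ∀ ω, actF (ε ω) (tr ρ) = 0 := by
      intro ω
      rw [← ev_zero_iff hρ, ← h.mul_sum Finset.univ (Finset.mem_univ ω), ev_mulF, hw1, hw, map_zero,
        zero_mul]
    rw [if_neg]
    · apply Finset.sum_eq_zero
      intro ω _
      rw [if_neg]
      intro h'
      exact h' (h1 ω)
    · rw [hw2, hw, zero_smul]
      exact fun h' => tr_ne_zero hρ h'.symm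
  · rw [if_pos (by rw [hw2, hw, one_smul])]
    obtain ⟨ω₀, hω₀⟩ : ∃ ω₀, actF (ε ω₀) (tr ρ) ≠ 0 := by
      by_contra hcon
      push Not at hcon
      have h1 : ev ρ (fun x => ∑ ω, ε ω x) = 0 := by
        rw [ev_finsum]
        apply Finset.sum_eq_zero
        intro ω _
        rw [ev_zero_iff hρ]
        exact hcon ω
      rw [hw1, hw, map_one] at h1
      have h2 := congrFun (congrFun h1 ⟨0, hρ.1⟩) ⟨0, hρ.1⟩
      rw [Matrix.one_apply_eq] at h2
      exact one_ne_zero h2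
    rw [← Finset.sum_filter]
    apply sum_stab_orbit ω₀
    intro ω
    rw [Finset.mem_filter]
    constructor
    · rintro ⟨_, hω⟩
      by_contra hcon
      apply hω
      rw [← ev_zero_iff hρ]
      set s : Finset Ω := Finset.univ.filter (fun ω => ω ∈ MulAction.orbit X ω₀) with hs
      have hsm : ∀ ω, ω ∈ s ↔ ω ∈ MulAction.orbit X ω₀ := by
        intro ω
        rw [hs, Finset.mem_filter]
        exact ⟨fun h => h.2, fun h => ⟨Finset.mem_univ _, h⟩⟩
      obtain ⟨w', hw1', _, _⟩ := eig F X n ρ hρ _ (h.isCl s (by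
        intro x ω
        rw [hsm, hsm]
        constructor
        · intro h'
          have := MulAction.mem_orbit_of_mem_orbit x⁻¹ h'
          rwa [inv_smul_smul] at this
        · intro h'
          exact MulAction.mem_orbit_of_mem_orbit x h'))
      have e1 : ev ρ (ε ω₀) = w' • ev ρ (ε ω₀) := by
        conv_lhs => rw [← h.mul_sum s ((hsm ω₀).2 (MulAction.mem_orbit_self ω₀)), ev_mulF, hw1']
        rw [scalar_mul']
      have hw0 : w' ≠ 0 := by
        intro h0
        rw [h0, zero_smul] at e1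
        exact hω₀ ((ev_zero_iff hρ _).1 e1)
      have e2 : w' • ev ρ (ε ω) = 0 := by
        have e3 : ev ρ (mulF (fun x => ∑ ω' ∈ s, ε ω' x) (ε ω)) = 0 := by
          rw [h.mul_sum_zero s (fun h' => hcon ((hsm ω).1 h')), ev_eq, ma_zero, map_zero]
        rw [ev_mulF, hw1', scalar_mul'] at e3
        exact e3
      exact (smul_eq_zero.1 e2).resolve_left hw0
    · rintro ⟨x, rfl⟩
      refine ⟨Finset.mem_univ _, ?_⟩
      intro h'
      apply hω₀
      change actF (ε (x • ω₀)) (tr ρ) = 0 at h'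
      rw [← ev_zero_iff hρ] at h' ⊢
      have e1 : ρ x * ev ρ (ε ω₀) = 0 := by
        rw [← ev_dl ρ x, ← ev_mulF, h.move, ev_mulF, h', zero_mul]
      have e2 : ev ρ (ε ω₀) = ρ x⁻¹ * (ρ x * ev ρ (ε ω₀)) := by
        rw [← mul_assoc, ← map_mul, inv_mul_cancel, map_one, one_mul]
      rw [e2, e1, mul_zero]

/-- CLIFF: counting through a permuted family of orthogonal idempotents. -/
theorem Fam.card (ibf : IbfStmt) (ibj : IbjStmt) (ibn : IbnStmt) (eig : EigStmt) {ℓ : ℕ}
    (hF : GoodF ℓ F) (h : Fam ε) :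
    Nat.card X * cnt (fun x => ∑ ω, ε ω x) = ∑ ω, Nat.card (MulAction.stabilizer X ω) *
      lnum (MulAction.stabilizer X ω) (ε ω) := by
  classical
  set I := (ibf ℓ F hF X).1.toFinset with hI
  have hmem : ∀ f, f ∈ I ↔ f ∈ IBr F X := fun f => Set.Finite.mem_toFinset _
  have hc : ∀ (P : (X → F) → Prop) [DecidablePred P],
      {f | f ∈ IBr F X ∧ P f}.ncard = (I.filter P).card := by
    intro P _
    rw [← Set.ncard_coe_finset]
    congr 1
    ext f
    simp only [Set.mem_ofPred_eq, Finset.coe_filter, hmem]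
  have h1 : Nat.card X * cnt (fun x => ∑ ω, ε ω x) =
      ∑ f ∈ I, if actF (fun x => ∑ ω, ε ω x) f = f then Nat.card X else 0 := by
    rw [cnt, hc, ← Finset.sum_filter, Finset.sum_const, smul_eq_mul, mul_comm]
  rw [h1]
  have h2 : ∀ f ∈ I, (if actF (fun x => ∑ ω, ε ω x) f = f then Nat.card X else 0) =
      ∑ ω, (if actF (ε ω) f ≠ 0 then Nat.card (MulAction.stabilizer X ω) else 0) := by
    intro f hf
    rw [h.orbit_count eig ((hmem f).1 hf)]
  rw [Finset.sum_congr rfl h2, Finset.sum_comm]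
  apply Finset.sum_congr rfl
  intro ω _
  rw [← (h.cor ω).card ibf ibj ibn eig hF, hc, ← Finset.sum_filter, Finset.sum_const, smul_eq_mul,
    mul_comm]

end cliff

end Pool.Agent.PP.H75
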