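import Pool.Agent.Helper50_PP.Res
import Pool.Agent.Helper66_PP.StmtsLQ

/-!
# Squad PP, module LQM: the matrix of a class function on a part of the conjugacy classes
-/

open scoped BigOperators
open Polynomial

set_option linter.unusedSectionVars false

noncomputable section

namespace Pool.Agent.PP.H75

open Pool.Agent.PP Pool.Agent.Helper51_AWC Pool.Agent.Helper79_WRA
open Pool.Agent.PP.H50 (NN NN_mulVec NN_map exists_out sum_mk actF_mk NN_idem om eigen decomp Cl)

section mat

variable {H : Type} [Group H] [Fintype H] [Fintype (ConjClasses H)] [DecidableEq (ConjClasses H)]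
variable (P : ConjClasses H → Prop) [DecidablePred P]

/-- translation by the support of `a` preserves `P` -/
def Stb {R : Type} [Zero R] (a : H → R) : Prop :=
  ∀ t, a t ≠ 0 → ∀ x, (P (ConjClasses.mk (t * x)) ↔ P (ConjClasses.mk x))

/-- the matrix of the action of `a` on class functions living on `P` -/
def NP {R : Type} [CommRing R] (a : H → R) : Matrix {c // P c} {c // P c} R :=
  fun c c' => NN a c.1 c'.1

variable {P}

theorem NN_zero {R : Type} [CommRing R] {a : H → R} (hs : Stb P a) {c c' : ConjClasses H}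
    (h : ¬ (P c ↔ P c')) : NN a c c' = 0 := by
  rw [NN]
  apply Finset.sum_eq_zero
  intro t _
  by_cases h1 : a t = 0
  · rw [h1, zero_mul]
  · rw [if_neg, mul_zero]
    intro h2
    apply h
    have h3 := hs t h1 (Quotient.out c)
    rw [h2] at h3
    have h4 : ConjClasses.mk (Quotient.out c) = c := Quotient.out_eq c
    rw [h4] at h3
    exact h3.symm

/-- extension by zero -/
def E0 {R : Type} [Zero R] (P : ConjClasses H → Prop) [DecidablePred P] (g : {c // P c} → R) :
    ConjClasses H → R :=
  fun c => if h : P c then g ⟨c, h⟩ else 0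

theorem sum_subL {R : Type} [AddCommMonoid R] (f : ConjClasses H → R) (h : ∀ c, ¬ P c → f c = 0) :
    ∑ c, f c = ∑ c : {c // P c}, f c.1 := by
  rw [← Finset.sum_subtype (Finset.univ.filter P) (by simp) f, Finset.sum_filter_of_ne]
  intro c _ hc
  by_contra h1
  exact hc (h c h1)

theorem NP_mulVec {R : Type} [CommRing R] {a : H → R} (hs : Stb P a) (g : ConjClasses H → R)
    (c : {c // P c}) : (NP P a).mulVec (fun d => g d.1) c = (NN a).mulVec g c.1 := by
  rw [Matrix.mulVec, Matrix.mulVec, dotProduct, dotProduct, sum_subL (P := P)]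
  · rfl
  · intro d hd
    rw [NN_zero hs, zero_mul]
    exact fun h => hd (h.1 c.2)

theorem NN_E0 {R : Type} [CommRing R] {a : H → R} (hs : Stb P a) (g : {c // P c} → R) :
    (NN a).mulVec (E0 P g) = E0 P ((NP P a).mulVec g) := by
  funext c
  by_cases hc : P c
  · have h1 := NP_mulVec hs (E0 P g) ⟨c, hc⟩
    have h2 : (fun d : {c // P c} => E0 P g d.1) = g := by
      funext d
      rw [E0, dif_pos d.2]
    rw [h2] at h1
    rw [E0, dif_pos hc, h1]
  · rw [E0, dif_neg hc, Matrix.mulVec, dotProduct]
    apply Finset.sum_eq_zero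
    intro d _
    by_cases hd : P d
    · rw [NN_zero hs, zero_mul]
      exact fun h => hc (h.2 hd)
    · rw [E0, dif_neg hd, mul_zero]

theorem NP_map {R S : Type} [CommRing R] [CommRing S] (f : R →+* S) (a : H → R) :
    (NP P a).map f = NP P (fun t => f (a t)) := by
  ext c c'
  have := congrFun (congrFun (NN_map f a) c.1) c'.1
  exact this

theorem NP_idem {F : Type} [Field F] {e : H → F} (he : IsIdem e) (hs : Stb P e) :
    NP P e * NP P e = NP P e := by
  ext c c'
  have h1 := congrFun (congrFun (NN_idem he) c.1) c'.1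
  rw [Matrix.mul_apply] at h1 ⊢
  rw [sum_subL (P := P)] at h1
  · exact h1
  · intro d hd
    rw [NN_zero hs, zero_mul]
    exact fun h => hd (h.1 c.2)

/-- the class functions living on `P` -/
def JP (F : Type) [Field F] (P : ConjClasses H → Prop) [DecidablePred P] :
    ({c // P c} → F) →ₗ[F] (H → F) where
  toFun g := fun x => E0 P g (ConjClasses.mk x)
  map_add' g h := by
    funext x
    simp only [Pi.add_apply, E0]
    split_ifs
    · rfl
    · rw [add_zero]
  map_smul' r g := by
    funext x
    simp only [Pi.smul_apply, E0, RingHom.id_apply]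
    split_ifs
    · rfl
    · rw [smul_zero]

theorem JP_inj (F : Type) [Field F] : Function.Injective (JP (H := H) F P) := by
  intro g h hgh
  funext c
  have h1 := congrFun hgh (Quotient.out c.1)
  have h4 : ConjClasses.mk (Quotient.out c.1) = c.1 := Quotient.out_eq c.1
  change E0 P g (ConjClasses.mk (Quotient.out c.1)) = E0 P h (ConjClasses.mk (Quotient.out c.1))
    at h1
  rw [h4, E0, E0, dif_pos c.2, dif_pos c.2] at h1
  exact h1

theorem cfsO_eq {F : Type} [Field F] {L : Subgroup H} [DecidablePred (· ∈ L)]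
    (hP : ∀ x, P (ConjClasses.mk x) ↔ x ∉ L) :
    cfsO F L = LinearMap.range (JP (H := H) F P) := by
  ext f
  constructor
  · rintro ⟨hf, hf0⟩
    refine ⟨fun c => f (Quotient.out c.1), ?_⟩
    funext x
    change E0 P (fun c => f (Quotient.out c.1)) (ConjClasses.mk x) = f x
    rw [E0]
    split_ifs with h
    · obtain ⟨y, hy⟩ := exists_out x
      change f (Quotient.out (ConjClasses.mk x)) = f x
      rw [← hy]
      exact hf x y
    · rw [hP, not_not] at h
      exact (hf0 x h).symm
  · rintro ⟨g, rfl⟩
    constructor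
    · intro x y
      change E0 P g (ConjClasses.mk (y * x * y⁻¹)) = E0 P g (ConjClasses.mk x)
      congr 1
      rw [ConjClasses.mk_eq_mk_iff_isConj]
      exact (isConj_iff.2 ⟨y, rfl⟩ : IsConj x _).symm
    · intro x hx
      change E0 P g (ConjClasses.mk x) = 0
      rw [E0, dif_neg]
      rw [hP, not_not]
      exact hx

theorem rk_cfsO {F : Type} [Field F] {L : Subgroup H} [DecidablePred (· ∈ L)]
    (hP : ∀ x, P (ConjClasses.mk x) ↔ x ∉ L) {a : H → F} (ha : IsCl a) (hs : Stb P a) :
    rk a (cfsO F L) = (NP P a).rank := by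
  rw [rk, cfsO_eq hP, ← LinearMap.range_comp]
  have h1 : (actL a).comp (JP (H := H) F P) = (JP (H := H) F P).comp (NP P a).mulVecLin := by
    apply LinearMap.ext
    intro g
    have h2 := actF_mk ha (E0 P g)
    rw [NN_E0 hs] at h2
    exact h2
  rw [h1, LinearMap.range_comp, Matrix.rank]
  exact (Submodule.equivMapOfInjective _ (JP_inj F) _).finrank_eq.symm

end mat

section chi

variable {H : Type} [Group H] [Fintype H] [Fintype (ConjClasses H)] [DecidableEq (ConjClasses H)]
variable (P : ConjClasses H → Prop) [DecidablePred P]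

/-- the restrictions of some irreducible characters to `P` are a basis -/
theorem exists_BB [Fintype (Irr H)] : ∃ B : Finset (Irr H), ∀ z : H → ℂ,
    (∀ x y, z (y * x * y⁻¹) = z x) → Stb P z →
      (NP P z).charpoly = ∏ χ ∈ B, (X - C (om z χ)) := by
  classical
  let v : Irr H → ({c // P c} → ℂ) := fun χ c => (χ : H → ℂ) (Quotient.out c.1)
  obtain ⟨b, -, -, hb, hli⟩ := exists_linearIndepOn_extension (K := ℂ) (v := v)
    (s := ∅) (t := Set.univ) (linearIndepOn_empty ℂ v) (Set.empty_subset _)
  let B : Finset (Irr H) := b.toFinset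
  have hli' : LinearIndependent ℂ (fun χ : B => v χ) := by
    have h1 : LinearIndependent ℂ (fun χ : b => v χ) := hli
    refine h1.comp (fun χ : B => (⟨χ.1, Set.mem_toFinset.1 χ.2⟩ : b)) ?_
    intro x y h
    have h2 := congrArg Subtype.val h
    exact Subtype.ext h2
  have hsp : ⊤ ≤ Submodule.span ℂ (Set.range (fun χ : B => v χ)) := by
    intro g _
    obtain ⟨m, h1⟩ := decomp (fun x => E0 P g (ConjClasses.mk x)) (by
      intro x y
      congr 1
      rw [ConjClasses.mk_eq_mk_iff_isConj]
      exact (isConj_iff.2 ⟨y, rfl⟩ : IsConj x _).symm)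
    have h2 : g = ∑ χ : Irr H, m χ • v χ := by
      funext c
      have h3 := congrFun h1 (Quotient.out c.1)
      have h4 : ConjClasses.mk (Quotient.out c.1) = c.1 := Quotient.out_eq c.1
      change E0 P g (ConjClasses.mk (Quotient.out c.1)) = _ at h3
      rw [h4, E0, dif_pos c.2] at h3
      rw [h3, Finset.sum_apply, Finset.sum_apply]
      rfl
    rw [h2]
    apply Submodule.sum_mem
    intro χ _
    apply Submodule.smul_mem
    have h5 : v χ ∈ Submodule.span ℂ (v '' b) := hb ⟨χ, Set.mem_univ _, rfl⟩
    have h6 : v '' b = Set.range (fun χ : B => v χ) := by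
      ext w
      constructor
      · rintro ⟨χ, hχ, rfl⟩
        exact ⟨⟨χ, Set.mem_toFinset.2 hχ⟩, rfl⟩
      · rintro ⟨χ, rfl⟩
        exact ⟨χ.1, Set.mem_toFinset.1 χ.2, rfl⟩
    rw [← h6]
    exact h5
  let bs := Module.Basis.mk hli' hsp
  have hbs : ∀ χ : B, bs χ = v χ := fun χ => by rw [Module.Basis.mk_apply]
  refine ⟨B, fun a ha hs => ?_⟩
  have h1 : (Matrix.toLin' (NP P a)).charpoly = (NP P a).charpoly := by
    rw [← LinearMap.charpoly_toMatrix (Matrix.toLin' (NP P a)) (Pi.basisFun ℂ {c // P c})]
    congr 1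
    exact LinearMap.toMatrix'_toLin' (NP P a)
  rw [← h1, ← LinearMap.charpoly_toMatrix (Matrix.toLin' (NP P a)) bs]
  have h2 : LinearMap.toMatrix bs bs (Matrix.toLin' (NP P a)) =
      Matrix.diagonal (fun χ : B => om a (χ : Irr H)) := by
    ext χ ψ
    rw [LinearMap.toMatrix_apply]
    have h3 : Matrix.toLin' (NP P a) (bs ψ) = om a (ψ : Irr H) • bs ψ := by
      rw [hbs]
      funext c
      rw [Matrix.toLin'_apply]
      have h5 := NP_mulVec hs (fun d => ((ψ : Irr H) : H → ℂ) (Quotient.out d)) c
      have h6 : (NP P a).mulVec (v ψ) c = (NN a).mulVec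
        (fun d => ((ψ : Irr H) : H → ℂ) (Quotient.out d)) c.1 := h5
      rw [h6, NN_mulVec, Pi.smul_apply, smul_eq_mul]
      have h7 : ∀ x : H, ((ψ : Irr H) : H → ℂ) (Quotient.out (ConjClasses.mk x)) =
          ((ψ : Irr H) : H → ℂ) x := by
        intro x
        obtain ⟨h, hh⟩ := exists_out x
        rw [← hh, irr_conj (ψ : Irr H).2]
      simp_rw [h7]
      exact eigen ha (ψ : Irr H).2 (Quotient.out c.1)
    rw [h3, map_smul, Module.Basis.repr_self, Finsupp.smul_apply, Matrix.diagonal_apply,
      Finsupp.single_apply, smul_eq_mul]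
    by_cases h4 : ψ = χ
    · subst h4
      rw [if_pos rfl, if_pos rfl, mul_one]
    · rw [if_neg h4, if_neg (Ne.symm h4), mul_zero]
  rw [h2, Matrix.charpoly_diagonal]
  exact Finset.prod_coe_sort B (fun χ => X - C (om a (χ : H → ℂ)))

end chi

end Pool.Agent.PP.H75
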