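import Pool.Agent.Helper75_PP.LqA

/-!
# Squad PP, module LQM: ranks and traces
-/

open scoped BigOperators
open Polynomial

set_option linter.unusedSectionVars false

noncomputable section

namespace Pool.Agent.PP.H75

open Pool.Agent.PP Pool.Agent.Helper51_AWC Pool.Agent.Helper79_WRA
open Pool.Agent.PP.H50 (NN NN_mulVec NN_map exists_out sum_mk actF_mk NN_idem om eigen decomp Cl
  exists_lift res_irr rank_eq_rootMult charpoly_NN)

attribute [local instance] Ideal.Quotient.field

section rank

variable {H : Type} [Group H] [Fintype H] [Fintype (ConjClasses H)] [DecidableEq (ConjClasses H)]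
variable {P : ConjClasses H → Prop} [DecidablePred P]
variable {M : Ideal (integralClosure ℤ ℂ)} [hM : M.IsMaximal]

open Classical in
/-- the rank on the part `P` -/
theorem chp_P [Fintype (Irr H)] {B : Finset (Irr H)}
    (hB : ∀ z : H → ℂ, (∀ x y, z (y * x * y⁻¹) = z x) → Stb P z →
      (NP P z).charpoly = ∏ χ ∈ B, (X - C (om z χ)))
    {e : H → FF M} (he : IsIdem e) (hs : Stb P e) (a : H → integralClosure ℤ ℂ) (ha : Cl a)
    (ea : ∀ t, Ideal.Quotient.mk M (a t) = e t) (hsa : Stb P a) :
    (NP P e).rank = (B.filter (fun χ : Irr H => res M e χ = 1)).card := by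
  classical
  rw [rank_eq_rootMult (NP_idem he hs)]
  have hr : ∀ χ : Irr H, IsIntegral ℤ (om (fun t => (a t : ℂ)) (χ : H → ℂ)) :=
    fun χ => (res_irr (M := M) a ha χ.2).2
  have hsa' : Stb P (fun t => (a t : ℂ)) := by
    intro t ht x
    apply hsa t
    intro h0
    apply ht
    change ((a t : integralClosure ℤ ℂ) : ℂ) = 0
    rw [h0]
    rfl
  have h1 : (NP P a).charpoly = ∏ χ ∈ B, (X - C (⟨_, hr χ⟩ : integralClosure ℤ ℂ)) := by
    have hinj : Function.Injective (algebraMap (integralClosure ℤ ℂ) ℂ) :=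
      Subtype.val_injective
    apply Polynomial.map_injective _ hinj
    rw [← Matrix.charpoly_map, NP_map, Polynomial.map_prod]
    have h2 := hB (fun t => (a t : ℂ)) (fun x y => by rw [ha]) hsa'
    refine Eq.trans h2 ?_
    refine Finset.prod_congr rfl fun χ _ => ?_
    rw [Polynomial.map_sub, Polynomial.map_X, Polynomial.map_C]
    rfl
  have h2 : (NP P e).charpoly = ∏ χ ∈ B, (X - C (res M e χ)) := by
    have h3 : NP P e = (NP P a).map (Ideal.Quotient.mk M) := by
      rw [NP_map]
      congr 1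
      exact (funext ea).symm
    have h4 : (fun t => Ideal.Quotient.mk M (a t)) = e := funext ea
    rw [h3, Matrix.charpoly_map, h1, Polynomial.map_prod]
    refine Finset.prod_congr rfl fun χ _ => ?_
    rw [Polynomial.map_sub, Polynomial.map_X, Polynomial.map_C, ← h4,
      (res_irr (M := M) a ha χ.2).1, red_of (hr χ)]
  have h5 : (∏ χ ∈ B, (X - C (res M e χ))).roots =
      B.val.map (fun χ : Irr H => res M e χ) := by
    rw [Finset.prod_eq_multiset_prod]
    have h6 : Multiset.map (fun χ : Irr H => X - C (res M e χ)) B.val =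
        Multiset.map (fun w : FF M => X - C w)
          (Multiset.map (fun χ : Irr H => res M e χ) B.val) := by
      rw [Multiset.map_map]
      rfl
    rw [h6, Polynomial.roots_multiset_prod_X_sub_C]
  rw [h2, ← Polynomial.count_roots, h5, Multiset.count_map, Finset.card_def, Finset.filter_val]
  congr 1
  apply Multiset.filter_congr
  intro χ _
  exact eq_comm

end rank

section trace

variable {H : Type} [Group H] [Fintype H] [Fintype (ConjClasses H)] [DecidableEq (ConjClasses H)]
variable {P : ConjClasses H → Prop} [DecidablePred P]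

/-- the sum over a class -/
theorem class_sum [DecidableEq H] {z : H → ℂ} (hz : ∀ x y, z (y * x * y⁻¹) = z x)
    (c : ConjClasses H) :
    (Fintype.card H : ℂ) * NN z c c =
      ∑ x : H with ConjClasses.mk x = c, ∑ y, z (y * x * y⁻¹ * x⁻¹) := by
  set o := Quotient.out c with ho
  have hoc : ConjClasses.mk o = c := Quotient.out_eq c
  -- all inner sums are equal
  have h1 : ∀ x : H, ConjClasses.mk x = c →
      ∑ y, z (y * x * y⁻¹ * x⁻¹) = ∑ y, z (y * o * y⁻¹ * o⁻¹) := by
    intro x hx
    obtain ⟨h, hh⟩ := exists_out x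
    rw [hx] at hh
    rw [← Equiv.sum_comp (MulAut.conj h).toEquiv (fun y => z (y * o * y⁻¹ * o⁻¹))]
    refine Finset.sum_congr rfl fun y _ => ?_
    change z (y * x * y⁻¹ * x⁻¹) = z (h * y * h⁻¹ * o * (h * y * h⁻¹)⁻¹ * o⁻¹)
    rw [ho, ← hh]
    have h2 : h * y * h⁻¹ * (h * x * h⁻¹) * (h * y * h⁻¹)⁻¹ * (h * x * h⁻¹)⁻¹ =
        h * (y * x * y⁻¹ * x⁻¹) * h⁻¹ := by group
    rw [h2, hz]
  -- the number of `y` with `y o y⁻¹ = x`
  let n : H → ℕ := fun x => (Finset.univ.filter (fun y => y * o * y⁻¹ = x)).card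
  have hn : ∀ x : H, ConjClasses.mk x = c → n x = n o := by
    intro x hx
    obtain ⟨h, hh⟩ := exists_out x
    rw [hx] at hh
    change (Finset.univ.filter (fun y => y * o * y⁻¹ = x)).card =
      (Finset.univ.filter (fun y => y * o * y⁻¹ = o)).card
    apply Finset.card_bij' (fun y _ => h * y) (fun y _ => h⁻¹ * y)
    · intro y hy
      rw [Finset.mem_filter] at hy ⊢
      refine ⟨Finset.mem_univ _, ?_⟩
      have h2 : h * y * o * (h * y)⁻¹ = h * (y * o * y⁻¹) * h⁻¹ := by group
      rw [h2, hy.2, hh]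
    · intro y hy
      rw [Finset.mem_filter] at hy ⊢
      refine ⟨Finset.mem_univ _, ?_⟩
      have h2 : h⁻¹ * y * o * (h⁻¹ * y)⁻¹ = h⁻¹ * (y * o * y⁻¹) * h := by group
      rw [h2, hy.2, ho, ← hh]
      group
    · intro y _
      group
    · intro y _
      group
  have hmk : ∀ y : H, ConjClasses.mk (y * o * y⁻¹) = c := by
    intro y
    rw [← hoc, ConjClasses.mk_eq_mk_iff_isConj]
    exact (isConj_iff.2 ⟨y, rfl⟩ : IsConj o _).symm
  have hcard : (Finset.univ.filter (fun x : H => ConjClasses.mk x = c)).card * n o =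
      Fintype.card H := by
    have h2 : (Finset.univ : Finset H).card =
        ∑ x ∈ Finset.univ.filter (fun x : H => ConjClasses.mk x = c), n x :=
      Finset.card_eq_sum_card_fiberwise
        (f := fun y => y * o * y⁻¹) (t := Finset.univ.filter (fun x : H => ConjClasses.mk x = c))
        (fun y _ => Finset.mem_coe.2 (Finset.mem_filter.2 ⟨Finset.mem_univ _, hmk y⟩))
    rw [← Finset.card_univ (α := H), h2,
      Finset.sum_congr rfl (fun x hx => hn x (Finset.mem_filter.1 hx).2), Finset.sum_const,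
      smul_eq_mul]
  have h3 : ∑ y, z (y * o * y⁻¹ * o⁻¹) = (n o : ℂ) * NN z c c := by
    have h4 : ∑ y, z (y * o * y⁻¹ * o⁻¹) =
        ∑ x : H with ConjClasses.mk x = c, (n x : ℂ) * z (x * o⁻¹) := by
      rw [← Finset.sum_fiberwise_of_maps_to (s := Finset.univ) (g := fun y => y * o * y⁻¹)
        (t := Finset.univ.filter (fun x : H => ConjClasses.mk x = c))
        (fun y _ => Finset.mem_filter.2 ⟨Finset.mem_univ _, hmk y⟩)]
      refine Finset.sum_congr rfl fun x _ => ?_
      rw [Finset.sum_congr rfl (fun y hy => by rw [(Finset.mem_filter.1 hy).2]),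
        Finset.sum_const, nsmul_eq_mul]
    rw [h4, NN, Finset.sum_congr rfl (fun x hx => by rw [hn x (Finset.mem_filter.1 hx).2]),
      ← Finset.mul_sum, Finset.sum_filter]
    congr 1
    rw [← Equiv.sum_comp (Equiv.mulRight o)]
    refine Finset.sum_congr rfl fun t _ => ?_
    rw [Equiv.coe_mulRight, mul_inv_cancel_right, mul_ite, mul_one, mul_zero]
  rw [Finset.sum_congr rfl (fun x hx => h1 x (Finset.mem_filter.1 hx).2), Finset.sum_const,
    nsmul_eq_mul, h3, ← mul_assoc]
  congr 1
  rw [← hcard]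
  push_cast
  rfl

theorem trace_NP [DecidableEq H] {z : H → ℂ} (hz : ∀ x y, z (y * x * y⁻¹) = z x) :
    (Fintype.card H : ℂ) * (NP P z).trace =
      ∑ x : H with P (ConjClasses.mk x), ∑ y, z (y * x * y⁻¹ * x⁻¹) := by
  have h1 : (NP P z).trace = ∑ c with P c, NN z c c := by
    rw [Matrix.trace, Finset.sum_subtype (p := P) (Finset.univ.filter P) (by simp)
      (fun c => NN z c c)]
    rfl
  rw [h1, Finset.mul_sum, ← Finset.sum_fiberwise_of_maps_to
    (s := Finset.univ.filter (fun x : H => P (ConjClasses.mk x)))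
    (g := fun x => ConjClasses.mk x) (t := Finset.univ.filter P)
    (fun x hx => Finset.mem_filter.2 ⟨Finset.mem_univ _, (Finset.mem_filter.1 hx).2⟩)]
  refine Finset.sum_congr rfl fun c hc => ?_
  rw [class_sum hz c, Finset.filter_filter]
  apply Finset.sum_congr _ fun _ _ => rfl
  ext x
  simp only [Finset.mem_filter, Finset.mem_univ, true_and]
  constructor
  · intro h
    exact ⟨by rw [h]; exact (Finset.mem_filter.1 hc).2, h⟩
  · exact fun h => h.2

theorem trace_eq [DecidableEq H] [Fintype (Irr H)] {B : Finset (Irr H)} {z : H → ℂ}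
    (hz : ∀ x y, z (y * x * y⁻¹) = z x)
    (hB : (NP P z).charpoly = ∏ χ ∈ B, (X - C (om z χ))) :
    (Fintype.card H : ℂ) * ∑ χ ∈ B, om z χ =
      ∑ x : H with P (ConjClasses.mk x), ∑ y, z (y * x * y⁻¹ * x⁻¹) := by
  rw [← trace_NP hz, Matrix.trace_eq_sum_roots_charpoly, hB]
  congr 1
  have h6 : (∏ χ ∈ B, (X - C (om z χ))).roots = B.val.map (fun χ : Irr H => om z χ) := by
    rw [Finset.prod_eq_multiset_prod]
    have h6 : Multiset.map (fun χ : Irr H => X - C (om z χ)) B.val =
        Multiset.map (fun w : ℂ => X - C w)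
          (Multiset.map (fun χ : Irr H => om z χ) B.val) := by
      rw [Multiset.map_map]
      rfl
    rw [h6, Polynomial.roots_multiset_prod_X_sub_C]
  rw [h6]
  rfl

theorem trace_full [DecidableEq H] [Fintype (Irr H)] {z : H → ℂ}
    (hz : ∀ x y, z (y * x * y⁻¹) = z x) :
    (Fintype.card H : ℂ) * ∑ χ : Irr H, om z χ = ∑ x : H, ∑ y, z (y * x * y⁻¹ * x⁻¹) := by
  have h1 : (Fintype.card H : ℂ) * (NN z).trace = ∑ x : H, ∑ y, z (y * x * y⁻¹ * x⁻¹) := by
    rw [Matrix.trace, Finset.mul_sum, ← Finset.sum_fiberwise Finset.univ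
      (fun x : H => ConjClasses.mk x)]
    exact Finset.sum_congr rfl fun c _ => class_sum hz c
  rw [← h1, Matrix.trace_eq_sum_roots_charpoly, charpoly_NN hz]
  congr 1
  have h6 : (∏ χ : Irr H, (X - C (om z χ))).roots =
      Finset.univ.val.map (fun χ : Irr H => om z χ) := by
    rw [Finset.prod_eq_multiset_prod]
    have h6 : Multiset.map (fun χ : Irr H => X - C (om z χ)) Finset.univ.val =
        Multiset.map (fun w : ℂ => X - C w)
          (Multiset.map (fun χ : Irr H => om z χ) Finset.univ.val) := by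
      rw [Multiset.map_map]
      rfl
    rw [h6, Polynomial.roots_multiset_prod_X_sub_C]
  rw [h6]
  rfl

end trace

end Pool.Agent.PP.H75
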